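import Pool.Agent.Helper101_Scrib.Rigid

/-!
# Construction of the polytope
-/

namespace Pool.Agent.Helper101_Scrib

open Submodule

variable {d : ℕ}

/-- A basis together with a choice of three auxiliary indices for each pair of indices. -/
structure Frame (d : ℕ) where
  b : Module.Basis (Fin (d + 1)) ℝ (Amb d)
  ca : Fin (d + 1) → Fin (d + 1) → Fin (d + 1)
  cb : Fin (d + 1) → Fin (d + 1) → Fin (d + 1)
  cc : Fin (d + 1) → Fin (d + 1) → Fin (d + 1)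
  hab : ∀ i j, cb i j ≠ ca i j
  hac : ∀ i j, cc i j ≠ ca i j
  hbc : ∀ i j, cc i j ≠ cb i j
  ha0 : ∀ i j, ca i j ≠ 0
  hai : ∀ i j, ca i j ≠ i
  haj : ∀ i j, ca i j ≠ j
  hb0 : ∀ i j, cb i j ≠ 0
  hbi : ∀ i j, cb i j ≠ i
  hbj : ∀ i j, cb i j ≠ j
  hc0 : ∀ i j, cc i j ≠ 0
  hci : ∀ i j, cc i j ≠ i
  hcj : ∀ i j, cc i j ≠ j

theorem exists_frame (hd : 5 ≤ d) (b : Module.Basis (Fin (d + 1)) ℝ (Amb d)) :
    ∃ F : Frame d, F.b = b := by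
  classical
  have h : ∀ i j : Fin (d + 1), ∃ a b c : Fin (d + 1), b ≠ a ∧ c ≠ a ∧ c ≠ b ∧
      (a ≠ 0 ∧ a ≠ i ∧ a ≠ j) ∧ (b ≠ 0 ∧ b ≠ i ∧ b ≠ j) ∧ (c ≠ 0 ∧ c ≠ i ∧ c ≠ j) := by
    intro i j
    have hcard : 2 < (Finset.univ \ ({0, i, j} : Finset (Fin (d + 1)))).card := by
      have h1 := Finset.le_card_sdiff ({0, i, j} : Finset (Fin (d + 1))) Finset.univ
      have h2 : ({0, i, j} : Finset (Fin (d + 1))).card ≤ 3 := Finset.card_le_three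
      rw [Finset.card_univ, Fintype.card_fin] at h1
      omega
    obtain ⟨a, ha, b, hb, c, hc, hab, hac, hbc⟩ := Finset.two_lt_card.1 hcard
    simp only [Finset.mem_sdiff, Finset.mem_univ, true_and, Finset.mem_insert,
      Finset.mem_singleton, not_or] at ha hb hc
    exact ⟨a, b, c, hab.symm, hac.symm, hbc.symm, ha, hb, hc⟩
  choose fa fb fc h using h
  exact ⟨⟨b, fa, fb, fc, fun i j => (h i j).1, fun i j => (h i j).2.1, fun i j => (h i j).2.2.1,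
    fun i j => (h i j).2.2.2.1.1, fun i j => (h i j).2.2.2.1.2.1, fun i j => (h i j).2.2.2.1.2.2,
    fun i j => (h i j).2.2.2.2.1.1, fun i j => (h i j).2.2.2.2.1.2.1,
    fun i j => (h i j).2.2.2.2.1.2.2,
    fun i j => (h i j).2.2.2.2.2.1, fun i j => (h i j).2.2.2.2.2.2.1,
    fun i j => (h i j).2.2.2.2.2.2.2⟩, rfl⟩

/-- The small parameter. -/
noncomputable def eps (k l : Fin (d + 1)) : ℝ := if k = 0 then 1 / 3 else if l = 0 then 2 / 5 else 3 / 10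

theorem eps_lo (k l : Fin (d + 1)) : 3 / 10 ≤ eps k l := by
  unfold eps
  split_ifs <;> norm_num

theorem eps_hi (k l : Fin (d + 1)) : eps k l ≤ 2 / 5 := by
  unfold eps
  split_ifs <;> norm_num

namespace Frame

variable (F : Frame d)

/-- The vertices of the truncated simplex. -/
noncomputable def u (k l : Fin (d + 1)) : Amb d := F.b k + eps k l • F.b l

/-- The points of the gadget of the pair `i, j`. -/
noncomputable def kap (i j : Fin (d + 1)) (x y : ℝ) : Amb d :=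
  (2 * y ^ 2 - 13 * x * y + 15 * x ^ 2 + 1000000 * (3 - x)) • F.b 0 +
  (5 * y ^ 2 - 5 * x * y + 1000000 * (3 - x)) • F.b i +
  (5 * x ^ 2 + 5 * x * y + 1000000 * (3 - x)) • F.b j +
  (5 - x - y) • F.b (F.ca i j) + y • F.b (F.cb i j) + (x - 4) • F.b (F.cc i j)

/-- The functional with prescribed values on the basis. -/
noncomputable def lf (f : Fin (d + 1) → ℝ) : Amb d →ₗ[ℝ] ℝ := F.b.constr ℝ f

theorem lf_b (f : Fin (d + 1) → ℝ) (k : Fin (d + 1)) : F.lf f (F.b k) = f k :=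
  F.b.constr_basis ℝ f k

theorem lf_u (f : Fin (d + 1) → ℝ) (k l : Fin (d + 1)) :
    F.lf f (F.u k l) = f k + eps k l * f l := by
  simp only [u, map_add, map_smul, lf_b, smul_eq_mul]

theorem lf_kap (f : Fin (d + 1) → ℝ) (i j : Fin (d + 1)) (x y : ℝ) :
    F.lf f (F.kap i j x y) =
      (2 * y ^ 2 - 13 * x * y + 15 * x ^ 2 + 1000000 * (3 - x)) * f 0 +
      (5 * y ^ 2 - 5 * x * y + 1000000 * (3 - x)) * f i +
      (5 * x ^ 2 + 5 * x * y + 1000000 * (3 - x)) * f j +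
      (5 - x - y) * f (F.ca i j) + y * f (F.cb i j) + (x - 4) * f (F.cc i j) := by
  simp only [kap, map_add, map_smul, lf_b, smul_eq_mul]

open Classical in
/-- The vertices of the polytope. -/
noncomputable def verts : Finset (Amb d) :=
  ((Finset.univ : Finset (Fin (d + 1) × Fin (d + 1))).filter fun p => p.1 ≠ p.2).image
    (fun p => F.u p.1 p.2) ∪
  (((Finset.univ : Finset (Fin (d + 1) × Fin (d + 1))).filter fun p => 0 < p.1 ∧ p.1 < p.2) ×ˢ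
    (Finset.Icc (-2 : ℤ) 2 ×ˢ Finset.Icc (-5 : ℤ) 5)).image
    (fun p => F.kap p.1.1 p.1.2 p.2.1 p.2.2)

theorem mem_verts (v : Amb d) : v ∈ F.verts ↔ (∃ k l, k ≠ l ∧ v = F.u k l) ∨
    ∃ i j, ∃ x y : ℤ, 0 < i ∧ i < j ∧ inR x y ∧ v = F.kap i j x y := by
  classical
  simp only [verts, Finset.mem_union, Finset.mem_image, Finset.mem_filter, Finset.mem_univ,
    true_and, Finset.mem_product, Finset.mem_Icc, Prod.exists]
  constructor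
  · rintro (⟨k, l, h, rfl⟩ | ⟨i, j, x, y, ⟨⟨h1, h2⟩, ⟨h3, h4⟩, h5, h6⟩, rfl⟩)
    · exact Or.inl ⟨k, l, h, rfl⟩
    · exact Or.inr ⟨i, j, x, y, h1, h2, ⟨h3, h4, h5, h6⟩, rfl⟩
  · rintro (⟨k, l, h, rfl⟩ | ⟨i, j, x, y, h1, h2, ⟨h3, h4, h5, h6⟩, rfl⟩)
    · exact Or.inl ⟨k, l, h, rfl⟩
    · exact Or.inr ⟨i, j, x, y, ⟨⟨h1, h2⟩, ⟨h3, h4⟩, h5, h6⟩, rfl⟩

theorem u_mem {k l : Fin (d + 1)} (h : k ≠ l) : F.u k l ∈ F.verts :=
  (F.mem_verts _).2 (Or.inl ⟨k, l, h, rfl⟩)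

theorem kap_mem {i j : Fin (d + 1)} {x y : ℤ} (h1 : 0 < i) (h2 : i < j) (h3 : inR x y) :
    F.kap i j x y ∈ F.verts :=
  (F.mem_verts _).2 (Or.inr ⟨i, j, x, y, h1, h2, h3, rfl⟩)

end Frame

/-- The coefficient bounds for the functionals attached to the pair `i, j`. -/
def TB (i j : Fin (d + 1)) (f : Fin (d + 1) → ℝ) : Prop :=
  (∀ m, -20 ≤ f m) ∧ (∀ m, f m ≤ 20000000) ∧ ∀ m, m ≠ 0 → m ≠ i → m ≠ j → 50000 ≤ f m

theorem prod_lo {k f K : ℝ} (hk : 0 ≤ k) (hkK : k ≤ K) (hf : -20 ≤ f) : -20 * K ≤ k * f := by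
  nlinarith [mul_nonneg hk (by linarith : (0 : ℝ) ≤ f + 20)]

theorem prod_big {k f K : ℝ} (hk : K ≤ k) (hK : 0 ≤ K) (hf : 50000 ≤ f) : 50000 * K ≤ k * f := by
  nlinarith [mul_nonneg (by linarith : (0 : ℝ) ≤ k) (by linarith : (0 : ℝ) ≤ f - 50000)]

theorem prod_abs {k f K : ℝ} (hk : -K ≤ k) (hk' : k ≤ K) (hf : -20 ≤ f) (hf' : f ≤ 20000000) :
    -(K * 20000000) ≤ k * f := by
  have h1 : |k| ≤ K := abs_le.2 ⟨hk, hk'⟩
  have h2 : |f| ≤ 20000000 := abs_le.2 ⟨by linarith, hf'⟩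
  have h3 : |k * f| ≤ K * 20000000 := by
    rw [abs_mul]
    exact mul_le_mul h1 h2 (abs_nonneg _) ((abs_nonneg _).trans h1)
  exact (abs_le.1 h3).1

/-- Bounds for the three large coordinates. -/
theorem coord_bounds {x y : ℤ} (h : inR x y) :
    (999000 ≤ 2 * (y : ℝ) ^ 2 - 13 * x * y + 15 * x ^ 2 + 1000000 * (3 - x) ∧
      2 * (y : ℝ) ^ 2 - 13 * x * y + 15 * x ^ 2 + 1000000 * (3 - x) ≤ 5001000) ∧
    (999000 ≤ 5 * (y : ℝ) ^ 2 - 5 * x * y + 1000000 * (3 - x) ∧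
      5 * (y : ℝ) ^ 2 - 5 * x * y + 1000000 * (3 - x) ≤ 5001000) ∧
    (999000 ≤ 5 * (x : ℝ) ^ 2 + 5 * x * y + 1000000 * (3 - x) ∧
      5 * (x : ℝ) ^ 2 + 5 * x * y + 1000000 * (3 - x) ≤ 5001000) ∧
    (-12 ≤ (5 : ℝ) - x - y ∧ (5 : ℝ) - x - y ≤ 12) ∧ (-5 ≤ (y : ℝ) ∧ (y : ℝ) ≤ 5) ∧
    (-6 ≤ (x : ℝ) - 4 ∧ (x : ℝ) - 4 ≤ 6) := by
  obtain ⟨h1, h2, h3, h4⟩ := h
  have x1 : (-2 : ℝ) ≤ x := by exact_mod_cast h1
  have x2 : (x : ℝ) ≤ 2 := by exact_mod_cast h2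
  have y1 : (-5 : ℝ) ≤ y := by exact_mod_cast h3
  have y2 : (y : ℝ) ≤ 5 := by exact_mod_cast h4
  have xx : (x : ℝ) ^ 2 ≤ 4 := by nlinarith
  have yy : (y : ℝ) ^ 2 ≤ 25 := by nlinarith
  have xx0 : 0 ≤ (x : ℝ) ^ 2 := sq_nonneg _
  have yy0 : 0 ≤ (y : ℝ) ^ 2 := sq_nonneg _
  have xy1 : (x : ℝ) * y ≤ 29 / 2 := by nlinarith [sq_nonneg ((x : ℝ) - y)]
  have xy2 : -(29 / 2) ≤ (x : ℝ) * y := by nlinarith [sq_nonneg ((x : ℝ) + y)]
  refine ⟨⟨?_, ?_⟩, ⟨?_, ?_⟩, ⟨?_, ?_⟩, ⟨?_, ?_⟩, ⟨?_, ?_⟩, ⟨?_, ?_⟩⟩ <;> nlinarith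

theorem TB.other (F : Frame d) {i j : Fin (d + 1)} {f : Fin (d + 1) → ℝ} (h : TB i j f)
    {i' j' : Fin (d + 1)} (hi' : 0 < i') (hij' : i' < j')
    (hne : ¬ (i' = i ∧ j' = j)) (hij : i < j) {x y : ℤ} (hxy : inR x y) :
    0 < F.lf f (F.kap i' j' x y) := by
  obtain ⟨h1, h2, h3⟩ := h
  obtain ⟨⟨a1, a2⟩, ⟨b1, b2⟩, ⟨c1, c2⟩, ⟨e1, e2⟩, ⟨f1, f2⟩, g1, g2⟩ := coord_bounds hxy
  rw [F.lf_kap]
  have p1 := prod_lo (by linarith) a2 (h1 0)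
  have p2 := prod_lo (by linarith) b2 (h1 i')
  have p3 := prod_lo (by linarith) c2 (h1 j')
  have p4 := prod_abs e1 e2 (h1 (F.ca i' j')) (h2 (F.ca i' j'))
  have p5 := prod_abs f1 f2 (h1 (F.cb i' j')) (h2 (F.cb i' j'))
  have p6 := prod_abs g1 g2 (h1 (F.cc i' j')) (h2 (F.cc i' j'))
  have hi0 : i' ≠ 0 := hi'.ne'
  have hj0 : j' ≠ 0 := (hi'.trans hij').ne'
  by_cases k1 : i' = i ∨ i' = j
  · have k2 : j' ≠ i ∧ j' ≠ j := by
      rcases k1 with rfl | rfl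
      · exact ⟨hij'.ne', fun h => hne ⟨rfl, h⟩⟩
      · exact ⟨(hij.trans hij').ne', hij'.ne'⟩
    have := prod_big c1 (by norm_num) (h3 j' hj0 k2.1 k2.2)
    linarith
  · push Not at k1
    have := prod_big b1 (by norm_num) (h3 i' hi0 k1.1 k1.2)
    linarith

theorem TB.u_pos (F : Frame d) {i j : Fin (d + 1)} {f : Fin (d + 1) → ℝ} (h : TB i j f)
    {k l : Fin (d + 1)} (hne : ¬ ((k = 0 ∨ k = i ∨ k = j) ∧ (l = 0 ∨ l = i ∨ l = j))) :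
    0 < F.lf f (F.u k l) := by
  obtain ⟨h1, h2, h3⟩ := h
  rw [F.lf_u]
  have e1 := eps_lo k l
  have e2 := eps_hi k l
  have a1 := h1 k
  have a2 := h1 l
  by_cases hk : k = 0 ∨ k = i ∨ k = j
  · have hl : ¬ (l = 0 ∨ l = i ∨ l = j) := fun hl => hne ⟨hk, hl⟩
    push Not at hl
    have := h3 l hl.1 hl.2.1 hl.2.2
    nlinarith
  · push Not at hk
    have := h3 k hk.1 hk.2.1 hk.2.2
    nlinarith

end Pool.Agent.Helper101_Scrib
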