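import Pool.Agent.Helper101_Scrib.Frames

/-!
# The common frame, the Lorentz form and the contradiction
-/

namespace Pool.Agent.Helper101_Scrib

open Submodule

variable {d : ℕ}

namespace Frame

/-- Every realization of the polytope has its truncation vertices on a common frame. -/
theorem exists_common {F : Frame d} {X : Amb d → Amb d} (hX : Rz F.verts X) :
    ∃ e : Fin (d + 1) → Amb d, ∀ k l, k ≠ l → ∃ a : ℝ, 0 < a ∧
      e k + eps k l • e l = a • X (F.u k l) := by
  obtain ⟨h0, hz, hp⟩ := facet_fun hX (F := F) 0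
  -- claim 1
  have claim1 : ∀ i j k : Fin (d + 1), i ≠ 0 → j ≠ 0 → k ≠ 0 → i ≠ j → i ≠ k →
      ∀ e0 ei ej f0 fi fk, F.Fr X h0 i j e0 ei ej → F.Fr X h0 i k f0 fi fk → e0 = f0 := by
    intro i j k hi hj hk hij hik e0 ei ej f0 fi fk h h'
    by_cases hjk : j = k
    · subst hjk
      obtain ⟨g0, gi, gm, h''⟩ := exists_fr hX hz hp hi (F.ha0 i j) (F.hai i j).symm
      have r1 := Fr.eq_of_three hX hz hp hi hj (F.ha0 i j) hij (F.hai i j).symm (F.haj i j).symm h h''
      have r2 := Fr.eq_of_three hX hz hp hi hj (F.ha0 i j) hij (F.hai i j).symm (F.haj i j).symm h' h''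
      rw [r1, r2]
    · exact Fr.eq_of_three hX hz hp hi hj hk hij hik hjk h h'
  have claim2 : ∀ i j p r : Fin (d + 1), i ≠ 0 → j ≠ 0 → i ≠ j → p ≠ 0 → r ≠ 0 → p ≠ r →
      ∀ e0 ei ej f0 fi fk, F.Fr X h0 i j e0 ei ej → F.Fr X h0 p r f0 fi fk → e0 = f0 := by
    intro i j p r hi hj hij hp' hr hpr e0 ei ej f0 fi fk h h'
    by_cases hip : i = p
    · subst hip
      exact claim1 i j r hi hj hr hij hpr _ _ _ _ _ _ h h'
    · obtain ⟨g0, gi, gp, h''⟩ := exists_fr hX hz hp hi hp' hip
      rw [claim1 i j p hi hj hp' hij hip _ _ _ _ _ _ h h'']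
      exact claim1 p i r hp' hi hr (Ne.symm hip) hpr _ _ _ _ _ _ h''.symm h'
  -- the reference frame
  have hP : F.ca 0 0 ≠ 0 := F.ha0 0 0
  have hR : F.ca (F.ca 0 0) 0 ≠ 0 := F.ha0 _ _
  have hPR : F.ca 0 0 ≠ F.ca (F.ca 0 0) 0 := (F.hai _ _).symm
  obtain ⟨c0, c1, c2, hc⟩ := exists_fr hX hz hp hP hR hPR
  have key : ∀ i j : Fin (d + 1), i ≠ 0 → j ≠ 0 → i ≠ j → ∀ e0 ei ej,
      F.Fr X h0 i j e0 ei ej → e0 = c0 := by
    intro i j hi hj hij e0 ei ej h
    exact claim2 i j _ _ hi hj hij hP hR hPR _ _ _ _ _ _ h hc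
  let γ : Fin (d + 1) → Amb d := fun k =>
    ((13 / 5) / h0 (X (F.u k 0))) • X (F.u k 0) - (2 / 5 : ℝ) • c0
  have key2 : ∀ i j : Fin (d + 1), i ≠ 0 → j ≠ 0 → i ≠ j → ∀ e0 ei ej,
      F.Fr X h0 i j e0 ei ej → ei = γ i := by
    intro i j hi hj hij e0 ei ej h
    have r := h.coef hz hp hi
    rw [key i j hi hj hij _ _ _ h] at r
    exact eq_sub_of_add_eq r
  refine ⟨fun k => if k = 0 then c0 else γ k, ?_⟩
  intro k l hkl
  by_cases hk : k = 0
  · subst hk
    have hl : l ≠ 0 := hkl.symm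
    obtain ⟨e0, ei, ej, h⟩ := exists_fr hX hz hp hl (F.ha0 l l) (F.hai l l).symm
    have r1 := key _ _ hl (F.ha0 l l) (F.hai l l).symm _ _ _ h
    have r2 := key2 _ _ hl (F.ha0 l l) (F.hai l l).symm _ _ _ h
    obtain ⟨_, ⟨a, ha, ra⟩, _⟩ := h
    refine ⟨a, ha, ?_⟩
    simp only [if_true, if_neg hl]
    rw [eps_0, ← ra, r1, r2]
  · by_cases hl : l = 0
    · subst hl
      refine ⟨(13 / 5) / h0 (X (F.u k 0)), div_pos (by norm_num) (hp k 0 hk hk), ?_⟩
      simp only [if_true, if_neg hk]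
      rw [eps_l0 hk]
      simp only [γ]
      module
    · obtain ⟨e0, ei, ej, h⟩ := exists_fr hX hz hp hk hl hkl
      have r2 := key2 _ _ hk hl hkl _ _ _ h
      have r3 := key2 _ _ hl hk hkl.symm _ _ _ h.symm
      obtain ⟨_, _, _, _, _, ⟨a, ha, ra⟩, _⟩ := h
      refine ⟨a, ha, ?_⟩
      simp only [if_neg hk, if_neg hl]
      rw [eps_kl hk hl, ← ra, r2, r3]

end Frame

/-- The Lorentz form. -/
noncomputable def bil : Amb d →ₗ[ℝ] Amb d →ₗ[ℝ] ℝ :=
  LinearMap.mk₂ ℝ (fun x y => -(x 0 * y 0) + ∑ i : Fin d, x i.succ * y i.succ)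
    (by
      intro x x' y
      simp only [Pi.add_apply, add_mul, Finset.sum_add_distrib]
      ring)
    (by
      intro c x y
      simp only [Pi.smul_apply, smul_eq_mul, mul_add, Finset.mul_sum]
      congr 1
      · ring
      · exact Finset.sum_congr rfl fun i _ => by ring)
    (by
      intro x y y'
      simp only [Pi.add_apply, mul_add, Finset.sum_add_distrib]
      ring)
    (by
      intro c x y
      simp only [Pi.smul_apply, smul_eq_mul, mul_add, Finset.mul_sum]
      congr 1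
      · ring
      · exact Finset.sum_congr rfl fun i _ => by ring)

theorem bil_apply (x y : Amb d) :
    bil x y = -(x 0 * y 0) + ∑ i : Fin d, x i.succ * y i.succ := rfl

theorem bil_comm (x y : Amb d) : bil x y = bil y x := by
  rw [bil_apply, bil_apply, mul_comm (x 0)]
  congr 1
  exact Finset.sum_congr rfl fun i _ => mul_comm _ _

theorem bil_self (x : Amb d) : bil x x = -(x 0 ^ 2) + ∑ i : Fin d, x i.succ ^ 2 := by
  rw [bil_apply]
  simp only [sq]

/-- A functional that is nonnegative on the ball is nonnegative on the open forward cone. -/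
theorem nonneg_of_ball {l : Amb d →ₗ[ℝ] ℝ} (hl : ∀ x ∈ sphBall d, 0 ≤ l x) {z : Amb d}
    (h0 : 0 < z 0) (hz : bil z z < 0) : 0 ≤ l z := by
  rw [bil_self] at hz
  have hs : 0 < ∑ i, z i ^ 2 := by
    rw [Fin.sum_univ_succ]
    have h1 : 0 ≤ ∑ i : Fin d, z i.succ ^ 2 := Finset.sum_nonneg fun i _ => sq_nonneg _
    have h2 : 0 < z 0 ^ 2 := by positivity
    linarith
  set s := Real.sqrt (∑ i, z i ^ 2) with hsdef
  have hspos : 0 < s := Real.sqrt_pos.2 hs
  have hsq : s ^ 2 = ∑ i, z i ^ 2 := Real.sq_sqrt hs.le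
  have hmem : s⁻¹ • z ∈ sphBall d := by
    refine ⟨?_, ?_, ?_⟩
    · simp only [Pi.smul_apply, smul_eq_mul, mul_pow]
      rw [← Finset.mul_sum, ← hsq, ← mul_pow, inv_mul_cancel₀ hspos.ne', one_pow]
    · simp only [Pi.smul_apply, smul_eq_mul]
      positivity
    · simp only [Pi.smul_apply, smul_eq_mul, mul_pow]
      rw [← Finset.mul_sum]
      exact mul_le_mul_of_nonneg_left (by linarith) (by positivity)
  have h1 := hl _ hmem
  rw [map_smul, smul_eq_mul] at h1
  by_contra hcon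
  have : s⁻¹ * l z < 0 := mul_neg_of_pos_of_neg (inv_pos.2 hspos) (not_le.1 hcon)
  linarith

theorem lorentz_aux {l : Amb d →ₗ[ℝ] ℝ} (hne : l ≠ 0) (hl : ∀ x ∈ sphBall d, 0 ≤ l x)
    {x : Amb d} (h0 : 0 < x 0) (hx : bil x x < 0) (hlx : l x = 0) : False := by
  apply hne
  have hall : ∀ y : Amb d, l y = 0 := by
    intro y
    have c1 : ContinuousAt (fun t : ℝ => x 0 + t * y 0) 0 := by fun_prop
    have c2 : ContinuousAt (fun t : ℝ => bil x x + 2 * t * bil x y + t ^ 2 * bil y y) 0 := by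
      fun_prop
    have e1 : ∀ᶠ t : ℝ in nhds 0, 0 < x 0 + t * y 0 := by
      have := c1.eventually (lt_mem_nhds (by simpa using h0 : (0 : ℝ) < x 0 + 0 * y 0))
      exact this
    have e2 : ∀ᶠ t : ℝ in nhds 0, bil x x + 2 * t * bil x y + t ^ 2 * bil y y < 0 := by
      have := c2.eventually (gt_mem_nhds
        (by simpa using hx : bil x x + 2 * 0 * bil x y + 0 ^ 2 * bil y y < 0))
      exact this
    obtain ⟨ε, hε, hall⟩ := Metric.eventually_nhds_iff.1 (e1.and e2)
    have expand : ∀ t : ℝ, bil (x + t • y) (x + t • y) =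
        bil x x + 2 * t * bil x y + t ^ 2 * bil y y := by
      intro t
      simp only [map_add, LinearMap.add_apply, map_smul, LinearMap.smul_apply, smul_eq_mul]
      rw [bil_comm y x]
      ring
    have pos : ∀ t : ℝ, |t| < ε → 0 ≤ t * l y := by
      intro t ht
      obtain ⟨a1, a2⟩ := hall (y := t) (by rwa [Real.dist_eq, sub_zero])
      have := nonneg_of_ball hl (z := x + t • y) (by simpa using a1) (by rw [expand]; exact a2)
      rwa [map_add, map_smul, hlx, zero_add, smul_eq_mul] at this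
    have p1 := pos (ε / 2) (by rw [abs_of_pos (by positivity)]; linarith)
    have p2 := pos (-(ε / 2)) (by rw [abs_neg, abs_of_pos (by positivity)]; linarith)
    have : ε / 2 * l y = 0 := by linarith
    rcases mul_eq_zero.1 this with h | h
    · linarith
    · exact h
  exact LinearMap.ext hall

/-- On the kernel of a nonzero functional that is nonnegative on the ball, the Lorentz form is
nonnegative. -/
theorem lorentz {l : Amb d →ₗ[ℝ] ℝ} (hne : l ≠ 0) (hl : ∀ x ∈ sphBall d, 0 ≤ l x)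
    {x : Amb d} (hlx : l x = 0) : 0 ≤ bil x x := by
  by_contra hcon
  push Not at hcon
  have h1 : 0 ≤ ∑ i : Fin d, x i.succ ^ 2 := Finset.sum_nonneg fun i _ => sq_nonneg _
  have h2 := bil_self x
  have h3 : x 0 ≠ 0 := by
    intro h
    rw [h] at h2
    norm_num at h2
    linarith
  rcases lt_or_gt_of_ne h3 with h | h
  · refine lorentz_aux hne hl (x := -x) (by simpa using h) ?_ (by rw [map_neg, hlx, neg_zero])
    simpa using hcon
  · exact lorentz_aux hne hl h hcon hlx

theorem bil_le_of_ball {x : Amb d} (hx : x ∈ sphBall d) : bil x x ≤ 0 := by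
  rw [bil_self]
  linarith [hx.2.2]

theorem ne_zero_of_ball {x : Amb d} (hx : x ∈ sphBall d) : x ≠ 0 := by
  rintro rfl
  have := hx.1
  simp at this

/-- The final contradiction. -/
theorem contradiction_of_frame {e : Fin (d + 1) → Amb d}
    (hpair : ∀ k l, k ≠ l → ∀ s t : ℝ, 0 ≤ bil (s • e k + t • e l) (s • e k + t • e l))
    (hcut : ∀ k, ∃ x : Amb d, x ≠ 0 ∧ bil x x ≤ 0 ∧ ∃ W : ℝ, ∃ t : Fin (d + 1) → ℝ,
      0 ≤ W ∧ (∀ l, 0 ≤ t l) ∧ ∑ l, t l ≤ (2 / 5) * W ∧ x = W • e k + ∑ l, t l • e l)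
    {a b : Amb d} (ha : a ∈ span ℝ (Set.range e)) (hb : b ∈ span ℝ (Set.range e))
    (hab : ∀ s t : ℝ, s • a + t • b = 0 → s = 0 ∧ t = 0) (hd : 1 ≤ d) : False := by
  classical
  obtain ⟨m, _, hm⟩ := Finset.exists_max_image (Finset.univ : Finset (Fin (d + 1)))
    (fun k => bil (e k) (e k)) ⟨0, Finset.mem_univ 0⟩
  have hm' : ∀ k, bil (e k) (e k) ≤ bil (e m) (e m) := fun k => hm k (Finset.mem_univ k)
  have other : ∀ k : Fin (d + 1), ∃ l : Fin (d + 1), k ≠ l := by
    intro k
    have : Nontrivial (Fin (d + 1)) := Fin.nontrivial_iff_two_le.2 (by omega)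
    obtain ⟨l, hl⟩ := exists_ne k
    exact ⟨l, hl.symm⟩
  have hnn : ∀ k, 0 ≤ bil (e k) (e k) := by
    intro k
    obtain ⟨l, hl⟩ := other k
    have := hpair k l hl 1 0
    simpa using this
  obtain ⟨M, hM⟩ : ∃ M, M = bil (e m) (e m) := ⟨_, rfl⟩
  have habs : ∀ k l, |bil (e k) (e l)| ≤ M := by
    intro k l
    by_cases hkl : k = l
    · subst hkl
      rw [abs_of_nonneg (hnn k), hM]
      exact hm' k
    · have h1 := hpair k l hkl 1 1
      have h2 := hpair k l hkl 1 (-1)
      simp only [map_add, LinearMap.add_apply, map_smul, LinearMap.smul_apply, smul_eq_mul] at h1 h2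
      rw [bil_comm (e l) (e k)] at h1 h2
      have h3 := hm' k
      have h4 := hm' l
      rw [abs_le, hM]
      constructor <;> linarith
  have hM0 : 0 ≤ M := by rw [hM]; exact hnn m
  -- estimate for combinations
  have hsum : ∀ (t : Fin (d + 1) → ℝ) (z : Amb d) (N : ℝ), (∀ l, 0 ≤ t l) →
      (∀ l, |bil z (e l)| ≤ N) → |bil z (∑ l, t l • e l)| ≤ (∑ l, t l) * N := by
    intro t z N ht hz
    rw [map_sum, Finset.sum_mul]
    refine (Finset.abs_sum_le_sum_abs _ _).trans (Finset.sum_le_sum fun l _ => ?_)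
    rw [map_smul, smul_eq_mul, abs_mul, abs_of_nonneg (ht l)]
    exact mul_le_mul_of_nonneg_left (hz l) (ht l)
  have hMz : M = 0 := by
    obtain ⟨x, hx0, hxx, W, t, hW, ht, hts, hx⟩ := hcut m
    have hWpos : 0 < W := by
      refine lt_of_le_of_ne hW (fun h => hx0 ?_)
      rw [← h, mul_zero] at hts
      have h1 : ∑ l, t l = 0 := le_antisymm hts (Finset.sum_nonneg fun l _ => ht l)
      rw [Finset.sum_eq_zero_iff_of_nonneg (fun l _ => ht l)] at h1
      rw [hx, ← h, zero_smul, zero_add]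
      apply Finset.sum_eq_zero
      intro l hl
      rw [h1 l hl, zero_smul]
    set y := ∑ l, t l • e l with hy
    have hT0 : 0 ≤ ∑ l, t l := Finset.sum_nonneg fun l _ => ht l
    have b1 : ∀ k, |bil (e k) y| ≤ (2 / 5) * W * M := by
      intro k
      refine (hsum t (e k) M ht (habs k)).trans ?_
      exact mul_le_mul_of_nonneg_right hts hM0
    have b2 : |bil y y| ≤ (2 / 5) * W * ((2 / 5) * W * M) := by
      have h1 : ∀ l, |bil y (e l)| ≤ (2 / 5) * W * M := by
        intro l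
        rw [bil_comm]
        exact b1 l
      refine (hsum t y _ ht h1).trans ?_
      exact mul_le_mul_of_nonneg_right hts (by positivity)
    have b3 : bil x x = W ^ 2 * M + 2 * W * bil (e m) y + bil y y := by
      rw [hx, hM]
      simp only [map_add, LinearMap.add_apply, map_smul, LinearMap.smul_apply, smul_eq_mul]
      rw [bil_comm y (e m)]
      ring
    have b4 := (abs_le.1 (b1 m)).1
    have b5 := (abs_le.1 b2).1
    have b6 : W * (-((2 / 5) * W * M)) ≤ W * bil (e m) y := mul_le_mul_of_nonneg_left b4 hW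
    have b7 : W ^ 2 * M ≤ 0 := by nlinarith
    have b8 : 0 < W ^ 2 := by positivity
    by_contra hne
    have hMpos : 0 < M := lt_of_le_of_ne hM0 (Ne.symm hne)
    have := mul_pos b8 hMpos
    linarith
  -- the form vanishes on the span
  have hzero : ∀ k l, bil (e k) (e l) = 0 := by
    intro k l
    have := habs k l
    rw [hMz] at this
    exact abs_eq_zero.1 (le_antisymm this (abs_nonneg _))
  have hspan : ∀ z ∈ span ℝ (Set.range e), bil z z = 0 := by
    intro z hz
    have h1 : ∀ k, bil z (e k) = 0 := by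
      intro k
      have : span ℝ (Set.range e) ≤ LinearMap.ker (bil (e k)) := by
        rw [Submodule.span_le]
        rintro _ ⟨l, rfl⟩
        exact hzero k l
      rw [bil_comm]
      exact this hz
    have : span ℝ (Set.range e) ≤ LinearMap.ker (bil z) := by
      rw [Submodule.span_le]
      rintro _ ⟨l, rfl⟩
      exact h1 l
    exact this hz
  have hnull : ∀ z ∈ span ℝ (Set.range e), z 0 = 0 → z = 0 := by
    intro z hz hz0
    have h1 := hspan z hz
    rw [bil_self, hz0] at h1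
    have h2 : ∑ i : Fin d, z i.succ ^ 2 = 0 := by
      have : (-(0 : ℝ) ^ 2) = 0 := by norm_num
      linarith
    rw [Finset.sum_eq_zero_iff_of_nonneg (fun i _ => sq_nonneg _)] at h2
    ext i
    refine Fin.cases hz0 (fun j => ?_) i
    exact pow_eq_zero_iff (two_ne_zero) |>.1 (h2 j (Finset.mem_univ j))
  have hz := hnull (b 0 • a + (-(a 0)) • b)
    (Submodule.add_mem _ (Submodule.smul_mem _ _ ha) (Submodule.smul_mem _ _ hb))
    (by simp only [Pi.add_apply, Pi.smul_apply, smul_eq_mul]; ring)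
  obtain ⟨h1, h2⟩ := hab _ _ hz
  have ha0 := hnull a ha (by linarith)
  have := hab 1 0 (by rw [ha0]; simp)
  exact one_ne_zero this.1

end Pool.Agent.Helper101_Scrib
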