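import Pool.Agent.Helper101_Scrib.Defs

/-!
# Elementary theory of faces of finitely generated cones
-/

namespace Pool.Agent.Helper101_Scrib

open Submodule

variable {d : ℕ}

theorem IsFace.subset {K F : Set (Amb d)} (h : IsFace K F) : F ⊆ K := by
  obtain ⟨l, _, rfl⟩ := h
  exact fun x hx => hx.1

theorem IsFace.self (K : Set (Amb d)) : IsFace K K :=
  ⟨0, fun _ _ => le_rfl, by ext x; simp⟩

theorem IsFace.inter {K F G : Set (Amb d)} (hF : IsFace K F) (hG : IsFace K G) :
    IsFace K (F ∩ G) := by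
  obtain ⟨l, hl, rfl⟩ := hF
  obtain ⟨m, hm, rfl⟩ := hG
  refine ⟨l + m, fun x hx => add_nonneg (hl x hx) (hm x hx), ?_⟩
  ext x
  simp only [Set.mem_inter_iff, Set.mem_ofPred_eq, LinearMap.add_apply]
  constructor
  · rintro ⟨⟨h1, h2⟩, _, h3⟩
    exact ⟨h1, by rw [h2, h3, add_zero]⟩
  · rintro ⟨h1, h2⟩
    have a := hl x h1
    have b := hm x h1
    exact ⟨⟨h1, by linarith⟩, h1, by linarith⟩

theorem linDim_mono {A B : Set (Amb d)} (h : A ⊆ B) : linDim A ≤ linDim B :=
  Submodule.finrank_mono (Submodule.span_mono h)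

/-- A face is cut out by its linear span. -/
theorem IsFace.mem_of_mem_span {K F : Set (Amb d)} (hF : IsFace K F) {x : Amb d}
    (hx : x ∈ K) (hs : x ∈ span ℝ F) : x ∈ F := by
  obtain ⟨l, hl, rfl⟩ := hF
  refine ⟨hx, ?_⟩
  have : span ℝ {x | x ∈ K ∧ l x = 0} ≤ LinearMap.ker l := by
    rw [Submodule.span_le]
    intro y hy
    exact hy.2
  exact this hs

/-- The dimension is strictly monotone on faces. -/
theorem linDim_lt {K F G : Set (Amb d)} (hF : IsFace K F) (hG : G ⊆ K) (h : F ⊂ G) :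
    linDim F < linDim G := by
  have hle : span ℝ F ≤ span ℝ G := Submodule.span_mono h.1
  apply Submodule.finrank_lt_finrank_of_lt
  refine lt_of_le_of_ne hle ?_
  intro heq
  apply h.2
  intro x hx
  apply hF.mem_of_mem_span (hG hx)
  rw [heq]
  exact Submodule.subset_span hx

/-- Absorbing a functional: adding a large multiple of the functional exposing a face. -/
theorem exists_absorb {s : Set (Amb d)} (hs : s.Finite) (l m : Amb d →ₗ[ℝ] ℝ)
    (hl : ∀ x ∈ s, 0 ≤ l x) :
    ∃ M : ℝ, 0 < M ∧ ∀ x ∈ s, l x ≠ 0 → 0 < m x + M * l x := by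
  have hfin : ((fun x => |m x| / l x) '' s).Finite := hs.image _
  obtain ⟨M0, hM0⟩ := hfin.bddAbove
  refine ⟨max M0 0 + 1, by positivity, ?_⟩
  intro x hx hne
  have hpos : 0 < l x := lt_of_le_of_ne (hl x hx) (Ne.symm hne)
  have h1 : |m x| / l x ≤ M0 := hM0 ⟨x, hx, rfl⟩
  have h2 : |m x| / l x < max M0 0 + 1 := by
    have := le_max_left M0 0
    linarith
  rw [div_lt_iff₀ hpos] at h2
  have := neg_abs_le (m x)
  linarith

/-- The gap lemma: a nonempty face of a finite set has a face of dimension one less. -/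
theorem exists_facet {s : Set (Amb d)} (hs : s.Finite) (hbot : IsFace s ∅)
    {S : Set (Amb d)} (hS : IsFace s S) (hne : S.Nonempty) :
    ∃ T, IsFace s T ∧ T ⊂ S ∧ linDim T + 1 = linDim S := by
  classical
  have hSs : S ⊆ s := hS.subset
  have hfin : {T | IsFace s T ∧ T ⊂ S}.Finite := by
    apply (hs.finite_subsets).subset
    intro T hT
    exact hT.1.subset
  obtain ⟨T, hT, hmax⟩ := Set.exists_max_image {T | IsFace s T ∧ T ⊂ S} linDim hfin
    ⟨∅, hbot, by
      rw [Set.ssubset_def]
      refine ⟨Set.empty_subset _, fun h => ?_⟩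
      obtain ⟨x, hx⟩ := hne
      exact h hx⟩
  refine ⟨T, hT.1, hT.2, ?_⟩
  have hlt : linDim T < linDim S := linDim_lt hT.1 hSs hT.2
  by_contra hcon
  have hgap : linDim T + 1 < linDim S := by omega
  -- choose `x ∈ S \ T`
  obtain ⟨x, hxS, hxT⟩ := Set.exists_of_ssubset hT.2
  -- the span of `T` and `x`
  have hW : Module.finrank ℝ (span ℝ (insert x T)) ≤ linDim T + 1 := by
    have : span ℝ (insert x T) = span ℝ {x} ⊔ span ℝ T := by
      rw [Set.insert_eq, Submodule.span_union]
    rw [this]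
    refine (Submodule.finrank_add_le_finrank_add_finrank _ _).trans ?_
    have h1 : Module.finrank ℝ (span ℝ ({x} : Set (Amb d))) ≤ 1 := by
      have := finrank_span_le_card (R := ℝ) ({x} : Set (Amb d))
      simpa using this
    have h2 : Module.finrank ℝ (span ℝ T) = linDim T := rfl
    omega
  -- choose `y ∈ S` outside
  have hy : ∃ y ∈ S, y ∉ span ℝ (insert x T) := by
    by_contra hno
    push Not at hno
    have : span ℝ S ≤ span ℝ (insert x T) := Submodule.span_le.2 hno
    have := Submodule.finrank_mono this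
    have h2 : Module.finrank ℝ (span ℝ S) = linDim S := rfl
    omega
  obtain ⟨y, hyS, hyW⟩ := hy
  obtain ⟨m0, hm0y, hm0W⟩ := Submodule.exists_le_ker_of_notMem hyW
  -- make `m y > 0`
  obtain ⟨m, hmy, hmW⟩ : ∃ m : Amb d →ₗ[ℝ] ℝ, 0 < m y ∧ span ℝ (insert x T) ≤ LinearMap.ker m := by
    refine ⟨(m0 y) • m0, ?_, ?_⟩
    · simp only [LinearMap.smul_apply, smul_eq_mul]
      exact mul_self_pos.2 hm0y
    · intro z hz
      have := hm0W hz
      rw [LinearMap.mem_ker] at this ⊢
      simp [this]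
  have hmT : ∀ z ∈ T, m z = 0 := fun z hz =>
    hmW (Submodule.subset_span (Set.mem_insert_of_mem _ hz))
  have hmx : m x = 0 := hmW (Submodule.subset_span (Set.mem_insert _ _))
  obtain ⟨⟨l, hl, hTl⟩, hTS⟩ := hT
  obtain ⟨lS, hlS, hSlS⟩ := hS
  have hlpos : ∀ z ∈ s, z ∉ T → 0 < l z := by
    intro z hz hzT
    refine lt_of_le_of_ne (hl z hz) (fun h => hzT ?_)
    rw [hTl]
    exact ⟨hz, h.symm⟩
  have hlT : ∀ z ∈ T, l z = 0 := by
    intro z hz
    rw [hTl] at hz
    exact hz.2
  -- the minimal ratio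
  have hJfin : {z | z ∈ S ∧ 0 < m z}.Finite := hs.subset fun z hz => hSs hz.1
  obtain ⟨v, hv, hvmin⟩ := Set.exists_min_image {z | z ∈ S ∧ 0 < m z} (fun z => l z / m z) hJfin
    ⟨y, hyS, hmy⟩
  have hvT : v ∉ T := fun h => by
    have := hmT v h
    have := hv.2
    linarith
  set t : ℝ := l v / m v with ht
  have htpos : 0 < t := div_pos (hlpos v (hSs hv.1) hvT) hv.2
  have hnonneg : ∀ z ∈ S, 0 ≤ l z - t * m z := by
    intro z hz
    by_cases h : 0 < m z
    · have := hvmin z ⟨hz, h⟩
      rw [le_div_iff₀ h] at this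
      linarith
    · have h1 := hl z (hSs hz)
      have h2 : t * m z ≤ 0 := mul_nonpos_of_nonneg_of_nonpos htpos.le (not_lt.1 h)
      linarith
  obtain ⟨M, hM, hMpos⟩ := exists_absorb hs lS (l - t • m) hlS
  -- the new face
  have hface : IsFace s {z | z ∈ S ∧ l z - t * m z = 0} := by
    refine ⟨(l - t • m) + M • lS, ?_, ?_⟩
    · intro z hz
      by_cases h : lS z = 0
      · have hzS : z ∈ S := by rw [hSlS]; exact ⟨hz, h⟩
        have := hnonneg z hzS
        simp only [LinearMap.add_apply, LinearMap.sub_apply, LinearMap.smul_apply, smul_eq_mul, h]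
        linarith
      · have := hMpos z hz h
        simp only [LinearMap.add_apply, LinearMap.sub_apply, LinearMap.smul_apply,
          smul_eq_mul] at this ⊢
        exact this.le
    · ext z
      simp only [Set.mem_ofPred_eq, LinearMap.add_apply, LinearMap.sub_apply, LinearMap.smul_apply,
        smul_eq_mul]
      constructor
      · rintro ⟨hz, h0⟩
        have hz' := hz
        rw [hSlS] at hz'
        refine ⟨hz'.1, ?_⟩
        rw [h0, hz'.2]
        ring
      · rintro ⟨hz, h0⟩
        by_cases h : lS z = 0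
        · have hzS : z ∈ S := by rw [hSlS]; exact ⟨hz, h⟩
          refine ⟨hzS, ?_⟩
          rw [h] at h0
          linarith
        · exfalso
          have := hMpos z hz h
          simp only [LinearMap.sub_apply, LinearMap.smul_apply, smul_eq_mul] at this
          linarith
  have hsub : {z | z ∈ S ∧ l z - t * m z = 0} ⊂ S := by
    rw [Set.ssubset_def]
    refine ⟨fun z hz => hz.1, fun h => ?_⟩
    have := (h hxS).2
    rw [hmx] at this
    have := hlpos x (hSs hxS) hxT
    linarith
  have hsub2 : T ⊂ {z | z ∈ S ∧ l z - t * m z = 0} := by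
    rw [Set.ssubset_def]
    refine ⟨fun z hz => ⟨hTS.1 hz, ?_⟩, fun h => ?_⟩
    · rw [hlT z hz, hmT z hz]; ring
    · apply hvT
      apply h
      refine ⟨hv.1, ?_⟩
      have : m v ≠ 0 := ne_of_gt hv.2
      rw [ht]
      field_simp
      ring
  have hfin1 : IsFace s T := ⟨l, hl, hTl⟩
  have h1 : linDim T < linDim {z | z ∈ S ∧ l z - t * m z = 0} :=
    linDim_lt hfin1 hface.subset hsub2
  have h2 := hmax _ ⟨hface, hsub⟩
  omega

end Pool.Agent.Helper101_Scrib
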