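import Mathlib

/-!
# The projective part of the rigidity argument
-/

namespace Pool.Agent.Helper101_Scrib

/-- The lattice rectangle. -/
def inR (x y : ℤ) : Prop := -2 ≤ x ∧ x ≤ 2 ∧ -5 ≤ y ∧ y ≤ 5

/-- Three distinct lattice points of the rectangle on a row, column or diagonal. -/
def Col (x1 y1 x2 y2 x3 y3 : ℤ) : Prop :=
  inR x1 y1 ∧ inR x2 y2 ∧ inR x3 y3 ∧ ¬ (x1 = x2 ∧ y1 = y2) ∧ ¬ (x1 = x3 ∧ y1 = y3) ∧
  ¬ (x2 = x3 ∧ y2 = y3) ∧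
  ((y1 = y2 ∧ y2 = y3) ∨ (x1 = x2 ∧ x2 = x3) ∨ (y1 - x1 = y2 - x2 ∧ y2 - x2 = y3 - x3) ∨
    (x1 + y1 = x2 + y2 ∧ x2 + y2 = x3 + y3))

/-- A linear relation with nonzero coefficients. -/
def L3 (u v w : ℝ × ℝ × ℝ) : Prop :=
  ∃ x y z : ℝ, x ≠ 0 ∧ y ≠ 0 ∧ z ≠ 0 ∧ x * u.1 + y * v.1 + z * w.1 = 0 ∧
    x * u.2.1 + y * v.2.1 + z * w.2.1 = 0 ∧ x * u.2.2 + y * v.2.2 + z * w.2.2 = 0

/-- `v` is a nonzero multiple of `(a, b, c)`. -/
def Pr (v : ℝ × ℝ × ℝ) (a b c : ℝ) : Prop :=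
  ∃ t : ℝ, t ≠ 0 ∧ v.1 = t * a ∧ v.2.1 = t * b ∧ v.2.2 = t * c

theorem third {u v w : ℝ × ℝ × ℝ} {a1 a2 a3 b1 b2 b3 : ℝ} (h : L3 u v w) (hu : Pr u a1 a2 a3)
    (hv : Pr v b1 b2 b3) :
    ∃ α β : ℝ, α ≠ 0 ∧ β ≠ 0 ∧ w.1 = α * a1 + β * b1 ∧ w.2.1 = α * a2 + β * b2 ∧
      w.2.2 = α * a3 + β * b3 := by
  obtain ⟨x, y, z, hx, hy, hz, e1, e2, e3⟩ := h
  obtain ⟨t, ht, t1, t2, t3⟩ := hu
  obtain ⟨s, hs, s1, s2, s3⟩ := hv
  rw [t1, s1] at e1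
  rw [t2, s2] at e2
  rw [t3, s3] at e3
  refine ⟨-(x * t / z), -(y * s / z), ?_, ?_, ?_, ?_, ?_⟩
  · exact neg_ne_zero.2 (div_ne_zero (mul_ne_zero hx ht) hz)
  · exact neg_ne_zero.2 (div_ne_zero (mul_ne_zero hy hs) hz)
  · field_simp
    linear_combination e1
  · field_simp
    linear_combination e2
  · field_simp
    linear_combination e3

theorem step_p {qm1 q11 qmm q1m q00 q01 q0m : ℝ × ℝ × ℝ}
    (h1 : Pr qm1 (-1) 1 1) (h2 : Pr q11 1 1 1) (h3 : Pr qmm (-1) (-1) 1)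
    (h4 : Pr q1m 1 (-1) 1) (h0 : Pr q00 0 0 1)
    (l1 : L3 qm1 q11 q01) (l2 : L3 qmm q1m q0m) (l3 : L3 q01 q0m q00) :
    ∃ p : ℝ, p ≠ 1 ∧ p ≠ -1 ∧ Pr q01 p 1 1 ∧ Pr q0m (-p) (-1) 1 := by
  obtain ⟨α, β, hα, hβ, a1, a2, a3⟩ := third l1 h1 h2
  obtain ⟨γ, δ, hγ, hδ, b1, b2, b3⟩ := third l2 h3 h4
  obtain ⟨x, y, z, hx, hy, hz, e1, e2, e3⟩ := l3
  obtain ⟨t, ht, t1, t2, t3⟩ := h0
  rw [a1, b1, t1] at e1
  rw [a2, b2, t2] at e2
  rw [a3, b3, t3] at e3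
  have hs : α + β ≠ 0 := by
    intro hs
    have h5 : y * (γ + δ) = 0 := by linear_combination x * hs - e2
    have h6 : z * t = 0 := by linear_combination e3 - x * hs - h5
    rcases mul_eq_zero.1 h6 with h | h
    · exact hz h
    · exact ht h
  have hs' : γ + δ ≠ 0 := by
    intro hs'
    have h5 : x * (α + β) = 0 := by linear_combination e2 + y * hs'
    rcases mul_eq_zero.1 h5 with h | h
    · exact hx h
    · exact hs h
  refine ⟨(β - α) / (α + β), ?_, ?_, ⟨α + β, hs, ?_, ?_, ?_⟩, ⟨γ + δ, hs', ?_, ?_, ?_⟩⟩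
  · intro h
    rw [div_eq_iff hs] at h
    apply hα
    linarith
  · intro h
    rw [div_eq_iff hs] at h
    apply hβ
    linarith
  · rw [a1]
    field_simp
    ring
  · rw [a2]; ring
  · rw [a3]; ring
  · rw [b1]
    field_simp
    -- (δ - γ)(α+β) = -(γ+δ)(β-α); from x(β-α)+y(δ-γ)=0, x(α+β)=y(γ+δ)
    have h7 : y * ((δ - γ) * (α + β) + (γ + δ) * (β - α)) = 0 := by
      linear_combination (α + β) * e1 - (β - α) * e2
    have h8 := (mul_eq_zero.1 h7).resolve_left hy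
    linear_combination h8
  · rw [b2]; ring
  · rw [b3]; ring

theorem step_r {qm1 q11 qmm q1m q00 q10 qm0 : ℝ × ℝ × ℝ}
    (h1 : Pr qm1 (-1) 1 1) (h2 : Pr q11 1 1 1) (h3 : Pr qmm (-1) (-1) 1)
    (h4 : Pr q1m 1 (-1) 1) (h0 : Pr q00 0 0 1)
    (l1 : L3 q1m q11 q10) (l2 : L3 qmm qm1 qm0) (l3 : L3 q10 qm0 q00) :
    ∃ r : ℝ, r ≠ 1 ∧ r ≠ -1 ∧ Pr q10 1 r 1 ∧ Pr qm0 (-1) (-r) 1 := by
  obtain ⟨α, β, hα, hβ, a1, a2, a3⟩ := third l1 h4 h2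
  obtain ⟨γ, δ, hγ, hδ, b1, b2, b3⟩ := third l2 h3 h1
  obtain ⟨x, y, z, hx, hy, hz, e1, e2, e3⟩ := l3
  obtain ⟨t, ht, t1, t2, t3⟩ := h0
  rw [a1, b1, t1] at e1
  rw [a2, b2, t2] at e2
  rw [a3, b3, t3] at e3
  have hs : α + β ≠ 0 := by
    intro hs
    have h5 : y * (γ + δ) = 0 := by linear_combination x * hs - e1
    have h6 : z * t = 0 := by linear_combination e3 - x * hs - h5
    rcases mul_eq_zero.1 h6 with h | h
    · exact hz h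
    · exact ht h
  have hs' : γ + δ ≠ 0 := by
    intro hs'
    have h5 : x * (α + β) = 0 := by linear_combination e1 + y * hs'
    rcases mul_eq_zero.1 h5 with h | h
    · exact hx h
    · exact hs h
  refine ⟨(β - α) / (α + β), ?_, ?_, ⟨α + β, hs, ?_, ?_, ?_⟩, ⟨γ + δ, hs', ?_, ?_, ?_⟩⟩
  · intro h
    rw [div_eq_iff hs] at h
    apply hα
    linarith
  · intro h
    rw [div_eq_iff hs] at h
    apply hβ
    linarith
  · rw [a1]; ring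
  · rw [a2]
    field_simp
    ring
  · rw [a3]; ring
  · rw [b1]; ring
  · rw [b2]
    field_simp
    have h7 : y * ((δ - γ) * (α + β) + (γ + δ) * (β - α)) = 0 := by
      linear_combination (α + β) * e2 - (β - α) * e1
    have h8 := (mul_eq_zero.1 h7).resolve_left hy
    linear_combination h8
  · rw [b3]; ring

theorem step_21 {p r : ℝ} {q01 q11 q0m q10 w : ℝ × ℝ × ℝ} (hp : p ≠ 1)
    (h1 : Pr q01 p 1 1) (h2 : Pr q11 1 1 1) (h3 : Pr q0m (-p) (-1) 1) (h4 : Pr q10 1 r 1)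
    (l1 : L3 q01 q11 w) (l2 : L3 q0m q10 w) :
    Pr w (2 + p * (1 - r)) (1 + r) (1 + r) ∧ p * r ≠ 1 := by
  obtain ⟨α, β, hα, hβ, a1, a2, a3⟩ := third l1 h1 h2
  obtain ⟨γ, δ, hγ, hδ, b1, b2, b3⟩ := third l2 h3 h4
  have h : 2 * γ = δ * (r - 1) := by linear_combination b2 - b3 - a2 + a3
  have c1 : w.1 = δ / 2 * (2 + p * (1 - r)) := by linear_combination b1 - (p / 2) * h
  have c2 : w.2.1 = δ / 2 * (1 + r) := by linear_combination b2 - (1 / 2) * h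
  have c3 : w.2.2 = δ / 2 * (1 + r) := by linear_combination b3 + (1 / 2) * h
  refine ⟨⟨δ / 2, div_ne_zero hδ two_ne_zero, c1, c2, c3⟩, ?_⟩
  intro hpr
  have h5 : β * (1 - p) = 0 := by
    linear_combination -a1 + p * a2 + c1 - p * c2 - δ * hpr
  rcases mul_eq_zero.1 h5 with h6 | h6
  · exact hβ h6
  · exact hp (by linarith)

theorem step_2m {p r : ℝ} {q0m q1m q01 q10 w : ℝ × ℝ × ℝ}
    (h1 : Pr q0m (-p) (-1) 1) (h2 : Pr q1m 1 (-1) 1) (h3 : Pr q01 p 1 1) (h4 : Pr q10 1 r 1)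
    (l1 : L3 q0m q1m w) (l2 : L3 q01 q10 w) :
    Pr w (2 - p * (1 + r)) (r - 1) (1 - r) := by
  obtain ⟨α, β, hα, hβ, a1, a2, a3⟩ := third l1 h1 h2
  obtain ⟨γ, δ, hγ, hδ, b1, b2, b3⟩ := third l2 h3 h4
  have h : 2 * γ = -(δ * (1 + r)) := by linear_combination a2 + a3 - b2 - b3
  refine ⟨δ / 2, div_ne_zero hδ two_ne_zero, ?_, ?_, ?_⟩
  · linear_combination b1 + (p / 2) * h
  · linear_combination b2 + (1 / 2) * h
  · linear_combination b3 + (1 / 2) * h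

theorem step_12 {p r : ℝ} {q10 q11 qm0 q01 w : ℝ × ℝ × ℝ}
    (h1 : Pr q10 1 r 1) (h2 : Pr q11 1 1 1) (h3 : Pr qm0 (-1) (-r) 1) (h4 : Pr q01 p 1 1)
    (l1 : L3 q10 q11 w) (l2 : L3 qm0 q01 w) :
    Pr w (1 + p) (2 + r * (1 - p)) (1 + p) := by
  obtain ⟨α, β, hα, hβ, a1, a2, a3⟩ := third l1 h1 h2
  obtain ⟨γ, δ, hγ, hδ, b1, b2, b3⟩ := third l2 h3 h4
  have h : 2 * γ = δ * (p - 1) := by linear_combination b1 - b3 - a1 + a3
  refine ⟨δ / 2, div_ne_zero hδ two_ne_zero, ?_, ?_, ?_⟩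
  · linear_combination b1 - (1 / 2) * h
  · linear_combination b2 - (r / 2) * h
  · linear_combination b3 + (1 / 2) * h

theorem step_m2 {p r : ℝ} {qm0 qm1 q10 q01 w : ℝ × ℝ × ℝ}
    (h1 : Pr qm0 (-1) (-r) 1) (h2 : Pr qm1 (-1) 1 1) (h3 : Pr q10 1 r 1) (h4 : Pr q01 p 1 1)
    (l1 : L3 qm0 qm1 w) (l2 : L3 q10 q01 w) :
    Pr w (p - 1) (2 - r * (1 + p)) (1 - p) := by
  obtain ⟨α, β, hα, hβ, a1, a2, a3⟩ := third l1 h1 h2
  obtain ⟨γ, δ, hγ, hδ, b1, b2, b3⟩ := third l2 h3 h4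
  have h : 2 * γ = -(δ * (1 + p)) := by linear_combination a1 + a3 - b1 - b3
  refine ⟨δ / 2, div_ne_zero hδ two_ne_zero, ?_, ?_, ?_⟩
  · linear_combination b1 + (1 / 2) * h
  · linear_combination b2 + (r / 2) * h
  · linear_combination b3 + (1 / 2) * h

theorem step_20 {p r : ℝ} {q00 q10 q21 q2m w : ℝ × ℝ × ℝ} (hr' : r ≠ -1)
    (hpr : p * r ≠ 1)
    (h1 : Pr q00 0 0 1) (h2 : Pr q10 1 r 1) (h3 : Pr q21 (2 + p * (1 - r)) (1 + r) (1 + r))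
    (h4 : Pr q2m (2 - p * (1 + r)) (r - 1) (1 - r))
    (l1 : L3 q00 q10 w) (l2 : L3 q21 q2m w) :
    Pr w 2 (2 * r) (1 + r ^ 2) := by
  obtain ⟨α, β, hα, hβ, a1, a2, a3⟩ := third l1 h1 h2
  obtain ⟨γ, δ, hγ, hδ, b1, b2, b3⟩ := third l2 h3 h4
  have hr1 : 1 + r ≠ 0 := fun h => hr' (by linarith)
  have h5 : (1 - p * r) * (γ * (1 - r) - δ * (1 + r)) = 0 := by
    linear_combination -b2 + r * b1 + a2 - r * a1
  have h6 : γ * (1 - r) - δ * (1 + r) = 0 := by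
    rcases mul_eq_zero.1 h5 with h | h
    · exact absurd (by linarith) hpr
    · exact h
  obtain ⟨κ, hκ⟩ : ∃ κ, γ = κ * (1 + r) := ⟨γ / (1 + r), by field_simp⟩
  have hκ0 : κ ≠ 0 := by
    rintro rfl
    apply hγ
    rw [hκ]; ring
  have h7 : δ = κ * (1 - r) := by
    have : (1 + r) * (δ - κ * (1 - r)) = 0 := by
      rw [hκ] at h6
      linear_combination -h6
    rcases mul_eq_zero.1 this with h | h
    · exact absurd h hr1
    · linarith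
  rw [hκ, h7] at b1 b2 b3
  refine ⟨2 * κ, mul_ne_zero two_ne_zero hκ0, ?_, ?_, ?_⟩
  · linear_combination b1
  · linear_combination b2
  · linear_combination b3

theorem step_02 {p r : ℝ} {q00 q01 q12 qm2 w : ℝ × ℝ × ℝ} (hp' : p ≠ -1)
    (hpr : p * r ≠ 1)
    (h1 : Pr q00 0 0 1) (h2 : Pr q01 p 1 1) (h3 : Pr q12 (1 + p) (2 + r * (1 - p)) (1 + p))
    (h4 : Pr qm2 (p - 1) (2 - r * (1 + p)) (1 - p))
    (l1 : L3 q00 q01 w) (l2 : L3 q12 qm2 w) :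
    Pr w (2 * p) 2 (1 + p ^ 2) := by
  obtain ⟨α, β, hα, hβ, a1, a2, a3⟩ := third l1 h1 h2
  obtain ⟨γ, δ, hγ, hδ, b1, b2, b3⟩ := third l2 h3 h4
  have hp1 : 1 + p ≠ 0 := fun h => hp' (by linarith)
  have h5 : (1 - p * r) * (γ * (1 - p) - δ * (1 + p)) = 0 := by
    linear_combination -b1 + p * b2 + a1 - p * a2
  have h6 : γ * (1 - p) - δ * (1 + p) = 0 := by
    rcases mul_eq_zero.1 h5 with h | h
    · exact absurd (by linarith) hpr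
    · exact h
  obtain ⟨κ, hκ⟩ : ∃ κ, γ = κ * (1 + p) := ⟨γ / (1 + p), by field_simp⟩
  have hκ0 : κ ≠ 0 := by
    rintro rfl
    apply hγ
    rw [hκ]; ring
  have h7 : δ = κ * (1 - p) := by
    have : (1 + p) * (δ - κ * (1 - p)) = 0 := by
      rw [hκ] at h6
      linear_combination -h6
    rcases mul_eq_zero.1 this with h | h
    · exact absurd h hp1
    · linarith
  rw [hκ, h7] at b1 b2 b3
  refine ⟨2 * κ, mul_ne_zero two_ne_zero hκ0, ?_, ?_, ?_⟩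
  · linear_combination b1
  · linear_combination b2
  · linear_combination b3

theorem step_sum {p r : ℝ} {q02 q11 q20 : ℝ × ℝ × ℝ} (hr : r ≠ 1)
    (h1 : Pr q02 (2 * p) 2 (1 + p ^ 2)) (h2 : Pr q11 1 1 1) (h3 : Pr q20 2 (2 * r) (1 + r ^ 2))
    (l : L3 q02 q11 q20) : r = -p := by
  obtain ⟨α, β, hα, hβ, a1, a2, a3⟩ := third l h1 h2
  obtain ⟨t, ht, t1, t2, t3⟩ := h3
  have e1 : t * (1 - r) = -(α * (1 - p)) := by linear_combination (a1 - a2 - t1 + t2) / 2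
  have e2 : t * (1 - r) * (1 + r) = -(α * (1 - p)) * (1 - p) := by
    linear_combination a1 - a3 - t1 + t3
  rw [← e1] at e2
  have e3 : t * ((1 - r) * (p + r)) = 0 := by linear_combination e2
  rcases mul_eq_zero.1 e3 with h | h
  · exact absurd h ht
  · rcases mul_eq_zero.1 h with h | h
    · exact absurd (by linarith) hr
    · linarith

theorem step_22 {p : ℝ} {q00 q11 q20 q21 q02 q12 w : ℝ × ℝ × ℝ} (hp : p ≠ 1) (hp' : p ≠ -1)
    (h00 : Pr q00 0 0 1) (h11 : Pr q11 1 1 1)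
    (h20 : Pr q20 2 (2 * (-p)) (1 + (-p) ^ 2))
    (h21 : Pr q21 (2 + p * (1 - (-p))) (1 + (-p)) (1 + (-p)))
    (h02 : Pr q02 (2 * p) 2 (1 + p ^ 2))
    (h12 : Pr q12 (1 + p) (2 + (-p) * (1 - p)) (1 + p))
    (l0 : L3 q00 q11 w) (l1 : L3 q20 q21 w) (l2 : L3 q02 q12 w) : p = 0 := by
  obtain ⟨α, β, hα, hβ, a1, a2, a3⟩ := third l0 h00 h11
  obtain ⟨γ, δ, hγ, hδ, b1, b2, b3⟩ := third l1 h20 h21
  obtain ⟨γ', δ', hγ', hδ', c1, c2, c3⟩ := third l2 h02 h12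
  have hp1 : 1 + p ≠ 0 := fun h => hp' (by linarith)
  have hp2 : 1 - p ≠ 0 := fun h => hp (by linarith)
  have e1 : 2 * γ = -(δ * (1 + p)) := by
    have : (1 + p) * (2 * γ + δ * (1 + p)) = 0 := by linear_combination a1 - a2 - b1 + b2
    rcases mul_eq_zero.1 this with h | h
    · exact absurd h hp1
    · linarith
  have e2 : 2 * γ' = -(δ' * (1 - p)) := by
    have : (1 - p) * (2 * γ' + δ' * (1 - p)) = 0 := by linear_combination a2 - a1 - c2 + c1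
    rcases mul_eq_zero.1 this with h | h
    · exact absurd h hp2
    · linarith
  have hT : w.1 = β := by linear_combination a1
  have f1 : 2 * (1 + p ^ 2) * w.2.2 = β * (1 - 3 * p - p ^ 2 - p ^ 3) := by
    have g1 : β = δ * (1 + p ^ 2) := by
      linear_combination b2 - a2 - p * e1
    have g2 : w.2.2 = δ / 2 * (1 - 3 * p - p ^ 2 - p ^ 3) := by
      linear_combination b3 + (1 + p ^ 2) / 2 * e1
    rw [g1, g2]; ring
  have f2 : 2 * (1 + p ^ 2) * w.2.2 = β * (1 + 3 * p - p ^ 2 + p ^ 3) := by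
    have g1 : β = δ' * (1 + p ^ 2) := by
      linear_combination c1 - a1 + p * e2
    have g2 : w.2.2 = δ' / 2 * (1 + 3 * p - p ^ 2 + p ^ 3) := by
      linear_combination c3 + (1 + p ^ 2) / 2 * e2
    rw [g1, g2]; ring
  have f3 : β * (p * (6 + 2 * p ^ 2)) = 0 := by linear_combination f1 - f2
  rcases mul_eq_zero.1 f3 with h | h
  · exact absurd h hβ
  · rcases mul_eq_zero.1 h with h | h
    · exact h
    · nlinarith [sq_nonneg p]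

/-- The point `q x y` is a nonzero multiple of `(x, y, 1)`. -/
def Good (q : ℤ → ℤ → ℝ × ℝ × ℝ) (x y : ℤ) : Prop := Pr (q x y) x y 1

theorem meet {q : ℤ → ℤ → ℝ × ℝ × ℝ}
    (H : ∀ x1 y1 x2 y2 x3 y3 : ℤ, Col x1 y1 x2 y2 x3 y3 → L3 (q x1 y1) (q x2 y2) (q x3 y3))
    (x1 y1 x2 y2 x4 y4 x5 y5 x3 y3 : ℤ)
    (g1 : Good q x1 y1) (g2 : Good q x2 y2) (g4 : Good q x4 y4) (g5 : Good q x5 y5)
    (c1 : Col x1 y1 x2 y2 x3 y3) (c2 : Col x4 y4 x5 y5 x3 y3)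
    (k1 : (x1 - x3) * (y2 - y3) - (x2 - x3) * (y1 - y3) = 0)
    (k2 : (x4 - x3) * (y5 - y3) - (x5 - x3) * (y4 - y3) = 0)
    (k3 : (x1 - x3) * (y4 - y3) - (x4 - x3) * (y1 - y3) ≠ 0) : Good q x3 y3 := by
  obtain ⟨α, β, hα, hβ, a1, a2, a3⟩ := third (H _ _ _ _ _ _ c1) g1 g2
  obtain ⟨γ, δ, hγ, hδ, b1, b2, b3⟩ := third (H _ _ _ _ _ _ c2) g4 g5
  have hne : ¬ (x1 = x2 ∧ y1 = y2) := c1.2.2.2.1
  have k1' : ((x1 : ℝ) - x3) * (y2 - y3) - (x2 - x3) * (y1 - y3) = 0 := by exact_mod_cast k1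
  have k2' : ((x4 : ℝ) - x3) * (y5 - y3) - (x5 - x3) * (y4 - y3) = 0 := by exact_mod_cast k2
  have k3' : ((x1 : ℝ) - x3) * (y4 - y3) - (x4 - x3) * (y1 - y3) ≠ 0 := by exact_mod_cast k3
  -- the offset vector
  have s1 : ((α * (x1 - x3) + β * (x2 - x3)) : ℝ) = 0 := by
    have : (((x1 : ℝ) - x3) * (y4 - y3) - (x4 - x3) * (y1 - y3)) *
        (α * (x1 - x3) + β * (x2 - x3)) = 0 := by
      linear_combination (y4 - y3 : ℝ) * ((x1 : ℝ) - x3) * (b1 - a1 - x3 * (b3 - a3)) -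
        ((x4 : ℝ) - x3) * ((x1 : ℝ) - x3) * (b2 - a2 - y3 * (b3 - a3)) +
        ((x4 : ℝ) - x3) * β * k1' - ((x1 : ℝ) - x3) * δ * k2'
    exact (mul_eq_zero.1 this).resolve_left k3'
  have s2 : ((α * (y1 - y3) + β * (y2 - y3)) : ℝ) = 0 := by
    have : (((x1 : ℝ) - x3) * (y4 - y3) - (x4 - x3) * (y1 - y3)) *
        (α * (y1 - y3) + β * (y2 - y3)) = 0 := by
      linear_combination (y4 - y3 : ℝ) * ((y1 : ℝ) - y3) * (b1 - a1 - x3 * (b3 - a3)) -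
        ((x4 : ℝ) - x3) * ((y1 : ℝ) - y3) * (b2 - a2 - y3 * (b3 - a3)) +
        ((y4 : ℝ) - y3) * β * k1' - ((y1 : ℝ) - y3) * δ * k2'
    exact (mul_eq_zero.1 this).resolve_left k3'
  refine ⟨α + β, ?_, ?_, ?_, ?_⟩
  · intro h0
    have hb : β = -α := by linarith
    rw [hb] at s1 s2
    have u1 : α * ((x1 : ℝ) - x2) = 0 := by linear_combination s1
    have u2 : α * ((y1 : ℝ) - y2) = 0 := by linear_combination s2
    have v1 := (mul_eq_zero.1 u1).resolve_left hα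
    have v2 := (mul_eq_zero.1 u2).resolve_left hα
    apply hne
    constructor
    · exact_mod_cast sub_eq_zero.1 v1
    · exact_mod_cast sub_eq_zero.1 v2
  · linear_combination a1 + s1
  · linear_combination a2 + s2
  · linear_combination a3

end Pool.Agent.Helper101_Scrib
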