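import Pool.Agent.Helper101_Scrib.Core

/-!
# The projective part of the rigidity argument, continued
-/

namespace Pool.Agent.Helper101_Scrib

theorem core_small {q : ℤ → ℤ → ℝ × ℝ × ℝ}
    (H : ∀ x1 y1 x2 y2 x3 y3 : ℤ, Col x1 y1 x2 y2 x3 y3 → L3 (q x1 y1) (q x2 y2) (q x3 y3))
    (h11 : Pr (q 1 1) 1 1 1) (hmm : Pr (q (-1) (-1)) (-1) (-1) 1)
    (h1m : Pr (q 1 (-1)) 1 (-1) 1) (hm1 : Pr (q (-1) 1) (-1) 1 1) (h00 : Pr (q 0 0) 0 0 1) :
    Pr (q 0 1) 0 1 1 ∧ Pr (q 0 (-1)) 0 (-1) 1 ∧ Pr (q 1 0) 1 0 1 ∧ Pr (q (-1) 0) (-1) 0 1 := by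
  obtain ⟨p, hp, hp', h01, h0m⟩ := step_p hm1 h11 hmm h1m h00
    (H (-1) 1 1 1 0 1 (by unfold Col inR; omega)) (H (-1) (-1) 1 (-1) 0 (-1) (by unfold Col inR; omega))
    (H 0 1 0 (-1) 0 0 (by unfold Col inR; omega))
  obtain ⟨r, hr, hr', h10, hm0⟩ := step_r hm1 h11 hmm h1m h00
    (H 1 (-1) 1 1 1 0 (by unfold Col inR; omega)) (H (-1) (-1) (-1) 1 (-1) 0 (by unfold Col inR; omega))
    (H 1 0 (-1) 0 0 0 (by unfold Col inR; omega))
  obtain ⟨h21, hpr⟩ := step_21 hp h01 h11 h0m h10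
    (H 0 1 1 1 2 1 (by unfold Col inR; omega)) (H 0 (-1) 1 0 2 1 (by unfold Col inR; omega))
  have h2m := step_2m h0m h1m h01 h10
    (H 0 (-1) 1 (-1) 2 (-1) (by unfold Col inR; omega)) (H 0 1 1 0 2 (-1) (by unfold Col inR; omega))
  have h12 := step_12 h10 h11 hm0 h01
    (H 1 0 1 1 1 2 (by unfold Col inR; omega)) (H (-1) 0 0 1 1 2 (by unfold Col inR; omega))
  have hm2 := step_m2 hm0 hm1 h10 h01
    (H (-1) 0 (-1) 1 (-1) 2 (by unfold Col inR; omega)) (H 1 0 0 1 (-1) 2 (by unfold Col inR; omega))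
  have h20 := step_20 hr' hpr h00 h10 h21 h2m
    (H 0 0 1 0 2 0 (by unfold Col inR; omega)) (H 2 1 2 (-1) 2 0 (by unfold Col inR; omega))
  have h02 := step_02 hp' hpr h00 h01 h12 hm2
    (H 0 0 0 1 0 2 (by unfold Col inR; omega)) (H 1 2 (-1) 2 0 2 (by unfold Col inR; omega))
  have hrp : r = -p := step_sum hr h02 h11 h20 (H 0 2 1 1 2 0 (by unfold Col inR; omega))
  subst hrp
  have hp0 : p = 0 := step_22 hp hp' h00 h11 h20 h21 h02 h12
    (H 0 0 1 1 2 2 (by unfold Col inR; omega)) (H 2 0 2 1 2 2 (by unfold Col inR; omega))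
    (H 0 2 1 2 2 2 (by unfold Col inR; omega))
  subst hp0
  rw [neg_zero] at h0m h10 hm0
  rw [neg_zero] at hm0
  exact ⟨h01, h0m, h10, hm0⟩

theorem core {q : ℤ → ℤ → ℝ × ℝ × ℝ}
    (H : ∀ x1 y1 x2 y2 x3 y3 : ℤ, Col x1 y1 x2 y2 x3 y3 → L3 (q x1 y1) (q x2 y2) (q x3 y3))
    (h11 : Pr (q 1 1) 1 1 1) (hmm : Pr (q (-1) (-1)) (-1) (-1) 1)
    (h1m : Pr (q 1 (-1)) 1 (-1) 1) (hm1 : Pr (q (-1) 1) (-1) 1 1) (h00 : Pr (q 0 0) 0 0 1) :
    ∀ x y : ℤ, inR x y → Good q x y := by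
  obtain ⟨h01, h0m, h10, hm0⟩ := core_small H h11 hmm h1m hm1 h00
  have g11 : Good q 1 1 := by simpa [Good] using h11
  have gmm : Good q (-1) (-1) := by simpa [Good] using hmm
  have g1m : Good q 1 (-1) := by simpa [Good] using h1m
  have gm1 : Good q (-1) 1 := by simpa [Good] using hm1
  have g00 : Good q 0 0 := by simpa [Good] using h00
  have g01 : Good q 0 1 := by simpa [Good] using h01
  have g0m : Good q 0 (-1) := by simpa [Good] using h0m
  have g10 : Good q 1 0 := by simpa [Good] using h10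
  have gm0 : Good q (-1) 0 := by simpa [Good] using hm0
  -- upwards
  have up : ∀ n : ℕ, n ≤ 4 → (Good q (-1) n ∧ Good q 0 n ∧ Good q 1 n) ∧
      (Good q (-1) (n + 1) ∧ Good q 0 (n + 1) ∧ Good q 1 (n + 1)) := by
    intro n
    induction n with
    | zero =>
      intro _
      simp only [Nat.cast_zero, zero_add]
      exact ⟨⟨gm0, g00, g10⟩, gm1, g01, g11⟩
    | succ n ih =>
      intro hn
      obtain ⟨⟨a1, a2, a3⟩, b1, b2, b3⟩ := ih (by omega)
      push_cast
      have c3 : Good q 1 ((n : ℤ) + 1 + 1) := by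
        refine meet H 1 (n + 1) 1 n 0 (n + 1) (-1) n _ _ b3 a3 b2 a1 ?_ ?_ ?_ ?_ ?_
        · unfold Col inR; omega
        · unfold Col inR; omega
        · ring
        · ring
        · ring_nf; norm_num
      have c1 : Good q (-1) ((n : ℤ) + 1 + 1) := by
        refine meet H (-1) (n + 1) (-1) n 0 (n + 1) 1 n _ _ b1 a1 b2 a3 ?_ ?_ ?_ ?_ ?_
        · unfold Col inR; omega
        · unfold Col inR; omega
        · ring
        · ring
        · ring_nf; norm_num
      have c2 : Good q 0 ((n : ℤ) + 1 + 1) := by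
        refine meet H 0 (n + 1) 0 n (-1) (n + 1 + 1) 1 (n + 1 + 1) _ _ b2 a2 c1 c3 ?_ ?_ ?_ ?_ ?_
        · unfold Col inR; omega
        · unfold Col inR; omega
        · ring
        · ring
        · ring_nf; norm_num
      exact ⟨⟨b1, b2, b3⟩, c1, c2, c3⟩
  have down : ∀ n : ℕ, n ≤ 4 → (Good q (-1) (-n) ∧ Good q 0 (-n) ∧ Good q 1 (-n)) ∧
      (Good q (-1) (-n - 1) ∧ Good q 0 (-n - 1) ∧ Good q 1 (-n - 1)) := by
    intro n
    induction n with
    | zero =>
      intro _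
      simp only [Nat.cast_zero, neg_zero, zero_sub]
      exact ⟨⟨gm0, g00, g10⟩, gmm, g0m, g1m⟩
    | succ n ih =>
      intro hn
      obtain ⟨⟨a1, a2, a3⟩, b1, b2, b3⟩ := ih (by omega)
      push_cast
      rw [show (-((n : ℤ) + 1)) = -(n : ℤ) - 1 by ring]
      have c3 : Good q 1 (-(n : ℤ) - 1 - 1) := by
        refine meet H 1 (-n - 1) 1 (-n) 0 (-n - 1) (-1) (-n) _ _ b3 a3 b2 a1 ?_ ?_ ?_ ?_ ?_
        · unfold Col inR; omega
        · unfold Col inR; omega
        · ring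
        · ring
        · ring_nf; norm_num
      have c1 : Good q (-1) (-(n : ℤ) - 1 - 1) := by
        refine meet H (-1) (-n - 1) (-1) (-n) 0 (-n - 1) 1 (-n) _ _ b1 a1 b2 a3 ?_ ?_ ?_ ?_ ?_
        · unfold Col inR; omega
        · unfold Col inR; omega
        · ring
        · ring
        · ring_nf; norm_num
      have c2 : Good q 0 (-(n : ℤ) - 1 - 1) := by
        refine meet H 0 (-n - 1) 0 (-n) (-1) (-n - 1 - 1) 1 (-n - 1 - 1) _ _ b2 a2 c1 c3
          ?_ ?_ ?_ ?_ ?_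
        · unfold Col inR; omega
        · unfold Col inR; omega
        · ring
        · ring
        · ring_nf; norm_num
      exact ⟨⟨b1, b2, b3⟩, c1, c2, c3⟩
  -- the three middle columns
  have mid : ∀ y : ℤ, -5 ≤ y → y ≤ 5 → Good q (-1) y ∧ Good q 0 y ∧ Good q 1 y := by
    intro y h1 h2
    rcases le_or_gt 0 y with h | h
    · obtain ⟨n, rfl⟩ := Int.eq_ofNat_of_zero_le h
      rcases Nat.lt_or_ge n 5 with h3 | h3
      · exact (up n (by omega)).1
      · have : n = 5 := by omega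
        subst this
        have := (up 4 le_rfl).2
        norm_num at this ⊢
        exact this
    · obtain ⟨n, hn⟩ := Int.eq_ofNat_of_zero_le (show 0 ≤ -y by omega)
      have hy : y = -(n : ℤ) := by omega
      subst hy
      rcases Nat.lt_or_ge n 5 with h3 | h3
      · exact (down n (by omega)).1
      · have : n = 5 := by omega
        subst this
        have := (down 4 le_rfl).2
        norm_num at this ⊢
        exact this
  intro x y hxy
  obtain ⟨k1, k2, k3, k4⟩ := hxy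
  have m0 := mid y k3 k4
  have hx : x = -2 ∨ x = -1 ∨ x = 0 ∨ x = 1 ∨ x = 2 := by omega
  rcases hx with rfl | rfl | rfl | rfl | rfl
  · rcases le_or_gt 0 y with h | h
    · -- diagonal downwards: (-2,y), (-1,y-1)?, use antidiagonal (-1,y-1),(0,y-2)
      obtain ⟨a1, a2, a3⟩ := mid (y - 1) (by omega) (by omega)
      obtain ⟨b1, b2, b3⟩ := mid (y - 2) (by omega) (by omega)
      refine meet H (-1) y 0 y (-1) (y - 1) 0 (y - 2) _ _ m0.1 m0.2.1 a1 b2 ?_ ?_ ?_ ?_ ?_
      · unfold Col inR; omega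
      · unfold Col inR; omega
      · ring
      · ring
      · ring_nf; norm_num
    · obtain ⟨a1, a2, a3⟩ := mid (y + 1) (by omega) (by omega)
      obtain ⟨b1, b2, b3⟩ := mid (y + 2) (by omega) (by omega)
      refine meet H (-1) y 0 y (-1) (y + 1) 0 (y + 2) _ _ m0.1 m0.2.1 a1 b2 ?_ ?_ ?_ ?_ ?_
      · unfold Col inR; omega
      · unfold Col inR; omega
      · ring
      · ring
      · ring_nf; norm_num
  · exact m0.1
  · exact m0.2.1
  · exact m0.2.2
  · rcases le_or_gt 0 y with h | h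
    · obtain ⟨a1, a2, a3⟩ := mid (y - 1) (by omega) (by omega)
      obtain ⟨b1, b2, b3⟩ := mid (y - 2) (by omega) (by omega)
      refine meet H 1 y 0 y 1 (y - 1) 0 (y - 2) _ _ m0.2.2 m0.2.1 a3 b2 ?_ ?_ ?_ ?_ ?_
      · unfold Col inR; omega
      · unfold Col inR; omega
      · ring
      · ring
      · ring_nf; norm_num
    · obtain ⟨a1, a2, a3⟩ := mid (y + 1) (by omega) (by omega)
      obtain ⟨b1, b2, b3⟩ := mid (y + 2) (by omega) (by omega)
      refine meet H 1 y 0 y 1 (y + 1) 0 (y + 2) _ _ m0.2.2 m0.2.1 a3 b2 ?_ ?_ ?_ ?_ ?_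
      · unfold Col inR; omega
      · unfold Col inR; omega
      · ring
      · ring
      · ring_nf; norm_num

end Pool.Agent.Helper101_Scrib
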