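import Mathlib

/-!
# Definitions: spherical polytopes as cones, faces, strong scribability
-/

namespace Pool.Agent.Helper101_Scrib

/-- The ambient space `ℝ^{d+1}`, with coordinates `x 0, x 1, ..., x d`. -/
abbrev Amb (d : ℕ) : Type := Fin (d + 1) → ℝ

/-- The conical hull of a finite set of vectors. -/
def conicHull {d : ℕ} (s : Finset (Amb d)) : Set (Amb d) :=
  {x | ∃ c : Amb d → ℝ, (∀ v ∈ s, 0 ≤ c v) ∧ x = ∑ v ∈ s, c v • v}

/-- `K` is a pointed polyhedral cone of full dimension `d + 1`; the spherical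
`d`-polytope it stands for is the intersection of `K` with the unit sphere. -/
def IsPolytopeCone (d : ℕ) (K : Set (Amb d)) : Prop :=
  (∃ s : Finset (Amb d), K = conicHull s) ∧
  (∀ x, x ∈ K → -x ∈ K → x = 0) ∧
  Submodule.span ℝ K = ⊤

/-- `F` is a face of `K`: the set where some linear functional that is nonnegative on `K`
vanishes. -/
def IsFace {d : ℕ} (K F : Set (Amb d)) : Prop :=
  ∃ l : Amb d →ₗ[ℝ] ℝ, (∀ x ∈ K, 0 ≤ l x) ∧ F = {x | x ∈ K ∧ l x = 0}

/-- The linear dimension of a set; the face `F` of the cone is an `i`-face of the spherical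
polytope iff `linDim F = i + 1`. -/
noncomputable def linDim {d : ℕ} (F : Set (Amb d)) : ℕ :=
  Module.finrank ℝ (Submodule.span ℝ F)

/-- Same combinatorial type: the face lattices, ordered by inclusion, are isomorphic. -/
def SameType {d : ℕ} (K K' : Set (Amb d)) : Prop :=
  Nonempty ({F : Set (Amb d) // IsFace K F} ≃o {F : Set (Amb d) // IsFace K' F})

/-- The spherical ball: points of the unit sphere with `0 ≤ x 0` and
`(x 1)^2 + ... + (x d)^2 ≤ (x 0)^2`. -/
def sphBall (d : ℕ) : Set (Amb d) :=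
  {x | ∑ i, x i ^ 2 = 1 ∧ 0 ≤ x 0 ∧ ∑ i : Fin d, x i.succ ^ 2 ≤ x 0 ^ 2}

/-- The face `F` strongly cuts the sphere. -/
def StronglyCuts {d : ℕ} (F : Set (Amb d)) : Prop :=
  (intrinsicInterior ℝ F ∩ sphBall d).Nonempty

/-- The face `F` of `K` strongly avoids the sphere: some supporting hyperplane of `K` cuts
out `F` and has the ball on the same (closed) side as `K`. -/
def StronglyAvoids {d : ℕ} (K F : Set (Amb d)) : Prop :=
  ∃ l : Amb d →ₗ[ℝ] ℝ, l ≠ 0 ∧ (∀ x ∈ K, 0 ≤ l x) ∧ F = {x | x ∈ K ∧ l x = 0} ∧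
    ∀ x ∈ sphBall d, 0 ≤ l x

/-- The combinatorial type of the polytope cone `K` is strongly `(i, j)`-scribable. -/
def Scribable (d i j : ℕ) (K : Set (Amb d)) : Prop :=
  ∃ K' : Set (Amb d), IsPolytopeCone d K' ∧ SameType K K' ∧
    (∀ F, IsFace K' F → linDim F = i + 1 → StronglyAvoids K' F) ∧
    (∀ F, IsFace K' F → linDim F = j + 1 → StronglyCuts F)

end Pool.Agent.Helper101_Scrib
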