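import Pool.Agent.Helper101_Scrib.Build

/-!
# The functionals exposing the faces
-/

namespace Pool.Agent.Helper101_Scrib

open Submodule

variable {d : ℕ}

theorem eps_0 (l : Fin (d + 1)) : eps 0 l = 1 / 3 := by simp [eps]

theorem eps_l0 {k : Fin (d + 1)} (hk : k ≠ 0) : eps k 0 = 2 / 5 := by simp [eps, hk]

theorem eps_kl {k l : Fin (d + 1)} (hk : k ≠ 0) (hl : l ≠ 0) : eps k l = 3 / 10 := by
  simp [eps, hk, hl]

namespace Frame

variable (F : Frame d)

/-- The functional that takes the values of the quadratic polynomial with the given coefficients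
at the points of the gadget. -/
noncomputable def qf (i j : Fin (d + 1)) (A B C D E G : ℝ) : Fin (d + 1) → ℝ := fun m =>
  if m = 0 then (A - B - C) / 26 else
  if m = i then (C - 2 * ((A - B - C) / 26)) / 5 else
  if m = j then (A - 15 * ((A - B - C) / 26)) / 5 else
  if m = F.ca i j then 1000000 * ((7 * A + 6 * B + 19 * C) / 65) + 4 * D + G else
  if m = F.cb i j then 1000000 * ((7 * A + 6 * B + 19 * C) / 65) + 4 * D + E + G else
  if m = F.cc i j then 2000000 * ((7 * A + 6 * B + 19 * C) / 65) + 5 * D + G else 1000000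

section

variable {i j : Fin (d + 1)} (hi : 0 < i) (hij : i < j) (A B C D E G : ℝ)

theorem qf_0 : F.qf i j A B C D E G 0 = (A - B - C) / 26 := by simp [qf]

include hi in
theorem qf_i : F.qf i j A B C D E G i = (C - 2 * ((A - B - C) / 26)) / 5 := by
  simp [qf, hi.ne']

include hi hij in
theorem qf_j : F.qf i j A B C D E G j = (A - 15 * ((A - B - C) / 26)) / 5 := by
  simp [qf, (hi.trans hij).ne', hij.ne']

theorem qf_a : F.qf i j A B C D E G (F.ca i j) =
    1000000 * ((7 * A + 6 * B + 19 * C) / 65) + 4 * D + G := by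
  simp [qf, F.ha0, F.hai, F.haj]

theorem qf_b : F.qf i j A B C D E G (F.cb i j) =
    1000000 * ((7 * A + 6 * B + 19 * C) / 65) + 4 * D + E + G := by
  simp [qf, F.hb0, F.hbi, F.hbj, F.hab]

theorem qf_c : F.qf i j A B C D E G (F.cc i j) =
    2000000 * ((7 * A + 6 * B + 19 * C) / 65) + 5 * D + G := by
  simp [qf, F.hc0, F.hci, F.hcj, F.hac, F.hbc]

include hi hij in
theorem lf_qf_kap (x y : ℝ) : F.lf (F.qf i j A B C D E G) (F.kap i j x y) =
    A * x ^ 2 + B * x * y + C * y ^ 2 + D * x + E * y + G := by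
  rw [F.lf_kap, F.qf_0, F.qf_i hi, F.qf_j hi hij, F.qf_a, F.qf_b, F.qf_c]
  ring

include hi in
theorem lf_qf_0i : F.lf (F.qf i j A B C D E G) (F.u 0 i) = (A - B + C) / 30 := by
  rw [F.lf_u, F.qf_0, F.qf_i hi, eps_0]
  ring

include hi in
theorem lf_qf_i0 : F.lf (F.qf i j A B C D E G) (F.u i 0) = C / 5 := by
  rw [F.lf_u, F.qf_0, F.qf_i hi, eps_l0 hi.ne']
  ring

include hi hij in
theorem lf_qf_0j : F.lf (F.qf i j A B C D E G) (F.u 0 j) = A / 15 := by
  rw [F.lf_u, F.qf_0, F.qf_j hi hij, eps_0]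
  ring

include hi hij in
theorem lf_qf_j0 : F.lf (F.qf i j A B C D E G) (F.u j 0) = (A + B + C) / 10 := by
  rw [F.lf_u, F.qf_0, F.qf_j hi hij, eps_l0 (hi.trans hij).ne']
  ring

include hi hij in
theorem lf_qf_ij : F.lf (F.qf i j A B C D E G) (F.u i j) = (A + 5 * B + 25 * C) / 100 := by
  rw [F.lf_u, F.qf_i hi, F.qf_j hi hij, eps_kl hi.ne' (hi.trans hij).ne']
  ring

include hi hij in
theorem lf_qf_ji : F.lf (F.qf i j A B C D E G) (F.u j i) = (4 * A + 6 * B + 9 * C) / 50 := by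
  rw [F.lf_u, F.qf_i hi, F.qf_j hi hij, eps_kl (hi.trans hij).ne' hi.ne']
  ring

end

theorem qf_TB {i j : Fin (d + 1)} {A B C D E G : ℝ} (hA : 0 ≤ A) (hA' : A ≤ 25) (hB : -12 ≤ B)
    (hB' : B ≤ 12) (hC : 0 ≤ C) (hC' : C ≤ 4) (hD : -14 ≤ D) (hD' : D ≤ 14) (hE : -14 ≤ E)
    (hE' : E ≤ 14) (hG : 0 ≤ G) (hG' : G ≤ 49) (h : 65 / 10 ≤ 7 * A + 6 * B + 19 * C) :
    TB i j (F.qf i j A B C D E G) := by
  refine ⟨fun m => ?_, fun m => ?_, fun m h0 h1 h2 => ?_⟩
  · unfold qf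
    split_ifs <;> linarith
  · unfold qf
    split_ifs <;> linarith
  · unfold qf
    rw [if_neg h0, if_neg h1, if_neg h2]
    split_ifs <;> linarith

/-- Being one of the three special indices. -/
def inT (i j k : Fin (d + 1)) : Prop := k = 0 ∨ k = i ∨ k = j

theorem forall_inT {i j : Fin (d + 1)} (P : Fin (d + 1) → Fin (d + 1) → Prop)
    (h1 : P 0 i) (h2 : P i 0) (h3 : P 0 j) (h4 : P j 0) (h5 : P i j) (h6 : P j i)
    (k l : Fin (d + 1)) (hkl : k ≠ l) (hk : inT i j k) (hl : inT i j l) : P k l := by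
  rcases hk with rfl | rfl | rfl <;> rcases hl with rfl | rfl | rfl <;>
    first
    | assumption
    | exact absurd rfl hkl

theorem nonneg_of_TB {i j : Fin (d + 1)} (hij : i < j) {f : Fin (d + 1) → ℝ}
    (h : TB i j f)
    (hk : ∀ x y : ℤ, inR x y → 0 ≤ F.lf f (F.kap i j x y))
    (hu : ∀ k l, k ≠ l → inT i j k → inT i j l → 0 ≤ F.lf f (F.u k l)) :
    ∀ v ∈ F.verts, 0 ≤ F.lf f v := by
  intro v hv
  rcases (F.mem_verts v).1 hv with ⟨k, l, hkl, rfl⟩ | ⟨i', j', x, y, h1, h2, h3, rfl⟩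
  · by_cases hT : inT i j k ∧ inT i j l
    · exact hu k l hkl hT.1 hT.2
    · exact (h.u_pos F hT).le
  · by_cases hne : i' = i ∧ j' = j
    · rw [hne.1, hne.2]
      exact hk x y h3
    · exact (h.other F h1 h2 hne hij h3).le

theorem zero_of_TB {i j : Fin (d + 1)} (hij : i < j) {f : Fin (d + 1) → ℝ}
    (h : TB i j f) {v : Amb d} (hv : v ∈ F.verts) (h0 : F.lf f v = 0) :
    (∃ k l, k ≠ l ∧ inT i j k ∧ inT i j l ∧ v = F.u k l) ∨
      ∃ x y : ℤ, inR x y ∧ v = F.kap i j x y := by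
  rcases (F.mem_verts v).1 hv with ⟨k, l, hkl, rfl⟩ | ⟨i', j', x, y, h1, h2, h3, rfl⟩
  · by_cases hT : inT i j k ∧ inT i j l
    · exact Or.inl ⟨k, l, hkl, hT.1, hT.2, rfl⟩
    · exact absurd h0 (h.u_pos F hT).ne'
  · by_cases hne : i' = i ∧ j' = j
    · rw [hne.1, hne.2]
      exact Or.inr ⟨x, y, h3, rfl⟩
    · exact absurd h0 (h.other F h1 h2 hne hij h3).ne'

/-- The quadratic Taylor expansion of the gadget points. -/
theorem kap_expand (i j : Fin (d + 1)) (x0 y0 p q t : ℝ) :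
    F.kap i j (x0 + t * p) (y0 + t * q) = F.kap i j x0 y0 +
      t • ((4 * y0 * q - 13 * (x0 * q + y0 * p) + 30 * x0 * p - 1000000 * p) • F.b 0 +
        (10 * y0 * q - 5 * (x0 * q + y0 * p) - 1000000 * p) • F.b i +
        (10 * x0 * p + 5 * (x0 * q + y0 * p) - 1000000 * p) • F.b j +
        (-p - q) • F.b (F.ca i j) + q • F.b (F.cb i j) + p • F.b (F.cc i j)) +
      t ^ 2 • ((2 * q ^ 2 - 13 * p * q + 15 * p ^ 2) • F.b 0 + (5 * q ^ 2 - 5 * p * q) • F.b i +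
        (5 * p ^ 2 + 5 * p * q) • F.b j) := by
  unfold kap
  module

theorem linDim_le_three {S : Set (Amb d)} {a b c : Amb d}
    (h : ∀ v ∈ S, v ∈ span ℝ ({a, b, c} : Set (Amb d))) : linDim S ≤ 3 := by
  classical
  have h1 : span ℝ S ≤ span ℝ ({a, b, c} : Set (Amb d)) := Submodule.span_le.2 h
  have h2 := Submodule.finrank_mono h1
  have h3 := finrank_span_finset_le_card (R := ℝ) ({a, b, c} : Finset (Amb d))
  have h4 : ({a, b, c} : Finset (Amb d)).card ≤ 3 := Finset.card_le_three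
  have h5 : (({a, b, c} : Finset (Amb d)) : Set (Amb d)) = {a, b, c} := by simp
  rw [h5] at h3
  unfold Set.finrank at h3
  unfold linDim
  omega

/-- The faces given by lattice lines. -/
theorem line_generic {i j : Fin (d + 1)} (hi : 0 < i) (hij : i < j) (p q g c x0 y0 : ℝ)
    (σ : Amb d)
    (hQ : (2 * q ^ 2 - 13 * p * q + 15 * p ^ 2) • F.b 0 + (5 * q ^ 2 - 5 * p * q) • F.b i +
        (5 * p ^ 2 + 5 * p * q) • F.b j = c • σ)
    (hpar : ∀ x y : ℝ, q * x - p * y + g = 0 → ∃ t, x = x0 + t * p ∧ y = y0 + t * q)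
    (hTB : TB i j (F.qf i j (q ^ 2) (-2 * p * q) (p ^ 2) (2 * q * g) (-2 * p * g) (g ^ 2)))
    (hσ : ∀ k l, k ≠ l → inT i j k → inT i j l →
      F.lf (F.qf i j (q ^ 2) (-2 * p * q) (p ^ 2) (2 * q * g) (-2 * p * g) (g ^ 2)) (F.u k l) = 0 →
      F.u k l = σ) :
    (∀ v ∈ F.verts,
      0 ≤ F.lf (F.qf i j (q ^ 2) (-2 * p * q) (p ^ 2) (2 * q * g) (-2 * p * g) (g ^ 2)) v) ∧
    linDim {v | v ∈ F.verts ∧
      F.lf (F.qf i j (q ^ 2) (-2 * p * q) (p ^ 2) (2 * q * g) (-2 * p * g) (g ^ 2)) v = 0} ≤ 3 ∧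
    ∀ x y : ℝ, F.lf (F.qf i j (q ^ 2) (-2 * p * q) (p ^ 2) (2 * q * g) (-2 * p * g) (g ^ 2))
      (F.kap i j x y) = (q * x - p * y + g) ^ 2 := by
  have hval : ∀ x y : ℝ,
      F.lf (F.qf i j (q ^ 2) (-2 * p * q) (p ^ 2) (2 * q * g) (-2 * p * g) (g ^ 2))
      (F.kap i j x y) = (q * x - p * y + g) ^ 2 := by
    intro x y
    rw [F.lf_qf_kap hi hij]
    ring
  refine ⟨?_, ?_, hval⟩
  · apply F.nonneg_of_TB hij hTB
    · intro x y _
      rw [hval]
      exact sq_nonneg _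
    · apply forall_inT
      · rw [F.lf_qf_0i hi]
        nlinarith [sq_nonneg (q + p)]
      · rw [F.lf_qf_i0 hi]
        positivity
      · rw [F.lf_qf_0j hi hij]
        positivity
      · rw [F.lf_qf_j0 hi hij]
        nlinarith [sq_nonneg (q - p)]
      · rw [F.lf_qf_ij hi hij]
        nlinarith [sq_nonneg (q - 5 * p)]
      · rw [F.lf_qf_ji hi hij]
        nlinarith [sq_nonneg (2 * q - 3 * p)]
  · apply linDim_le_three (a := F.kap i j x0 y0)
      (b := (4 * y0 * q - 13 * (x0 * q + y0 * p) + 30 * x0 * p - 1000000 * p) • F.b 0 +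
        (10 * y0 * q - 5 * (x0 * q + y0 * p) - 1000000 * p) • F.b i +
        (10 * x0 * p + 5 * (x0 * q + y0 * p) - 1000000 * p) • F.b j +
        (-p - q) • F.b (F.ca i j) + q • F.b (F.cb i j) + p • F.b (F.cc i j)) (c := σ)
    rintro v ⟨hv, h0⟩
    rw [Submodule.mem_span_triple]
    rcases F.zero_of_TB hij hTB hv h0 with ⟨k, l, hkl, hk, hl, rfl⟩ | ⟨x, y, hxy, rfl⟩
    · refine ⟨0, 0, 1, ?_⟩
      rw [hσ k l hkl hk hl h0]
      module
    · rw [hval] at h0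
      obtain ⟨t, hx, hy⟩ := hpar x y (pow_eq_zero_iff (two_ne_zero) |>.1 h0)
      refine ⟨1, t, t ^ 2 * c, ?_⟩
      rw [hx, hy, F.kap_expand, hQ]
      module

end Frame

end Pool.Agent.Helper101_Scrib
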