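import Pool.Agent.Helper101_Scrib.FaceFun

/-!
# Vertices, edges, facets and the hexagons
-/

namespace Pool.Agent.Helper101_Scrib

open Submodule

variable {d : ℕ}

namespace Frame

variable (F : Frame d)

/-- Functionals vanishing on the three special basis vectors. -/
noncomputable def hf (i j : Fin (d + 1)) (α β γ : ℝ) : Fin (d + 1) → ℝ := fun m =>
  if m = 0 then 0 else if m = i then 0 else if m = j then 0 else
  if m = F.ca i j then α else if m = F.cb i j then β else if m = F.cc i j then γ else 1000000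

theorem hf_T {i j k : Fin (d + 1)} (α β γ : ℝ) (hk : inT i j k) : F.hf i j α β γ k = 0 := by
  rcases hk with rfl | rfl | rfl <;> simp [hf]

theorem lf_hf_u {i j k l : Fin (d + 1)} (α β γ : ℝ) (hk : inT i j k) (hl : inT i j l) :
    F.lf (F.hf i j α β γ) (F.u k l) = 0 := by
  rw [F.lf_u, F.hf_T α β γ hk, F.hf_T α β γ hl]
  ring

theorem lf_hf_kap (i j : Fin (d + 1)) (α β γ x y : ℝ) :
    F.lf (F.hf i j α β γ) (F.kap i j x y) = (5 - x - y) * α + y * β + (x - 4) * γ := by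
  have h1 : F.hf i j α β γ 0 = 0 := F.hf_T α β γ (Or.inl rfl)
  have h2 : F.hf i j α β γ i = 0 := F.hf_T α β γ (Or.inr (Or.inl rfl))
  have h3 : F.hf i j α β γ j = 0 := F.hf_T α β γ (Or.inr (Or.inr rfl))
  have h4 : F.hf i j α β γ (F.ca i j) = α := by simp [hf, F.ha0, F.hai, F.haj]
  have h5 : F.hf i j α β γ (F.cb i j) = β := by simp [hf, F.hb0, F.hbi, F.hbj, F.hab]
  have h6 : F.hf i j α β γ (F.cc i j) = γ := by simp [hf, F.hc0, F.hci, F.hcj, F.hac, F.hbc]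
  rw [F.lf_kap, h1, h2, h3, h4, h5, h6]
  ring

theorem hf_TB {i j : Fin (d + 1)} {α β γ : ℝ} (hα : 50000 ≤ α) (hα' : α ≤ 20000000)
    (hβ : 50000 ≤ β) (hβ' : β ≤ 20000000) (hγ : 50000 ≤ γ) (hγ' : γ ≤ 20000000) :
    TB i j (F.hf i j α β γ) := by
  refine ⟨fun m => ?_, fun m => ?_, fun m h0 h1 h2 => ?_⟩
  · unfold hf
    split_ifs <;> linarith
  · unfold hf
    split_ifs <;> linarith
  · unfold hf
    rw [if_neg h0, if_neg h1, if_neg h2]
    split_ifs <;> linarith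

/-- The face functional of a hull type functional is nonnegative. -/
theorem hf_nonneg {i j : Fin (d + 1)} (hij : i < j) {α β γ : ℝ} (hα : 50000 ≤ α)
    (hα' : α ≤ 20000000) (hβ : 50000 ≤ β) (hβ' : β ≤ 20000000) (hγ : 50000 ≤ γ)
    (hγ' : γ ≤ 20000000)
    (h : ∀ x y : ℤ, inR x y → 0 ≤ (5 - x - y) * α + y * β + (x - 4) * γ) :
    ∀ v ∈ F.verts, 0 ≤ F.lf (F.hf i j α β γ) v := by
  apply F.nonneg_of_TB hij (F.hf_TB hα hα' hβ hβ' hγ hγ')
  · intro x y hxy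
    rw [F.lf_hf_kap]
    exact h x y hxy
  · intro k l _ hk hl
    rw [F.lf_hf_u α β γ hk hl]

theorem kap_ne_u {i j k l : Fin (d + 1)} (hk : inT i j k) (hl : inT i j l) (x y : ℝ) :
    F.kap i j x y ≠ F.u k l := by
  intro h
  have h1 := F.lf_hf_kap i j 1 1 1 x y
  rw [h, F.lf_hf_u 1 1 1 hk hl] at h1
  norm_num at h1

theorem kap_inj {i j : Fin (d + 1)} {x y x' y' : ℝ} (h : F.kap i j x y = F.kap i j x' y') :
    x = x' ∧ y = y' := by
  have h1 := F.lf_hf_kap i j 0 1 0 x y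
  have h2 := F.lf_hf_kap i j 0 0 1 x y
  rw [h, F.lf_hf_kap] at h1 h2
  constructor <;> linarith

/-- The gadget points are vertices. -/
theorem kap_vertex {i j : Fin (d + 1)} (hi : 0 < i) (hij : i < j) {x y : ℤ} (hxy : inR x y) :
    IsFace (F.verts : Set (Amb d)) {F.kap i j x y} := by
  have hxy' := hxy
  obtain ⟨h1, h2, h3, h4⟩ := hxy
  have x1 : (-2 : ℝ) ≤ x := by exact_mod_cast h1
  have x2 : (x : ℝ) ≤ 2 := by exact_mod_cast h2
  have y1 : (-5 : ℝ) ≤ y := by exact_mod_cast h3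
  have y2 : (y : ℝ) ≤ 5 := by exact_mod_cast h4
  have hTB : TB i j (F.qf i j 1 0 1 (-2 * x) (-2 * y) (x ^ 2 + y ^ 2)) := by
    apply F.qf_TB <;> nlinarith
  have hval : ∀ a b : ℝ, F.lf (F.qf i j 1 0 1 (-2 * x) (-2 * y) (x ^ 2 + y ^ 2))
      (F.kap i j a b) = (a - x) ^ 2 + (b - y) ^ 2 := by
    intro a b
    rw [F.lf_qf_kap hi hij]
    ring
  refine ⟨F.lf (F.qf i j 1 0 1 (-2 * x) (-2 * y) (x ^ 2 + y ^ 2)), ?_, ?_⟩
  · apply F.nonneg_of_TB hij hTB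
    · intro a b _
      rw [hval]
      positivity
    · apply forall_inT
      · rw [F.lf_qf_0i hi]; norm_num
      · rw [F.lf_qf_i0 hi]; norm_num
      · rw [F.lf_qf_0j hi hij]; norm_num
      · rw [F.lf_qf_j0 hi hij]; norm_num
      · rw [F.lf_qf_ij hi hij]; norm_num
      · rw [F.lf_qf_ji hi hij]; norm_num
  · ext v
    simp only [Set.mem_singleton_iff, Set.mem_ofPred_eq]
    constructor
    · rintro rfl
      refine ⟨F.kap_mem hi hij hxy', ?_⟩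
      rw [hval]
      ring
    · rintro ⟨hv, h0⟩
      rcases F.zero_of_TB hij hTB hv h0 with ⟨k, l, hkl, hk, hl, rfl⟩ | ⟨a, b, hab, rfl⟩
      · exfalso
        revert h0
        apply forall_inT (i := i) (j := j) (P := fun k l =>
          ¬ F.lf (F.qf i j 1 0 1 (-2 * x) (-2 * y) (x ^ 2 + y ^ 2)) (F.u k l) = 0) _ _ _ _ _ _ k l
          hkl hk hl
        · rw [F.lf_qf_0i hi]; norm_num
        · rw [F.lf_qf_i0 hi]; norm_num
        · rw [F.lf_qf_0j hi hij]; norm_num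
        · rw [F.lf_qf_j0 hi hij]; norm_num
        · rw [F.lf_qf_ij hi hij]; norm_num
        · rw [F.lf_qf_ji hi hij]; norm_num
      · rw [hval] at h0
        have e1 : ((a : ℝ) - x) ^ 2 = 0 := by nlinarith [sq_nonneg ((a : ℝ) - x), sq_nonneg ((b : ℝ) - y)]
        have e2 : ((b : ℝ) - y) ^ 2 = 0 := by nlinarith [sq_nonneg ((a : ℝ) - x), sq_nonneg ((b : ℝ) - y)]
        have e3 : (a : ℝ) = x := by
          have := pow_eq_zero_iff (two_ne_zero) |>.1 e1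
          linarith
        have e4 : (b : ℝ) = y := by
          have := pow_eq_zero_iff (two_ne_zero) |>.1 e2
          linarith
        rw [e3, e4]

/-- The coordinates exposing an edge of the truncated simplex. -/
noncomputable def ef (k l : Fin (d + 1)) : Fin (d + 1) → ℝ := fun m =>
  if m = k then 0 else if m = l then 0 else 1

theorem ef_nonneg (k l m : Fin (d + 1)) : 0 ≤ ef k l m := by
  unfold ef
  split_ifs <;> norm_num

theorem ef_le (k l m : Fin (d + 1)) : ef k l m ≤ 1 := by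
  unfold ef
  split_ifs <;> norm_num

theorem ef_eq_one {k l m : Fin (d + 1)} (h1 : m ≠ k) (h2 : m ≠ l) : ef k l m = 1 := by
  simp [ef, h1, h2]

theorem ef_eq_zero {k l m : Fin (d + 1)} (h1 : m = k ∨ m = l) : ef k l m = 0 := by
  rcases h1 with rfl | rfl <;> simp [ef]

theorem lf_ef_kap_pos (k l : Fin (d + 1)) {i j : Fin (d + 1)} (hi : 0 < i) (hij : i < j)
    {x y : ℤ} (hxy : inR x y) : 0 < F.lf (ef k l) (F.kap i j x y) := by
  obtain ⟨⟨a1, a2⟩, ⟨b1, b2⟩, ⟨c1, c2⟩, ⟨e1, e2⟩, ⟨f1, f2⟩, g1, g2⟩ := coord_bounds hxy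
  rw [F.lf_kap]
  have q0 := mul_nonneg (by linarith : (0 : ℝ) ≤ 2 * (y : ℝ) ^ 2 - 13 * x * y + 15 * x ^ 2 +
    1000000 * (3 - x)) (ef_nonneg k l 0)
  have qi := mul_nonneg (by linarith : (0 : ℝ) ≤ 5 * (y : ℝ) ^ 2 - 5 * x * y +
    1000000 * (3 - x)) (ef_nonneg k l i)
  have qj := mul_nonneg (by linarith : (0 : ℝ) ≤ 5 * (x : ℝ) ^ 2 + 5 * x * y +
    1000000 * (3 - x)) (ef_nonneg k l j)
  have ra : -12 ≤ (5 - (x : ℝ) - y) * ef k l (F.ca i j) := by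
    nlinarith [ef_nonneg k l (F.ca i j), ef_le k l (F.ca i j)]
  have rb : -5 ≤ (y : ℝ) * ef k l (F.cb i j) := by
    nlinarith [ef_nonneg k l (F.cb i j), ef_le k l (F.cb i j)]
  have rc : -6 ≤ ((x : ℝ) - 4) * ef k l (F.cc i j) := by
    nlinarith [ef_nonneg k l (F.cc i j), ef_le k l (F.cc i j)]
  have hi0 : i ≠ 0 := hi.ne'
  have hj0 : j ≠ 0 := (hi.trans hij).ne'
  have hji : j ≠ i := hij.ne'
  by_cases h0 : (0 : Fin (d + 1)) = k ∨ (0 : Fin (d + 1)) = l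
  · by_cases h1 : i = k ∨ i = l
    · have h2 : j ≠ k ∧ j ≠ l := by
        constructor
        · rintro rfl
          rcases h0 with h0 | h0
          · exact hj0 h0.symm
          · rcases h1 with h1 | h1
            · exact hji h1.symm
            · exact hi0 (h1.trans h0.symm)
        · rintro rfl
          rcases h0 with h0 | h0
          · rcases h1 with h1 | h1
            · exact hi0 (h1.trans h0.symm)
            · exact hji h1.symm
          · exact hj0 h0.symm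
      rw [ef_eq_one h2.1 h2.2] at qj ⊢
      linarith
    · push Not at h1
      rw [ef_eq_one h1.1 h1.2] at qi ⊢
      linarith
  · push Not at h0
    rw [ef_eq_one h0.1 h0.2] at q0 ⊢
    linarith

theorem ef_verts_nonneg (k l : Fin (d + 1)) : ∀ v ∈ F.verts, 0 ≤ F.lf (ef k l) v := by
  intro v hv
  rcases (F.mem_verts v).1 hv with ⟨k', l', hkl, rfl⟩ | ⟨i', j', x, y, h1, h2, h3, rfl⟩
  · rw [F.lf_u]
    have := ef_nonneg k l k'
    have := mul_nonneg (by linarith [eps_lo k' l'] : 0 ≤ eps k' l') (ef_nonneg k l l')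
    linarith
  · exact (F.lf_ef_kap_pos k l h1 h2 h3).le

theorem ef_verts_zero {k l : Fin (d + 1)} {v : Amb d} (hv : v ∈ F.verts)
    (h0 : F.lf (ef k l) v = 0) : v = F.u k l ∨ v = F.u l k := by
  rcases (F.mem_verts v).1 hv with ⟨k', l', hkl, rfl⟩ | ⟨i', j', x, y, h1, h2, h3, rfl⟩
  · rw [F.lf_u] at h0
    have e0 := eps_lo k' l'
    have h1 := ef_nonneg k l k'
    have h2 := mul_nonneg (by linarith : 0 ≤ eps k' l') (ef_nonneg k l l')
    have h3 : ef k l k' = 0 := by linarith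
    have h4 : eps k' l' * ef k l l' = 0 := by linarith
    have h5 : ef k l l' = 0 := (mul_eq_zero.1 h4).resolve_left (by linarith)
    have h6 : k' = k ∨ k' = l := by
      by_contra hcon
      push Not at hcon
      rw [ef_eq_one hcon.1 hcon.2] at h3
      norm_num at h3
    have h7 : l' = k ∨ l' = l := by
      by_contra hcon
      push Not at hcon
      rw [ef_eq_one hcon.1 hcon.2] at h5
      norm_num at h5
    rcases h6 with rfl | rfl
    · rcases h7 with rfl | rfl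
      · exact absurd rfl hkl
      · exact Or.inl rfl
    · rcases h7 with rfl | rfl
      · exact Or.inr rfl
      · exact absurd rfl hkl
  · exact absurd h0 (F.lf_ef_kap_pos k l h1 h2 h3).ne'

theorem lf_ef_u (k l : Fin (d + 1)) : F.lf (ef k l) (F.u k l) = 0 := by
  rw [F.lf_u, ef_eq_zero (Or.inl rfl), ef_eq_zero (Or.inr rfl)]
  ring

theorem lf_ef_u' (k l : Fin (d + 1)) : F.lf (ef k l) (F.u l k) = 0 := by
  rw [F.lf_u, ef_eq_zero (Or.inl rfl), ef_eq_zero (Or.inr rfl)]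
  ring

/-- The coordinates exposing a facet of the truncated simplex. -/
noncomputable def ff (k : Fin (d + 1)) : Fin (d + 1) → ℝ := fun m =>
  if m = k then -1 else 1 / eps k m

theorem ff_self (k : Fin (d + 1)) : ff k k = -1 := by simp [ff]

theorem ff_ne {k m : Fin (d + 1)} (h : m ≠ k) : ff k m = 1 / eps k m := by simp [ff, h]

theorem ff_lo {k m : Fin (d + 1)} (h : m ≠ k) : 5 / 2 ≤ ff k m := by
  rw [ff_ne h, le_div_iff₀ (by linarith [eps_lo k m])]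
  linarith [eps_hi k m]

theorem ff_hi {k m : Fin (d + 1)} (h : m ≠ k) : ff k m ≤ 10 / 3 := by
  rw [ff_ne h, div_le_iff₀ (by linarith [eps_lo k m])]
  linarith [eps_lo k m]

theorem ff_ge (k m : Fin (d + 1)) : -1 ≤ ff k m := by
  by_cases h : m = k
  · rw [h, ff_self]
  · linarith [ff_lo h]

theorem ff_le (k m : Fin (d + 1)) : ff k m ≤ 10 / 3 := by
  by_cases h : m = k
  · rw [h, ff_self]; norm_num
  · exact ff_hi h

theorem coord_bounds2 {x y : ℤ} (h : inR x y) :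
    (-1000 ≤ 2 * (y : ℝ) ^ 2 - 13 * x * y + 15 * x ^ 2 ∧
      2 * (y : ℝ) ^ 2 - 13 * x * y + 15 * x ^ 2 ≤ 1000) ∧
    (-1000 ≤ 5 * (y : ℝ) ^ 2 - 5 * x * y ∧ 5 * (y : ℝ) ^ 2 - 5 * x * y ≤ 1000) ∧
    (-1000 ≤ 5 * (x : ℝ) ^ 2 + 5 * x * y ∧ 5 * (x : ℝ) ^ 2 + 5 * x * y ≤ 1000) ∧
    (1000000 ≤ 1000000 * (3 - (x : ℝ))) := by
  obtain ⟨h1, h2, h3, h4⟩ := h
  have x1 : (-2 : ℝ) ≤ x := by exact_mod_cast h1
  have x2 : (x : ℝ) ≤ 2 := by exact_mod_cast h2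
  have y1 : (-5 : ℝ) ≤ y := by exact_mod_cast h3
  have y2 : (y : ℝ) ≤ 5 := by exact_mod_cast h4
  have xx : (x : ℝ) ^ 2 ≤ 4 := by nlinarith
  have yy : (y : ℝ) ^ 2 ≤ 25 := by nlinarith
  have xx0 : 0 ≤ (x : ℝ) ^ 2 := sq_nonneg _
  have yy0 : 0 ≤ (y : ℝ) ^ 2 := sq_nonneg _
  have xy1 : (x : ℝ) * y ≤ 29 / 2 := by nlinarith [sq_nonneg ((x : ℝ) - y)]
  have xy2 : -(29 / 2) ≤ (x : ℝ) * y := by nlinarith [sq_nonneg ((x : ℝ) + y)]
  refine ⟨⟨?_, ?_⟩, ⟨?_, ?_⟩, ⟨?_, ?_⟩, ?_⟩ <;> nlinarith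

theorem aux_lo {k f K : ℝ} (hk : -K ≤ k) (hk' : k ≤ K) (hf : -1 ≤ f) (hf' : f ≤ 10 / 3) :
    -(K * (10 / 3)) ≤ k * f := by
  have h1 : |k| ≤ K := abs_le.2 ⟨hk, hk'⟩
  have h2 : |f| ≤ 10 / 3 := abs_le.2 ⟨by linarith, hf'⟩
  have h3 : |k * f| ≤ K * (10 / 3) := by
    rw [abs_mul]
    exact mul_le_mul h1 h2 (abs_nonneg _) ((abs_nonneg _).trans h1)
  exact (abs_le.1 h3).1

theorem big_lo {P c f : ℝ} (hP : 1000000 ≤ P) (hc : -1000 ≤ c) (hf : 5 / 2 ≤ f) :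
    5 / 2 * (P - 1000) ≤ (c + P) * f := by
  nlinarith [mul_nonneg (by linarith : (0 : ℝ) ≤ c + P) (by linarith : (0 : ℝ) ≤ f - 5 / 2)]

theorem small_lo {P c f : ℝ} (hP : 1000000 ≤ P) (hc : -1000 ≤ c) (hc' : c ≤ 1000) (hf : -1 ≤ f) :
    -(P + 1000) ≤ (c + P) * f := by
  nlinarith [mul_nonneg (by linarith : (0 : ℝ) ≤ c + P) (by linarith : (0 : ℝ) ≤ f + 1)]

theorem six_pos {P t0 ti tj ta tb tc : ℝ} (hP : 1000000 ≤ P) (ra : -(12 * (10 / 3)) ≤ ta)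
    (rb : -(5 * (10 / 3)) ≤ tb) (rc : -(6 * (10 / 3)) ≤ tc) (n0 : -(P + 1000) ≤ t0)
    (ni : -(P + 1000) ≤ ti) (nj : -(P + 1000) ≤ tj)
    (h : (5 / 2 * (P - 1000) ≤ ti ∧ 5 / 2 * (P - 1000) ≤ tj) ∨
      (5 / 2 * (P - 1000) ≤ t0 ∧ 5 / 2 * (P - 1000) ≤ tj) ∨
      (5 / 2 * (P - 1000) ≤ t0 ∧ 5 / 2 * (P - 1000) ≤ ti)) :
    0 < t0 + ti + tj + ta + tb + tc := by
  rcases h with ⟨h1, h2⟩ | ⟨h1, h2⟩ | ⟨h1, h2⟩ <;> linarith

theorem lf_ff_kap_pos (k : Fin (d + 1)) {i j : Fin (d + 1)} (hi : 0 < i) (hij : i < j)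
    {x y : ℤ} (hxy : inR x y) : 0 < F.lf (ff k) (F.kap i j x y) := by
  obtain ⟨_, _, _, ⟨e1, e2⟩, ⟨f1, f2⟩, g1, g2⟩ := coord_bounds hxy
  obtain ⟨⟨a1, a2⟩, ⟨b1, b2⟩, ⟨c1, c2⟩, hP⟩ := coord_bounds2 hxy
  rw [F.lf_kap]
  have hi0 : i ≠ 0 := hi.ne'
  have hj0 : j ≠ 0 := (hi.trans hij).ne'
  have hji : j ≠ i := hij.ne'
  refine six_pos hP (aux_lo e1 e2 (ff_ge k (F.ca i j)) (ff_le k (F.ca i j)))
    (aux_lo f1 f2 (ff_ge k (F.cb i j)) (ff_le k (F.cb i j)))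
    (aux_lo g1 g2 (ff_ge k (F.cc i j)) (ff_le k (F.cc i j)))
    (small_lo hP a1 a2 (ff_ge k 0)) (small_lo hP b1 b2 (ff_ge k i)) (small_lo hP c1 c2 (ff_ge k j)) ?_
  by_cases h0 : (0 : Fin (d + 1)) = k
  · left
    exact ⟨big_lo hP b1 (ff_lo (by rw [← h0]; exact hi0)), big_lo hP c1 (ff_lo (by rw [← h0]; exact hj0))⟩
  · right
    by_cases h1 : i = k
    · left
      exact ⟨big_lo hP a1 (ff_lo h0), big_lo hP c1 (ff_lo (by rw [← h1]; exact hji))⟩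
    · right
      exact ⟨big_lo hP a1 (ff_lo h0), big_lo hP b1 (ff_lo h1)⟩

theorem lf_ff_u_pos {k k' : Fin (d + 1)} (l : Fin (d + 1)) (h : k' ≠ k) :
    0 < F.lf (ff k) (F.u k' l) := by
  rw [F.lf_u]
  have h1 := ff_lo h
  have h2 := ff_ge k l
  have h3 := eps_lo k' l
  have h4 := eps_hi k' l
  nlinarith

theorem lf_ff_u {k l : Fin (d + 1)} (h : l ≠ k) : F.lf (ff k) (F.u k l) = 0 := by
  rw [F.lf_u, ff_self, ff_ne h]
  have h3 := eps_lo k l
  field_simp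
  norm_num

theorem ff_verts_nonneg (k : Fin (d + 1)) : ∀ v ∈ F.verts, 0 ≤ F.lf (ff k) v := by
  intro v hv
  rcases (F.mem_verts v).1 hv with ⟨k', l', hkl, rfl⟩ | ⟨i', j', x, y, h1, h2, h3, rfl⟩
  · by_cases h : k' = k
    · rw [h, F.lf_ff_u (by rw [← h]; exact hkl.symm)]
    · exact (F.lf_ff_u_pos l' h).le
  · exact (F.lf_ff_kap_pos k h1 h2 h3).le

theorem ff_verts_zero {k : Fin (d + 1)} {v : Amb d} (hv : v ∈ F.verts)
    (h0 : F.lf (ff k) v = 0) : ∃ l, l ≠ k ∧ v = F.u k l := by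
  rcases (F.mem_verts v).1 hv with ⟨k', l', hkl, rfl⟩ | ⟨i', j', x, y, h1, h2, h3, rfl⟩
  · by_cases h : k' = k
    · refine ⟨l', ?_, ?_⟩
      · rw [← h]; exact hkl.symm
      · rw [h]
    · exact absurd h0 (F.lf_ff_u_pos l' h).ne'
  · exact absurd h0 (F.lf_ff_kap_pos k h1 h2 h3).ne'

theorem u_vertex {k l : Fin (d + 1)} (h : k ≠ l) :
    IsFace (F.verts : Set (Amb d)) {F.u k l} := by
  have h1 : IsFace (F.verts : Set (Amb d)) {v | v ∈ (F.verts : Set (Amb d)) ∧ F.lf (ef k l) v = 0} :=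
    ⟨F.lf (ef k l), F.ef_verts_nonneg k l, rfl⟩
  have h2 : IsFace (F.verts : Set (Amb d)) {v | v ∈ (F.verts : Set (Amb d)) ∧ F.lf (ff k) v = 0} :=
    ⟨F.lf (ff k), F.ff_verts_nonneg k, rfl⟩
  have h3 := h1.inter h2
  convert h3 using 1
  ext v
  constructor
  · rintro rfl
    exact ⟨⟨F.u_mem h, F.lf_ef_u k l⟩, F.u_mem h, F.lf_ff_u h.symm⟩
  · rintro ⟨⟨hv, h4⟩, _, h5⟩
    rcases F.ef_verts_zero hv h4 with rfl | rfl
    · rfl
    · exact absurd h5 (F.lf_ff_u_pos k h.symm).ne'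

theorem vertex {v : Amb d} (hv : v ∈ F.verts) : IsFace (F.verts : Set (Amb d)) {v} := by
  rcases (F.mem_verts v).1 hv with ⟨k', l', hkl, rfl⟩ | ⟨i', j', x, y, h1, h2, h3, rfl⟩
  · exact F.u_vertex hkl
  · exact F.kap_vertex h1 h2 h3

end Frame

end Pool.Agent.Helper101_Scrib
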