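import Pool.Agent.Helper101_Scrib.GadgetInst

/-!
# The common frame of a realization
-/

namespace Pool.Agent.Helper101_Scrib

open Submodule

variable {d : ℕ}

namespace Frame

section

variable {F : Frame d} {X : Amb d → Amb d} (hX : Rz F.verts X)

include hX

/-- The six relations of one gadget, with nonzero coefficients. -/
theorem frame_nonzero {i j : Fin (d + 1)} (hi : 0 < i) (hij : i < j) :
    ∃ e0 ei ej : Amb d, ∃ a1 a2 a3 a4 a5 a6 : ℝ,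
      a1 ≠ 0 ∧ a2 ≠ 0 ∧ a3 ≠ 0 ∧ a4 ≠ 0 ∧ a5 ≠ 0 ∧ a6 ≠ 0 ∧
      e0 + (1 / 3 : ℝ) • ej = a1 • X (F.u 0 j) ∧ ei + (2 / 5 : ℝ) • e0 = a2 • X (F.u i 0) ∧
      ej + (2 / 5 : ℝ) • e0 = a3 • X (F.u j 0) ∧ e0 + (1 / 3 : ℝ) • ei = a4 • X (F.u 0 i) ∧
      ei + (3 / 10 : ℝ) • ej = a5 • X (F.u i j) ∧ ej + (3 / 10 : ℝ) • ei = a6 • X (F.u j i) := by
  obtain ⟨gL, gT, lH, G⟩ := gadget hX hi hij
  obtain ⟨M1, M12, M2, c1, c2, c3, c4, c5, c6, h1, h2, h3, h4, h5, h6, r1, r2, r3, r4, r5, r6⟩ :=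
    G.rigid
  refine ⟨(1 / 26 : ℝ) • (M1 - (2 : ℝ) • M12 - M2),
    (1 / 5 : ℝ) • (M2 - (2 / 26 : ℝ) • (M1 - (2 : ℝ) • M12 - M2)),
    (1 / 5 : ℝ) • (M1 - (15 / 26 : ℝ) • (M1 - (2 : ℝ) • M12 - M2)),
    c1 / 15, c2 / 5, c3 / 10, c4 / 30, c5 / 100, c6 / 50,
    by positivity, by positivity, by positivity, by positivity, by positivity, by positivity,
    ?_, ?_, ?_, ?_, ?_, ?_⟩
  · linear_combination (norm := module) (1 / 15 : ℝ) • r1
  · linear_combination (norm := module) (1 / 5 : ℝ) • r2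
  · linear_combination (norm := module) (1 / 10 : ℝ) • r3
  · linear_combination (norm := module) (1 / 30 : ℝ) • r4
  · linear_combination (norm := module) (1 / 100 : ℝ) • r5
  · linear_combination (norm := module) (1 / 50 : ℝ) • r6

/-- The functional exposing an edge in the realization. -/
theorem edge_fun {k l : Fin (d + 1)} (h : k ≠ l) : ∃ f : Amb d →ₗ[ℝ] ℝ,
    f (X (F.u k l)) = 0 ∧ f (X (F.u l k)) = 0 ∧
    ∀ m n, m ≠ n → ¬ (m = k ∧ n = l) → ¬ (m = l ∧ n = k) → 0 < f (X (F.u m n)) := by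
  obtain ⟨f, hf, hf0, _⟩ := hX (F.lf (ef k l)) (F.ef_verts_nonneg k l)
  refine ⟨f, (hf0 _ (F.u_mem h)).2 (F.lf_ef_u k l), (hf0 _ (F.u_mem h.symm)).2 (F.lf_ef_u' k l), ?_⟩
  intro m n hmn h1 h2
  refine lt_of_le_of_ne (hf _ (F.u_mem hmn)) (fun h0 => ?_)
  have h3 := (hf0 _ (F.u_mem hmn)).1 h0.symm
  rcases F.ef_verts_zero (F.u_mem hmn) h3 with h4 | h4
  · exact h1 (F.u_inj hmn h h4)
  · exact h2 (F.u_inj hmn h.symm h4)

/-- The functional exposing the facet of index `k` in the realization. -/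
theorem facet_fun (k : Fin (d + 1)) : ∃ f : Amb d →ₗ[ℝ] ℝ,
    (∀ l, l ≠ k → f (X (F.u k l)) = 0) ∧
    ∀ m n, m ≠ n → m ≠ k → 0 < f (X (F.u m n)) := by
  obtain ⟨f, hf, hf0, _⟩ := hX (F.lf (ff k)) (F.ff_verts_nonneg k)
  refine ⟨f, fun l hl => (hf0 _ (F.u_mem hl.symm)).2 (F.lf_ff_u hl), ?_⟩
  intro m n hmn h1
  refine lt_of_le_of_ne (hf _ (F.u_mem hmn)) (fun h0 => ?_)
  have h3 := (hf0 _ (F.u_mem hmn)).1 h0.symm
  obtain ⟨l, hl, h4⟩ := F.ff_verts_zero (F.u_mem hmn) h3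
  exact h1 (F.u_inj hmn hl.symm h4).1

end

/-- Six positive relations and a normalization. -/
def Fr (F : Frame d) (X : Amb d → Amb d) (h0 : Amb d →ₗ[ℝ] ℝ) (i j : Fin (d + 1))
    (e0 ei ej : Amb d) : Prop :=
  h0 e0 = -1 ∧ (∃ a : ℝ, 0 < a ∧ e0 + (1 / 3 : ℝ) • ei = a • X (F.u 0 i)) ∧
  (∃ a : ℝ, 0 < a ∧ e0 + (1 / 3 : ℝ) • ej = a • X (F.u 0 j)) ∧
  (∃ a : ℝ, 0 < a ∧ ei + (2 / 5 : ℝ) • e0 = a • X (F.u i 0)) ∧
  (∃ a : ℝ, 0 < a ∧ ej + (2 / 5 : ℝ) • e0 = a • X (F.u j 0)) ∧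
  (∃ a : ℝ, 0 < a ∧ ei + (3 / 10 : ℝ) • ej = a • X (F.u i j)) ∧
  (∃ a : ℝ, 0 < a ∧ ej + (3 / 10 : ℝ) • ei = a • X (F.u j i))

theorem Fr.symm {F : Frame d} {X : Amb d → Amb d} {h0 : Amb d →ₗ[ℝ] ℝ} {i j : Fin (d + 1)}
    {e0 ei ej : Amb d} (h : F.Fr X h0 i j e0 ei ej) : F.Fr X h0 j i e0 ej ei :=
  ⟨h.1, h.2.2.1, h.2.1, h.2.2.2.2.1, h.2.2.2.1, h.2.2.2.2.2.2, h.2.2.2.2.2.1⟩

theorem sign_aux {a x y c : ℝ} (h : a * x = c * y) (hx : 0 < x) (hc : 0 < c) :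
    (0 < a → 0 < y) ∧ (0 < y → 0 < a) := by
  constructor
  · intro ha
    by_contra hy
    have := mul_pos ha hx
    have := mul_nonpos_of_nonneg_of_nonpos hc.le (not_lt.1 hy)
    linarith
  · intro hy
    by_contra ha
    have := mul_pos hc hy
    have := mul_nonpos_of_nonpos_of_nonneg (not_lt.1 ha) hx.le
    linarith

section

variable {F : Frame d} {X : Amb d → Amb d} (hX : Rz F.verts X) {h0 : Amb d →ₗ[ℝ] ℝ}
  (hz : ∀ l, l ≠ 0 → h0 (X (F.u 0 l)) = 0)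
  (hp : ∀ m n, m ≠ n → m ≠ 0 → 0 < h0 (X (F.u m n)))

include hX hz hp

theorem exists_fr_lt {i j : Fin (d + 1)} (hi : 0 < i) (hij : i < j) :
    ∃ e0 ei ej, F.Fr X h0 i j e0 ei ej := by
  have hj0 : j ≠ 0 := (hi.trans hij).ne'
  have hi0 : i ≠ 0 := hi.ne'
  have hji : j ≠ i := hij.ne'
  obtain ⟨e0, ei, ej, a1, a2, a3, a4, a5, a6, n1, n2, n3, n4, n5, n6, r1, r2, r3, r4, r5, r6⟩ :=
    frame_nonzero hX hi hij
  -- all coefficients have the sign of `a5`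
  obtain ⟨f, f1, f2, fpos⟩ := edge_fun hX (F := F) (k := 0) (l := i) hi0.symm
  obtain ⟨g, g1, g2, gpos⟩ := edge_fun hX (F := F) (k := 0) (l := j) hj0.symm
  have s1 := congrArg f r1
  have s2 := congrArg f r2
  have s3 := congrArg f r3
  have s4 := congrArg f r4
  have s5 := congrArg f r5
  have s6 := congrArg f r6
  have t1 := congrArg g r1
  have t2 := congrArg g r2
  have t3 := congrArg g r3
  have t4 := congrArg g r4
  have t5 := congrArg g r5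
  have t6 := congrArg g r6
  simp only [map_add, map_smul, smul_eq_mul] at s1 s2 s3 s4 s5 s6 t1 t2 t3 t4 t5 t6
  rw [f2, mul_zero] at s2
  rw [f1, mul_zero] at s4
  rw [g2, mul_zero] at t3
  rw [g1, mul_zero] at t1
  have fe0 : f e0 = 0 := by linarith
  have fei : f ei = 0 := by linarith
  have ge0 : g e0 = 0 := by linarith
  have gej : g ej = 0 := by linarith
  rw [fe0] at s1 s3
  rw [fei] at s5 s6
  rw [ge0] at t2 t4
  rw [gej] at t5 t6
  have p1 := fpos 0 j hj0.symm (fun h => hji h.2) (fun h => hi0 h.1.symm)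
  have p3 := fpos j 0 hj0 (fun h => hj0 h.1) (fun h => hji h.1)
  have p5 := fpos i j hji.symm (fun h => hi0 h.1) (fun h => hj0 h.2)
  have p6 := fpos j i hji (fun h => hj0 h.1) (fun h => hji h.1)
  have q2 := gpos i 0 hi0 (fun h => hi0 h.1) (fun h => hji h.1.symm)
  have q4 := gpos 0 i hi0.symm (fun h => hji h.2.symm) (fun h => hj0 h.1.symm)
  have q5 := gpos i j hji.symm (fun h => hi0 h.1) (fun h => hji h.1.symm)
  have q6 := gpos j i hji (fun h => hj0 h.1) (fun h => hi0 h.2)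
  have u1 : a1 * f (X (F.u 0 j)) = (1 / 3) * f ej := by linarith
  have u3 : a3 * f (X (F.u j 0)) = 1 * f ej := by linarith
  have u5 : a5 * f (X (F.u i j)) = (3 / 10) * f ej := by linarith
  have u6 : a6 * f (X (F.u j i)) = 1 * f ej := by linarith
  have v2 : a2 * g (X (F.u i 0)) = 1 * g ei := by linarith
  have v4 : a4 * g (X (F.u 0 i)) = (1 / 3) * g ei := by linarith
  have v5 : a5 * g (X (F.u i j)) = 1 * g ei := by linarith
  have u1' : -a1 * f (X (F.u 0 j)) = (1 / 3) * (-f ej) := by linarith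
  have u3' : -a3 * f (X (F.u j 0)) = 1 * (-f ej) := by linarith
  have u5' : -a5 * f (X (F.u i j)) = (3 / 10) * (-f ej) := by linarith
  have u6' : -a6 * f (X (F.u j i)) = 1 * (-f ej) := by linarith
  have v2' : -a2 * g (X (F.u i 0)) = 1 * (-g ei) := by linarith
  have v4' : -a4 * g (X (F.u 0 i)) = (1 / 3) * (-g ei) := by linarith
  have v5' : -a5 * g (X (F.u i j)) = 1 * (-g ei) := by linarith
  -- make all coefficients positive
  obtain ⟨e0, ei, ej, a1, a2, a3, a4, a5, a6, n1, n2, n3, n4, n5, n6, r1, r2, r3, r4, r5, r6⟩ :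
      ∃ e0 ei ej : Amb d, ∃ a1 a2 a3 a4 a5 a6 : ℝ,
      0 < a1 ∧ 0 < a2 ∧ 0 < a3 ∧ 0 < a4 ∧ 0 < a5 ∧ 0 < a6 ∧
      e0 + (1 / 3 : ℝ) • ej = a1 • X (F.u 0 j) ∧ ei + (2 / 5 : ℝ) • e0 = a2 • X (F.u i 0) ∧
      ej + (2 / 5 : ℝ) • e0 = a3 • X (F.u j 0) ∧ e0 + (1 / 3 : ℝ) • ei = a4 • X (F.u 0 i) ∧
      ei + (3 / 10 : ℝ) • ej = a5 • X (F.u i j) ∧
      ej + (3 / 10 : ℝ) • ei = a6 • X (F.u j i) := by
    rcases lt_or_gt_of_ne n5 with h | h
    · have w := (sign_aux u5' p5 (by norm_num)).1 (by linarith)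
      have w' := (sign_aux v5' q5 (by norm_num)).1 (by linarith)
      refine ⟨-e0, -ei, -ej, -a1, -a2, -a3, -a4, -a5, -a6,
        (sign_aux u1' p1 (by norm_num)).2 w, (sign_aux v2' q2 (by norm_num)).2 w',
        (sign_aux u3' p3 (by norm_num)).2 w, (sign_aux v4' q4 (by norm_num)).2 w',
        by linarith, (sign_aux u6' p6 (by norm_num)).2 w, ?_, ?_, ?_, ?_, ?_, ?_⟩
      · linear_combination (norm := module) (-1 : ℝ) • r1
      · linear_combination (norm := module) (-1 : ℝ) • r2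
      · linear_combination (norm := module) (-1 : ℝ) • r3
      · linear_combination (norm := module) (-1 : ℝ) • r4
      · linear_combination (norm := module) (-1 : ℝ) • r5
      · linear_combination (norm := module) (-1 : ℝ) • r6
    · have w := (sign_aux u5 p5 (by norm_num)).1 h
      have w' := (sign_aux v5 q5 (by norm_num)).1 h
      exact ⟨e0, ei, ej, a1, a2, a3, a4, a5, a6,
        (sign_aux u1 p1 (by norm_num)).2 w, (sign_aux v2 q2 (by norm_num)).2 w',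
        (sign_aux u3 p3 (by norm_num)).2 w, (sign_aux v4 q4 (by norm_num)).2 w',
        h, (sign_aux u6 p6 (by norm_num)).2 w, r1, r2, r3, r4, r5, r6⟩
  -- normalize
  have x4 := congrArg h0 r4
  have x2 := congrArg h0 r2
  simp only [map_add, map_smul, smul_eq_mul] at x4 x2
  rw [hz i hi0, mul_zero] at x4
  have x5 := mul_pos n2 (hp i 0 hi0 hi0)
  have hneg : h0 e0 < 0 := by linarith
  obtain ⟨c, hc, hce⟩ : ∃ c : ℝ, 0 < c ∧ c * h0 e0 = -1 := by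
    refine ⟨(-h0 e0)⁻¹, inv_pos.2 (by linarith), ?_⟩
    rw [inv_neg, neg_mul, inv_mul_cancel₀ hneg.ne]
  refine ⟨c • e0, c • ei, c • ej, ?_, ⟨c * a4, mul_pos hc n4, ?_⟩, ⟨c * a1, mul_pos hc n1, ?_⟩,
    ⟨c * a2, mul_pos hc n2, ?_⟩, ⟨c * a3, mul_pos hc n3, ?_⟩, ⟨c * a5, mul_pos hc n5, ?_⟩,
    ⟨c * a6, mul_pos hc n6, ?_⟩⟩
  · rw [map_smul, smul_eq_mul, hce]
  · linear_combination (norm := module) c • r4
  · linear_combination (norm := module) c • r1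
  · linear_combination (norm := module) c • r2
  · linear_combination (norm := module) c • r3
  · linear_combination (norm := module) c • r5
  · linear_combination (norm := module) c • r6

theorem exists_fr {i j : Fin (d + 1)} (hi : i ≠ 0) (hj : j ≠ 0) (hij : i ≠ j) :
    ∃ e0 ei ej, F.Fr X h0 i j e0 ei ej := by
  rcases lt_or_gt_of_ne hij with h | h
  · exact exists_fr_lt hX hz hp (Fin.pos_of_ne_zero hi) h
  · obtain ⟨e0, ei, ej, h⟩ := exists_fr_lt hX hz hp (Fin.pos_of_ne_zero hj) h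
    exact ⟨e0, ej, ei, h.symm⟩

omit hX in
/-- The coefficient of the relation at `u i 0` does not depend on the frame. -/
theorem Fr.coef {i j : Fin (d + 1)} (hi : i ≠ 0) {e0 ei ej : Amb d}
    (h : F.Fr X h0 i j e0 ei ej) :
    ei + (2 / 5 : ℝ) • e0 = ((13 / 5) / h0 (X (F.u i 0))) • X (F.u i 0) := by
  obtain ⟨h1, ⟨a, ha, ra⟩, _, ⟨b, hb, rb⟩, _⟩ := h
  have x1 := congrArg h0 ra
  have x2 := congrArg h0 rb
  simp only [map_add, map_smul, smul_eq_mul] at x1 x2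
  rw [hz i hi, mul_zero, h1] at x1
  rw [h1] at x2
  have hpos := hp i 0 hi hi
  rw [rb]
  congr 1
  rw [eq_div_iff hpos.ne']
  linarith

omit hX in
/-- Two frames sharing an index have close first vectors. -/
theorem Fr.diff {i j k : Fin (d + 1)} (hi : i ≠ 0) {e0 ei ej f0 fi fk : Amb d}
    (h : F.Fr X h0 i j e0 ei ej) (h' : F.Fr X h0 i k f0 fi fk) :
    ∃ α : ℝ, e0 - f0 = α • X (F.u 0 i) := by
  have r1 := h.coef hz hp hi
  have r2 := h'.coef hz hp hi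
  obtain ⟨_, ⟨a, _, ra⟩, _⟩ := h
  obtain ⟨_, ⟨b, _, rb⟩, _⟩ := h'
  refine ⟨(15 / 13) * (a - b), ?_⟩
  linear_combination (norm := module) (15 / 13 : ℝ) • (ra - rb) - (5 / 13 : ℝ) • (r1 - r2)

theorem Fr.eq_of_three {i j k : Fin (d + 1)} (hi : i ≠ 0) (hj : j ≠ 0) (hk : k ≠ 0)
    (hij : i ≠ j) (hik : i ≠ k) (hjk : j ≠ k) {e0 ei ej f0 fi fk : Amb d}
    (h : F.Fr X h0 i j e0 ei ej) (h' : F.Fr X h0 i k f0 fi fk) : e0 = f0 := by
  obtain ⟨g0, gj, gk, h''⟩ := exists_fr hX hz hp hj hk hjk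
  obtain ⟨α, hα⟩ := h.diff hz hp hi h'
  obtain ⟨β, hβ⟩ := h'.symm.diff hz hp hk h''.symm
  obtain ⟨γ, hγ⟩ := h''.diff hz hp hj h.symm
  have hsum : α • X (F.u 0 i) + β • X (F.u 0 k) + γ • X (F.u 0 j) = 0 := by
    rw [← hα, ← hβ, ← hγ]
    abel
  have := hX.indep3 (fun v hv => F.vertex hv) (F.u_mem hi.symm) (F.u_mem hk.symm)
    (F.u_mem hj.symm) (fun h => hik (F.u_inj hi.symm hk.symm h).2)
    (fun h => hij (F.u_inj hi.symm hj.symm h).2) (fun h => hjk (F.u_inj hk.symm hj.symm h).2.symm)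
    hsum
  rw [this.1, zero_smul] at hα
  exact sub_eq_zero.1 hα

end

end Frame

end Pool.Agent.Helper101_Scrib
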