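import Pool.Agent.Helper101_Scrib.Poly

/-!
# Every realization of the polytope contains the gadgets
-/

namespace Pool.Agent.Helper101_Scrib

open Submodule

variable {d : ℕ}

namespace Frame

variable (F : Frame d)

theorem u_inj {k l k' l' : Fin (d + 1)} (h : k ≠ l) (h' : k' ≠ l')
    (hu : F.u k l = F.u k' l') : k = k' ∧ l = l' := by
  have hk : k' = k := by
    by_contra hne
    have h1 := F.lf_ff_u_pos (k := k) l' hne
    rw [← hu, F.lf_ff_u h.symm] at h1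
    exact lt_irrefl _ h1
  subst hk
  refine ⟨rfl, ?_⟩
  by_contra hne
  have h1 := F.lf_ef_u k' l
  rw [hu, F.lf_u, ef_eq_zero (Or.inl rfl), ef_eq_one h'.symm (Ne.symm hne)] at h1
  have := eps_lo k' l'
  linarith

theorem line_L4 {X : Amb d → Amb d} (hX : Rz F.verts X) {i j : Fin (d + 1)} (hi : 0 < i)
    (hij : i < j) (p q g c x0 y0 : ℝ) {ks ls : Fin (d + 1)} (hks : inT i j ks) (hls : inT i j ls)
    (hkls : ks ≠ ls)
    (hQ : (2 * q ^ 2 - 13 * p * q + 15 * p ^ 2) • F.b 0 + (5 * q ^ 2 - 5 * p * q) • F.b i +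
        (5 * p ^ 2 + 5 * p * q) • F.b j = c • F.u ks ls)
    (hpar : ∀ x y : ℝ, q * x - p * y + g = 0 → ∃ t, x = x0 + t * p ∧ y = y0 + t * q)
    (hTB : TB i j (F.qf i j (q ^ 2) (-2 * p * q) (p ^ 2) (2 * q * g) (-2 * p * g) (g ^ 2)))
    (hσ : ∀ k l, k ≠ l → inT i j k → inT i j l →
      F.lf (F.qf i j (q ^ 2) (-2 * p * q) (p ^ 2) (2 * q * g) (-2 * p * g) (g ^ 2)) (F.u k l) = 0 →
      F.u k l = F.u ks ls)
    (hσ0 : F.lf (F.qf i j (q ^ 2) (-2 * p * q) (p ^ 2) (2 * q * g) (-2 * p * g) (g ^ 2))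
      (F.u ks ls) = 0)
    {x1 y1 x2 y2 x3 y3 : ℤ} (r1 : inR x1 y1) (r2 : inR x2 y2) (r3 : inR x3 y3)
    (l1 : q * x1 - p * y1 + g = 0) (l2 : q * x2 - p * y2 + g = 0) (l3 : q * x3 - p * y3 + g = 0)
    (n12 : ¬ (x1 = x2 ∧ y1 = y2)) (n13 : ¬ (x1 = x3 ∧ y1 = y3)) (n23 : ¬ (x2 = x3 ∧ y2 = y3)) :
    L4 (X (F.kap i j x1 y1)) (X (F.kap i j x2 y2)) (X (F.kap i j x3 y3)) (X (F.u ks ls)) := by
  obtain ⟨h1, h2, h3⟩ := F.line_generic hi hij p q g c x0 y0 (F.u ks ls) hQ hpar hTB hσ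
  have inj : ∀ a b a' b' : ℤ, ¬ (a = a' ∧ b = b') → F.kap i j a b ≠ F.kap i j a' b' := by
    intro a b a' b' hne h
    obtain ⟨e1, e2⟩ := F.kap_inj h
    exact hne ⟨by exact_mod_cast e1, by exact_mod_cast e2⟩
  refine hX.rel4 (fun v hv => F.vertex hv) _ h1 h2 (F.kap_mem hi hij r1) (F.kap_mem hi hij r2)
    (F.kap_mem hi hij r3) (F.u_mem hkls) ?_ ?_ ?_ hσ0 (inj _ _ _ _ n12) (inj _ _ _ _ n13)
    (F.kap_ne_u hks hls _ _) (inj _ _ _ _ n23) (F.kap_ne_u hks hls _ _) (F.kap_ne_u hks hls _ _)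
  · rw [h3, l1]; norm_num
  · rw [h3, l2]; norm_num
  · rw [h3, l3]; norm_num

section

variable {F} {X : Amb d → Amb d} (hX : Rz F.verts X) {i j : Fin (d + 1)} (hi : 0 < i) (hij : i < j)

include hX hi hij

theorem rowL4 {x1 x2 x3 y : ℤ} (r1 : inR x1 y) (r2 : inR x2 y) (r3 : inR x3 y)
    (n12 : x1 ≠ x2) (n13 : x1 ≠ x3) (n23 : x2 ≠ x3) :
    L4 (X (F.kap i j x1 y)) (X (F.kap i j x2 y)) (X (F.kap i j x3 y)) (X (F.u 0 j)) := by
  have hy1 : (-5 : ℝ) ≤ y := by exact_mod_cast r1.2.2.1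
  have hy2 : (y : ℝ) ≤ 5 := by exact_mod_cast r1.2.2.2
  refine F.line_L4 hX hi hij 1 0 y 15 0 y (Or.inl rfl) (Or.inr (Or.inr rfl))
    (hi.trans hij).ne ?_ ?_ ?_ ?_ ?_ r1 r2 r3 ?_ ?_ ?_ ?_ ?_ ?_
  · unfold u; rw [eps_0]; module
  · intro x y' h
    exact ⟨x, by ring, by linarith⟩
  · apply F.qf_TB <;> nlinarith
  · apply forall_inT
    · rw [F.lf_qf_0i hi]; norm_num
    · rw [F.lf_qf_i0 hi]; norm_num
    · intro _; rfl
    · rw [F.lf_qf_j0 hi hij]; norm_num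
    · rw [F.lf_qf_ij hi hij]; norm_num
    · rw [F.lf_qf_ji hi hij]; norm_num
  · rw [F.lf_qf_0j hi hij]; norm_num
  · ring
  · ring
  · ring
  · omega
  · omega
  · omega

theorem colL4 {x y1 y2 y3 : ℤ} (r1 : inR x y1) (r2 : inR x y2) (r3 : inR x y3)
    (n12 : y1 ≠ y2) (n13 : y1 ≠ y3) (n23 : y2 ≠ y3) :
    L4 (X (F.kap i j x y1)) (X (F.kap i j x y2)) (X (F.kap i j x y3)) (X (F.u i 0)) := by
  have hx1 : (-2 : ℝ) ≤ x := by exact_mod_cast r1.1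
  have hx2 : (x : ℝ) ≤ 2 := by exact_mod_cast r1.2.1
  refine F.line_L4 hX hi hij 0 1 (-x) 5 x 0 (Or.inr (Or.inl rfl)) (Or.inl rfl)
    hi.ne' ?_ ?_ ?_ ?_ ?_ r1 r2 r3 ?_ ?_ ?_ ?_ ?_ ?_
  · unfold u; rw [eps_l0 hi.ne']; module
  · intro x' y' h
    exact ⟨y', by linarith, by ring⟩
  · apply F.qf_TB <;> nlinarith
  · apply forall_inT
    · rw [F.lf_qf_0i hi]; norm_num
    · intro _; rfl
    · rw [F.lf_qf_0j hi hij]; norm_num
    · rw [F.lf_qf_j0 hi hij]; norm_num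
    · rw [F.lf_qf_ij hi hij]; norm_num
    · rw [F.lf_qf_ji hi hij]; norm_num
  · rw [F.lf_qf_i0 hi]; norm_num
  · ring
  · ring
  · ring
  · omega
  · omega
  · omega

theorem diagL4 {x1 y1 x2 y2 x3 y3 : ℤ} (r1 : inR x1 y1) (r2 : inR x2 y2) (r3 : inR x3 y3)
    (e12 : y1 - x1 = y2 - x2) (e23 : y2 - x2 = y3 - x3)
    (n12 : x1 ≠ x2) (n13 : x1 ≠ x3) (n23 : x2 ≠ x3) :
    L4 (X (F.kap i j x1 y1)) (X (F.kap i j x2 y2)) (X (F.kap i j x3 y3)) (X (F.u j 0)) := by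
  obtain ⟨g, hg⟩ : ∃ g : ℤ, g = y1 - x1 := ⟨_, rfl⟩
  have hg1 : (-7 : ℝ) ≤ g := by
    have : (-7 : ℤ) ≤ g := by
      obtain ⟨a1, a2, a3, a4⟩ := r1
      omega
    exact_mod_cast this
  have hg2 : (g : ℝ) ≤ 7 := by
    have : g ≤ 7 := by
      obtain ⟨a1, a2, a3, a4⟩ := r1
      omega
    exact_mod_cast this
  refine F.line_L4 hX hi hij 1 1 g 10 0 g (Or.inr (Or.inr rfl)) (Or.inl rfl)
    (hi.trans hij).ne' ?_ ?_ ?_ ?_ ?_ r1 r2 r3 ?_ ?_ ?_ ?_ ?_ ?_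
  · unfold u; rw [eps_l0 (hi.trans hij).ne']; module
  · intro x' y' h
    exact ⟨x', by ring, by linarith⟩
  · apply F.qf_TB <;> nlinarith
  · apply forall_inT
    · rw [F.lf_qf_0i hi]; norm_num
    · rw [F.lf_qf_i0 hi]; norm_num
    · rw [F.lf_qf_0j hi hij]; norm_num
    · intro _; rfl
    · rw [F.lf_qf_ij hi hij]; norm_num
    · rw [F.lf_qf_ji hi hij]; norm_num
  · rw [F.lf_qf_j0 hi hij]; norm_num
  · rw [hg]; push_cast; ring
  · have : g = y2 - x2 := by omega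
    rw [this]; push_cast; ring
  · have : g = y3 - x3 := by omega
    rw [this]; push_cast; ring
  · omega
  · omega
  · omega

theorem antiL4 {x1 y1 x2 y2 x3 y3 : ℤ} (r1 : inR x1 y1) (r2 : inR x2 y2) (r3 : inR x3 y3)
    (e12 : x1 + y1 = x2 + y2) (e23 : x2 + y2 = x3 + y3)
    (n12 : x1 ≠ x2) (n13 : x1 ≠ x3) (n23 : x2 ≠ x3) :
    L4 (X (F.kap i j x1 y1)) (X (F.kap i j x2 y2)) (X (F.kap i j x3 y3)) (X (F.u 0 i)) := by
  obtain ⟨g, hg⟩ : ∃ g : ℤ, g = x1 + y1 := ⟨_, rfl⟩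
  have hg1 : (-7 : ℝ) ≤ g := by
    have : (-7 : ℤ) ≤ g := by
      obtain ⟨a1, a2, a3, a4⟩ := r1
      omega
    exact_mod_cast this
  have hg2 : (g : ℝ) ≤ 7 := by
    have : g ≤ 7 := by
      obtain ⟨a1, a2, a3, a4⟩ := r1
      omega
    exact_mod_cast this
  refine F.line_L4 hX hi hij 1 (-1) g 30 0 g (Or.inl rfl) (Or.inr (Or.inl rfl))
    hi.ne ?_ ?_ ?_ ?_ ?_ r1 r2 r3 ?_ ?_ ?_ ?_ ?_ ?_
  · unfold u; rw [eps_0]; module
  · intro x' y' h
    exact ⟨x', by ring, by linarith⟩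
  · apply F.qf_TB <;> nlinarith
  · apply forall_inT
    · intro _; rfl
    · rw [F.lf_qf_i0 hi]; norm_num
    · rw [F.lf_qf_0j hi hij]; norm_num
    · rw [F.lf_qf_j0 hi hij]; norm_num
    · rw [F.lf_qf_ij hi hij]; norm_num
    · rw [F.lf_qf_ji hi hij]; norm_num
  · rw [F.lf_qf_0i hi]; norm_num
  · rw [hg]; push_cast; ring
  · have : g = x2 + y2 := by omega
    rw [this]; push_cast; ring
  · have : g = x3 + y3 := by omega
    rw [this]; push_cast; ring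
  · omega
  · omega
  · omega

theorem l15L4 : L4 (X (F.kap i j (-1 : ℤ) (-5 : ℤ))) (X (F.kap i j (0 : ℤ) (0 : ℤ)))
    (X (F.kap i j (1 : ℤ) (5 : ℤ))) (X (F.u i j)) := by
  refine F.line_L4 hX hi hij 1 5 0 100 0 0 (Or.inr (Or.inl rfl)) (Or.inr (Or.inr rfl))
    hij.ne ?_ ?_ ?_ ?_ ?_ (by unfold inR; omega) (by unfold inR; omega) (by unfold inR; omega)
    ?_ ?_ ?_ ?_ ?_ ?_
  · unfold u; rw [eps_kl hi.ne' (hi.trans hij).ne']; module
  · intro x' y' h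
    exact ⟨x', by ring, by linarith⟩
  · apply F.qf_TB <;> norm_num
  · apply forall_inT
    · rw [F.lf_qf_0i hi]; norm_num
    · rw [F.lf_qf_i0 hi]; norm_num
    · rw [F.lf_qf_0j hi hij]; norm_num
    · rw [F.lf_qf_j0 hi hij]; norm_num
    · intro _; rfl
    · rw [F.lf_qf_ji hi hij]; norm_num
  · rw [F.lf_qf_ij hi hij]; norm_num
  · norm_num
  · norm_num
  · norm_num
  · omega
  · omega
  · omega

theorem l23L4 : L4 (X (F.kap i j (-2 : ℤ) (-3 : ℤ))) (X (F.kap i j (0 : ℤ) (0 : ℤ)))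
    (X (F.kap i j (2 : ℤ) (3 : ℤ))) (X (F.u j i)) := by
  refine F.line_L4 hX hi hij 2 3 0 50 0 0 (Or.inr (Or.inr rfl)) (Or.inr (Or.inl rfl))
    hij.ne' ?_ ?_ ?_ ?_ ?_ (by unfold inR; omega) (by unfold inR; omega) (by unfold inR; omega)
    ?_ ?_ ?_ ?_ ?_ ?_
  · unfold u; rw [eps_kl (hi.trans hij).ne' hi.ne']; module
  · intro x' y' h
    exact ⟨x' / 2, by ring, by linarith⟩
  · apply F.qf_TB <;> norm_num
  · apply forall_inT
    · rw [F.lf_qf_0i hi]; norm_num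
    · rw [F.lf_qf_i0 hi]; norm_num
    · rw [F.lf_qf_0j hi hij]; norm_num
    · rw [F.lf_qf_j0 hi hij]; norm_num
    · rw [F.lf_qf_ij hi hij]; norm_num
    · intro _; rfl
  · rw [F.lf_qf_ji hi hij]; norm_num
  · norm_num
  · norm_num
  · norm_num
  · omega
  · omega
  · omega

/-- The gadget of the pair `i, j` inside a realization. -/
theorem gadget : ∃ gL gT lH : Amb d →ₗ[ℝ] ℝ,
    Gadget (fun x y : ℤ => X (F.kap i j x y)) (X (F.u 0 j)) (X (F.u i 0)) (X (F.u j 0))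
      (X (F.u 0 i)) (X (F.u i j)) (X (F.u j i)) gL gT lH := by
  have hj0 : j ≠ 0 := (hi.trans hij).ne'
  have hi0 : i ≠ 0 := hi.ne'
  have hji : j ≠ i := hij.ne'
  have t0 : inT i j 0 := Or.inl rfl
  have ti : inT i j i := Or.inr (Or.inl rfl)
  have tj : inT i j j := Or.inr (Or.inr rfl)
  have cast : ∀ {x y : ℤ}, inR x y → (-2 : ℝ) ≤ x ∧ (x : ℝ) ≤ 2 ∧ (-5 : ℝ) ≤ y ∧ (y : ℝ) ≤ 5 := by
    intro x y h
    obtain ⟨h1, h2, h3, h4⟩ := h
    exact ⟨by exact_mod_cast h1, by exact_mod_cast h2, by exact_mod_cast h3, by exact_mod_cast h4⟩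
  obtain ⟨gL, hL, hL0, _⟩ := hX (F.lf (F.hf i j 6000000 6000000 7000000))
    (F.hf_nonneg hij (by norm_num) (by norm_num) (by norm_num) (by norm_num) (by norm_num)
      (by norm_num) (by
        intro x y h
        obtain ⟨h1, h2, h3, h4⟩ := cast h
        nlinarith))
  obtain ⟨gT, hT, hT0, _⟩ := hX (F.lf (F.hf i j 5000000 4000000 5000000))
    (F.hf_nonneg hij (by norm_num) (by norm_num) (by norm_num) (by norm_num) (by norm_num)
      (by norm_num) (by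
        intro x y h
        obtain ⟨h1, h2, h3, h4⟩ := cast h
        nlinarith))
  obtain ⟨lH, hH, hH0, _⟩ := hX (F.lf (F.hf i j 1000000 1000000 1000000))
    (F.hf_nonneg hij (by norm_num) (by norm_num) (by norm_num) (by norm_num) (by norm_num)
      (by norm_num) (by
        intro x y h
        obtain ⟨h1, h2, h3, h4⟩ := cast h
        nlinarith))
  have kill : ∀ (k l : Fin (d + 1)), k ≠ l → inT i j k → inT i j l →
      gL (X (F.u k l)) = 0 ∧ gT (X (F.u k l)) = 0 ∧ lH (X (F.u k l)) = 0 := by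
    intro k l hkl hk hl
    exact ⟨(hL0 _ (F.u_mem hkl)).2 (F.lf_hf_u _ _ _ hk hl),
      (hT0 _ (F.u_mem hkl)).2 (F.lf_hf_u _ _ _ hk hl),
      (hH0 _ (F.u_mem hkl)).2 (F.lf_hf_u _ _ _ hk hl)⟩
  have k10 := kill 0 j hj0.symm t0 tj
  have k01 := kill i 0 hi0 ti t0
  have k11 := kill j 0 hj0 tj t0
  have k1m := kill 0 i hi0.symm t0 ti
  have k15 := kill i j hji.symm ti tj
  have k23 := kill j i hji tj ti
  refine ⟨gL, gT, lH, ⟨k10.1, k01.1, k11.1, k1m.1, k15.1, k23.1, k10.2.1, k01.2.1, k11.2.1,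
    k1m.2.1, k15.2.1, k23.2.1, k10.2.2, k01.2.2, k11.2.2, k1m.2.2, k15.2.2, k23.2.2, ?_, ?_, ?_,
    ?_, ?_, ?_, ?_, ?_, ?_, ?_⟩⟩
  · intro x y h
    refine lt_of_le_of_ne (hH _ (F.kap_mem hi hij h)) (fun h0 => ?_)
    have h1 := (hH0 _ (F.kap_mem hi hij h)).1 h0.symm
    rw [F.lf_hf_kap] at h1
    linarith
  · intro x y h
    rw [hL0 _ (F.kap_mem hi hij h), F.lf_hf_kap]
    constructor
    · intro h1
      have : (x : ℝ) = -2 := by linarith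
      exact_mod_cast this
    · intro h1
      rw [h1]
      push_cast
      ring
  · intro x y h
    rw [hT0 _ (F.kap_mem hi hij h), F.lf_hf_kap]
    constructor
    · intro h1
      have : (y : ℝ) = 5 := by linarith
      exact_mod_cast this
    · intro h1
      rw [h1]
      push_cast
      ring
  · intro a b c h
    refine hX.indep3 (fun v hv => F.vertex hv) (F.u_mem hj0.symm) (F.u_mem hi0) (F.u_mem hj0)
      ?_ ?_ ?_ h
    · intro h'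
      exact hi0 (F.u_inj hj0.symm hi0 h').1.symm
    · intro h'
      exact hj0 (F.u_inj hj0.symm hj0 h').1.symm
    · intro h'
      exact hji (F.u_inj hi0 hj0 h').1.symm
  · intro x1 x2 x3 y r1 r2 r3 n12 n13 n23
    exact rowL4 hX hi hij r1 r2 r3 n12 n13 n23
  · intro x y1 y2 y3 r1 r2 r3 n12 n13 n23
    exact colL4 hX hi hij r1 r2 r3 n12 n13 n23
  · intro x1 y1 x2 y2 x3 y3 r1 r2 r3 e12 e23 n12 n13 n23
    exact diagL4 hX hi hij r1 r2 r3 e12 e23 n12 n13 n23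
  · intro x1 y1 x2 y2 x3 y3 r1 r2 r3 e12 e23 n12 n13 n23
    exact antiL4 hX hi hij r1 r2 r3 e12 e23 n12 n13 n23
  · exact l15L4 hX hi hij
  · exact l23L4 hX hi hij

end

end Frame

end Pool.Agent.Helper101_Scrib
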