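import Pool.Agent.Helper101_Scrib.Cone

/-!
# The conical hull and its faces
-/

namespace Pool.Agent.Helper101_Scrib

open Submodule

variable {d : ℕ}

theorem subset_conicHull (s : Finset (Amb d)) {v : Amb d} (hv : v ∈ s) : v ∈ conicHull s := by
  classical
  refine ⟨fun w => if w = v then 1 else 0, fun w _ => ?_, ?_⟩
  · dsimp only
    split_ifs <;> norm_num
  · simp [Finset.sum_ite_eq', hv]

theorem conicHull_nonneg {s : Finset (Amb d)} {l : Amb d →ₗ[ℝ] ℝ} (hl : ∀ v ∈ s, 0 ≤ l v)
    {x : Amb d} (hx : x ∈ conicHull s) : 0 ≤ l x := by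
  obtain ⟨c, hc, rfl⟩ := hx
  rw [map_sum]
  apply Finset.sum_nonneg
  intro v hv
  rw [map_smul, smul_eq_mul]
  exact mul_nonneg (hc v hv) (hl v hv)

theorem zero_mem_conicHull (s : Finset (Amb d)) : (0 : Amb d) ∈ conicHull s :=
  ⟨0, fun _ _ => le_rfl, by simp⟩

theorem add_mem_conicHull {s : Finset (Amb d)} {x y : Amb d} (hx : x ∈ conicHull s)
    (hy : y ∈ conicHull s) : x + y ∈ conicHull s := by
  obtain ⟨c, hc, rfl⟩ := hx
  obtain ⟨e, he, rfl⟩ := hy
  refine ⟨c + e, fun v hv => add_nonneg (hc v hv) (he v hv), ?_⟩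
  rw [← Finset.sum_add_distrib]
  exact Finset.sum_congr rfl fun v _ => by simp [add_smul]

theorem smul_mem_conicHull {s : Finset (Amb d)} {x : Amb d} {a : ℝ} (ha : 0 ≤ a)
    (hx : x ∈ conicHull s) : a • x ∈ conicHull s := by
  obtain ⟨c, hc, rfl⟩ := hx
  refine ⟨a • c, fun v hv => mul_nonneg ha (hc v hv), ?_⟩
  rw [Finset.smul_sum]
  exact Finset.sum_congr rfl fun v _ => by simp [mul_smul]

theorem sum_mem_conicHull {ι : Type*} {s : Finset (Amb d)} (t : Finset ι) (f : ι → Amb d)
    (h : ∀ i ∈ t, f i ∈ conicHull s) : ∑ i ∈ t, f i ∈ conicHull s := by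
  classical
  induction t using Finset.induction_on with
  | empty => simpa using zero_mem_conicHull s
  | insert a t ha ih =>
    rw [Finset.sum_insert ha]
    exact add_mem_conicHull (h a (Finset.mem_insert_self _ _))
      (ih fun i hi => h i (Finset.mem_insert_of_mem hi))

theorem conicHull_subset {s t : Finset (Amb d)} (h : ∀ v ∈ s, v ∈ conicHull t) :
    conicHull s ⊆ conicHull t := by
  rintro x ⟨c, hc, rfl⟩
  exact sum_mem_conicHull _ _ fun v hv => smul_mem_conicHull (hc v hv) (h v hv)

theorem span_conicHull (s : Finset (Amb d)) :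
    span ℝ (conicHull s) = span ℝ (s : Set (Amb d)) := by
  apply le_antisymm
  · rw [Submodule.span_le]
    rintro x ⟨c, _, rfl⟩
    exact Submodule.sum_mem _ fun v hv => Submodule.smul_mem _ _ (Submodule.subset_span hv)
  · exact Submodule.span_mono fun v hv => subset_conicHull s hv

/-- Representation of the points of a face. -/
theorem face_repr {s : Finset (Amb d)} {l : Amb d →ₗ[ℝ] ℝ} (hl : ∀ v ∈ s, 0 ≤ l v)
    {x : Amb d} (hx : x ∈ conicHull s) (h0 : l x = 0) :
    ∃ c : Amb d → ℝ, (∀ v ∈ s, 0 ≤ c v) ∧ (∀ v ∈ s, l v ≠ 0 → c v = 0) ∧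
      x = ∑ v ∈ s, c v • v := by
  obtain ⟨c, hc, rfl⟩ := hx
  refine ⟨c, hc, ?_, rfl⟩
  rw [map_sum] at h0
  have h1 : ∀ v ∈ s, 0 ≤ l (c v • v) := by
    intro v hv
    rw [map_smul, smul_eq_mul]
    exact mul_nonneg (hc v hv) (hl v hv)
  rw [Finset.sum_eq_zero_iff_of_nonneg h1] at h0
  intro v hv hne
  have := h0 v hv
  rw [map_smul, smul_eq_mul, mul_eq_zero] at this
  exact this.resolve_right hne

theorem face_inter {s : Finset (Amb d)} {F : Set (Amb d)} (hF : IsFace (conicHull s) F) :
    IsFace (s : Set (Amb d)) (F ∩ s) := by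
  obtain ⟨l, hl, rfl⟩ := hF
  refine ⟨l, fun x hx => hl x (subset_conicHull s hx), ?_⟩
  ext x
  constructor
  · rintro ⟨⟨_, h2⟩, h3⟩
    exact ⟨h3, h2⟩
  · rintro ⟨h1, h2⟩
    exact ⟨⟨subset_conicHull s h1, h2⟩, h1⟩

theorem face_subset_iff {s : Finset (Amb d)} {F G : Set (Amb d)} (hF : IsFace (conicHull s) F)
    (hG : IsFace (conicHull s) G) : F ∩ s ⊆ G ∩ s ↔ F ⊆ G := by
  constructor
  · intro h x hx
    obtain ⟨l, hl, rfl⟩ := hF
    obtain ⟨m, hm, rfl⟩ := hG
    obtain ⟨c, _, hc2, hxe⟩ := face_repr (fun v hv => hl v (subset_conicHull s hv)) hx.1 hx.2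
    refine ⟨hx.1, ?_⟩
    rw [hxe, map_sum]
    apply Finset.sum_eq_zero
    intro v hv
    rw [map_smul, smul_eq_mul]
    by_cases h0 : l v = 0
    · have : v ∈ {x | x ∈ conicHull s ∧ m x = 0} ∩ (s : Set (Amb d)) :=
        h ⟨⟨subset_conicHull s hv, h0⟩, hv⟩
      rw [this.1.2, mul_zero]
    · rw [hc2 v hv h0, zero_mul]
  · intro h
    exact Set.inter_subset_inter_left _ h

theorem exists_face_of_finset {s : Finset (Amb d)} {S : Set (Amb d)}
    (hS : IsFace (s : Set (Amb d)) S) : ∃ F, IsFace (conicHull s) F ∧ F ∩ s = S := by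
  obtain ⟨l, hl, rfl⟩ := hS
  refine ⟨{x | x ∈ conicHull s ∧ l x = 0}, ⟨l, fun x hx => conicHull_nonneg hl hx, rfl⟩, ?_⟩
  ext x
  constructor
  · rintro ⟨⟨_, h2⟩, h3⟩
    exact ⟨h3, h2⟩
  · rintro ⟨h1, h2⟩
    exact ⟨⟨subset_conicHull s h1, h2⟩, h1⟩

theorem span_face {s : Finset (Amb d)} {F : Set (Amb d)} (hF : IsFace (conicHull s) F) :
    span ℝ F = span ℝ (F ∩ s) := by
  apply le_antisymm
  · rw [Submodule.span_le]
    intro x hx
    obtain ⟨l, hl, rfl⟩ := hF
    obtain ⟨c, _, hc2, hxe⟩ := face_repr (fun v hv => hl v (subset_conicHull s hv)) hx.1 hx.2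
    rw [hxe]
    refine Submodule.sum_mem _ fun v hv => ?_
    by_cases h0 : l v = 0
    · exact Submodule.smul_mem _ _ (Submodule.subset_span ⟨⟨subset_conicHull s hv, h0⟩, hv⟩)
    · rw [hc2 v hv h0, zero_smul]
      exact Submodule.zero_mem _
  · exact Submodule.span_mono Set.inter_subset_left

theorem linDim_face {s : Finset (Amb d)} {F : Set (Amb d)} (hF : IsFace (conicHull s) F) :
    linDim F = linDim (F ∩ s) := by
  unfold linDim
  rw [span_face hF]

/-- The face lattice of a finitely generated cone, in terms of the generators. -/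
noncomputable def facesIso (s : Finset (Amb d)) :
    {F : Set (Amb d) // IsFace (conicHull s) F} ≃o {S : Set (Amb d) // IsFace (s : Set (Amb d)) S} :=
  RelIso.ofSurjective
    (OrderEmbedding.ofMapLEIff
      (fun F => (⟨F.1 ∩ s, face_inter F.2⟩ : {S : Set (Amb d) // IsFace (s : Set (Amb d)) S}))
      (fun F G => face_subset_iff F.2 G.2))
    (by
      rintro ⟨S, hS⟩
      obtain ⟨F, hF, hFS⟩ := exists_face_of_finset hS
      exact ⟨⟨F, hF⟩, Subtype.ext hFS⟩)

theorem facesIso_apply (s : Finset (Amb d)) (F : {F : Set (Amb d) // IsFace (conicHull s) F}) :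
    ((facesIso s F : {S : Set (Amb d) // IsFace (s : Set (Amb d)) S}) : Set (Amb d)) = F.1 ∩ s :=
  rfl

/-- A pointed finitely generated cone has a finite generating set all of whose elements span
extreme rays. -/
theorem exists_minimal_generators {K : Set (Amb d)} (hfg : ∃ s : Finset (Amb d), K = conicHull s)
    (hp : ∀ x, x ∈ K → -x ∈ K → x = 0) :
    ∃ s : Finset (Amb d), K = conicHull s ∧ ∀ v ∈ s, IsFace (s : Set (Amb d)) {v} := by
  classical
  -- a generating set of minimal cardinality
  obtain ⟨s, hs, hmin⟩ : ∃ s : Finset (Amb d), K = conicHull s ∧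
      ∀ t : Finset (Amb d), K = conicHull t → s.card ≤ t.card := by
    have hex : ∃ n, ∃ s : Finset (Amb d), K = conicHull s ∧ s.card = n := by
      obtain ⟨s, hs⟩ := hfg
      exact ⟨s.card, s, hs, rfl⟩
    obtain ⟨s, hs, hc⟩ := Nat.find_spec hex
    refine ⟨s, hs, fun t ht => ?_⟩
    rw [hc]
    exact Nat.find_min' hex ⟨t, ht, rfl⟩
  refine ⟨s, hs, ?_⟩
  have hirr : ∀ v ∈ s, v ∉ conicHull (s.erase v) := by
    intro v hv hcon
    have heq : K = conicHull (s.erase v) := by
      rw [hs]
      apply Set.Subset.antisymm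
      · apply conicHull_subset
        intro w hw
        by_cases h : w = v
        · rw [h]; exact hcon
        · exact subset_conicHull _ (Finset.mem_erase.2 ⟨h, hw⟩)
      · apply conicHull_subset
        intro w hw
        exact subset_conicHull _ (Finset.mem_of_mem_erase hw)
    have h1 := hmin _ heq
    have h2 := Finset.card_erase_lt_of_mem hv
    omega
  have h0 : ∀ v ∈ s, v ≠ 0 := by
    rintro v hv rfl
    exact hirr 0 hv (zero_mem_conicHull _)
  intro v hv
  -- separate the other generators from the line through `v`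
  have hdisj : Disjoint (convexHull ℝ ((s.erase v : Finset (Amb d)) : Set (Amb d)))
      ((span ℝ {v} : Submodule ℝ (Amb d)) : Set (Amb d)) := by
    rw [Set.disjoint_left]
    intro x hx hxv
    rw [Finset.mem_convexHull'] at hx
    obtain ⟨w, hw0, hw1, hwx⟩ := hx
    rw [SetLike.mem_coe, Submodule.mem_span_singleton] at hxv
    obtain ⟨t, ht⟩ := hxv
    rcases lt_or_ge 0 t with htp | htn
    · apply hirr v hv
      have hve : t⁻¹ • ∑ y ∈ s.erase v, w y • y = v := by
        rw [hwx, ← ht, smul_smul, inv_mul_cancel₀ htp.ne', one_smul]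
      have hmem : t⁻¹ • ∑ y ∈ s.erase v, w y • y ∈ conicHull (s.erase v) :=
        smul_mem_conicHull (inv_nonneg.2 htp.le) ⟨w, hw0, rfl⟩
      rwa [hve] at hmem
    · -- some weight is positive
      obtain ⟨y, hy, hyw⟩ : ∃ y ∈ s.erase v, 0 < w y := by
        by_contra hno
        push Not at hno
        have : ∑ y ∈ s.erase v, w y ≤ 0 := Finset.sum_nonpos hno
        linarith
      have hys : y ∈ s := Finset.mem_of_mem_erase hy
      have h1 : w y • y ∈ K := by
        rw [hs]
        exact smul_mem_conicHull hyw.le (subset_conicHull s hys)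
      have h2 : -(w y • y) ∈ K := by
        have hsum : w y • y + ∑ z ∈ (s.erase v).erase y, w z • z = t • v := by
          rw [Finset.add_sum_erase _ (fun z => w z • z) hy, hwx, ht]
        have : -(w y • y) = ∑ z ∈ (s.erase v).erase y, w z • z + (-t) • v := by
          rw [neg_smul, ← hsum]
          abel
        rw [this, hs]
        apply add_mem_conicHull
        · apply sum_mem_conicHull
          intro z hz
          have hz1 := Finset.mem_of_mem_erase hz
          exact smul_mem_conicHull (hw0 z hz1) (subset_conicHull s (Finset.mem_of_mem_erase hz1))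
        · exact smul_mem_conicHull (by linarith) (subset_conicHull s hv)
      have h3 := hp _ h1 h2
      rw [smul_eq_zero] at h3
      rcases h3 with h3 | h3
      · linarith
      · exact h0 y hys h3
  obtain ⟨f, u, w, hf1, huw, hf2⟩ := geometric_hahn_banach_compact_closed
    (convex_convexHull ℝ ((s.erase v : Finset (Amb d)) : Set (Amb d)))
    ((s.erase v).finite_toSet.isCompact_convexHull ℝ)
    (span ℝ {v} : Submodule ℝ (Amb d)).convex
    (Submodule.closed_of_finiteDimensional (span ℝ {v})) hdisj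
  -- `f` vanishes on the line
  have hfv : f v = 0 := by
    by_contra hne
    have : (w / f v) • v ∈ ((span ℝ {v} : Submodule ℝ (Amb d)) : Set (Amb d)) :=
      Submodule.smul_mem _ _ (Submodule.mem_span_singleton_self v)
    have := hf2 _ this
    rw [map_smul, smul_eq_mul, div_mul_cancel₀ _ hne] at this
    exact lt_irrefl _ this
  have hw : w < 0 := by
    have := hf2 0 (Submodule.zero_mem _)
    rwa [map_zero] at this
  refine ⟨-(f : Amb d →ₗ[ℝ] ℝ), ?_, ?_⟩
  · intro x hx
    simp only [LinearMap.neg_apply, ContinuousLinearMap.coe_coe]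
    by_cases h : x = v
    · rw [h, hfv]; simp
    · have := hf1 x (subset_convexHull ℝ _ (Finset.mem_coe.2 (Finset.mem_erase.2 ⟨h, hx⟩)))
      linarith
  · ext x
    simp only [Set.mem_singleton_iff, Set.mem_ofPred_eq, LinearMap.neg_apply,
      ContinuousLinearMap.coe_coe, neg_eq_zero]
    constructor
    · rintro rfl
      exact ⟨hv, hfv⟩
    · rintro ⟨hx, hx0⟩
      by_contra h
      have := hf1 x (subset_convexHull ℝ _ (Finset.mem_coe.2 (Finset.mem_erase.2 ⟨h, hx⟩)))
      linarith

end Pool.Agent.Helper101_Scrib
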