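import Pool.Agent.Helper101_Scrib.Core2

/-!
# Normalizing coordinates
-/

namespace Pool.Agent.Helper101_Scrib

theorem L3_iff (u v w : ℝ × ℝ × ℝ) :
    L3 u v w ↔ ∃ x y z : ℝ, x ≠ 0 ∧ y ≠ 0 ∧ z ≠ 0 ∧ x • u + y • v + z • w = 0 := by
  unfold L3
  constructor
  · rintro ⟨x, y, z, hx, hy, hz, e1, e2, e3⟩
    refine ⟨x, y, z, hx, hy, hz, ?_⟩
    ext
    · simpa using e1
    · simpa using e2
    · simpa using e3
  · rintro ⟨x, y, z, hx, hy, hz, e⟩
    refine ⟨x, y, z, hx, hy, hz, ?_, ?_, ?_⟩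
    · simpa using congrArg (fun v => v.1) e
    · simpa using congrArg (fun v => v.2.1) e
    · simpa using congrArg (fun v => v.2.2) e

theorem L3.map {u v w : ℝ × ℝ × ℝ} (h : L3 u v w) (Φ : (ℝ × ℝ × ℝ) →ₗ[ℝ] (ℝ × ℝ × ℝ)) :
    L3 (Φ u) (Φ v) (Φ w) := by
  rw [L3_iff] at h ⊢
  obtain ⟨x, y, z, hx, hy, hz, e⟩ := h
  refine ⟨x, y, z, hx, hy, hz, ?_⟩
  rw [← map_smul, ← map_smul, ← map_smul, ← map_add, ← map_add, e, map_zero]

theorem third' {u v w : ℝ × ℝ × ℝ} (h : L3 u v w) :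
    ∃ α β : ℝ, α ≠ 0 ∧ β ≠ 0 ∧ w = α • u + β • v := by
  rw [L3_iff] at h
  obtain ⟨x, y, z, hx, hy, hz, e⟩ := h
  refine ⟨-(x / z), -(y / z), neg_ne_zero.2 (div_ne_zero hx hz),
    neg_ne_zero.2 (div_ne_zero hy hz), ?_⟩
  have h1 : z • w = -(x • u) - y • v := by
    linear_combination (norm := module) e
  have h2 : w = z⁻¹ • (z • w) := by rw [smul_smul, inv_mul_cancel₀ hz, one_smul]
  rw [h2, h1]
  simp only [smul_sub, smul_neg, smul_smul, neg_smul, div_eq_inv_mul]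
  abel

theorem normalize {q : ℤ → ℤ → ℝ × ℝ × ℝ}
    (H : ∀ x1 y1 x2 y2 x3 y3 : ℤ, Col x1 y1 x2 y2 x3 y3 → L3 (q x1 y1) (q x2 y2) (q x3 y3))
    (hpos : ∀ x y, inR x y → 0 < (q x y).2.2)
    (hL : ∀ x y, inR x y → ((q x y).1 = 0 ↔ x = -2))
    (hT : ∀ x y, inR x y → ((q x y).2.1 = 0 ↔ y = 5)) :
    ∃ Φ : (ℝ × ℝ × ℝ) →ₗ[ℝ] (ℝ × ℝ × ℝ), ∀ x y, inR x y → Pr (Φ (q x y)) x y 1 := by
  obtain ⟨α1, α2, hα1, hα2, h12⟩ := third' (H 1 1 (-1) (-1) 0 0 (by unfold Col inR; omega))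
  obtain ⟨α3, α4, hα3, hα4, h34⟩ := third' (H 1 (-1) (-1) 1 0 0 (by unfold Col inR; omega))
  obtain ⟨C1, hC1⟩ : ∃ C, C = α1 • q 1 1 := ⟨_, rfl⟩
  obtain ⟨C2, hC2⟩ : ∃ C, C = α2 • q (-1) (-1) := ⟨_, rfl⟩
  obtain ⟨C3, hC3⟩ : ∃ C, C = α3 • q 1 (-1) := ⟨_, rfl⟩
  rw [← hC1, ← hC2] at h12
  rw [← hC3] at h34
  have hC4 : α4 • q (-1) 1 = C1 + C2 - C3 := by
    rw [← h12, h34]; abel
  have ha1 : C1.1 ≠ 0 := by
    have := (hL 1 1 (by unfold inR; omega)).not.2 (by norm_num)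
    simpa [hC1] using mul_ne_zero hα1 this
  have ha2 : C2.1 ≠ 0 := by
    have := (hL (-1) (-1) (by unfold inR; omega)).not.2 (by norm_num)
    simpa [hC2] using mul_ne_zero hα2 this
  -- the two corners in column -2
  obtain ⟨s, t, hs, ht, hA⟩ : ∃ s t : ℝ, s ≠ 0 ∧ t ≠ 0 ∧ q (-2) (-2) = s • C1 + t • C2 := by
    obtain ⟨s', t', hs', ht', h⟩ := third' (H 1 1 (-1) (-1) (-2) (-2) (by unfold Col inR; omega))
    refine ⟨s' / α1, t' / α2, div_ne_zero hs' hα1, div_ne_zero ht' hα2, ?_⟩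
    rw [h, hC1, hC2, smul_smul, smul_smul, div_mul_cancel₀ _ hα1, div_mul_cancel₀ _ hα2]
  obtain ⟨u, v, hu, hv, hB⟩ : ∃ u v : ℝ, u ≠ 0 ∧ v ≠ 0 ∧
      q (-2) 2 = u • C3 + v • (C1 + C2 - C3) := by
    obtain ⟨s', t', hs', ht', h⟩ := third' (H 1 (-1) (-1) 1 (-2) 2 (by unfold Col inR; omega))
    refine ⟨s' / α3, t' / α4, div_ne_zero hs' hα3, div_ne_zero ht' hα4, ?_⟩
    rw [h, ← hC4, hC3, smul_smul, smul_smul, div_mul_cancel₀ _ hα3, div_mul_cancel₀ _ hα4]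
  have hA0 : s * C1.1 + t * C2.1 = 0 := by
    have h1 := (hL (-2) (-2) (by unfold inR; omega)).2 rfl
    rw [hA] at h1
    simpa using h1
  have hB0 : u * C3.1 + v * (C1.1 + C2.1 - C3.1) = 0 := by
    have h1 := (hL (-2) 2 (by unfold inR; omega)).2 rfl
    rw [hB] at h1
    simpa using h1
  have hAne : q (-2) (-2) ≠ 0 := by
    intro h
    have := hpos (-2) (-2) (by unfold inR; omega)
    rw [h] at this
    simp at this
  have hli : LinearIndependent ℝ ![C1, C2, C3] := by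
    rw [Fintype.linearIndependent_iff]
    intro g hg
    rw [Fin.sum_univ_three] at hg
    simp only [Matrix.cons_val] at hg
    obtain ⟨x, hx⟩ : ∃ x, x = g 0 := ⟨_, rfl⟩
    obtain ⟨y, hy⟩ : ∃ y, y = g 1 := ⟨_, rfl⟩
    obtain ⟨z, hz⟩ : ∃ z, z = g 2 := ⟨_, rfl⟩
    rw [← hx, ← hy, ← hz] at hg
    have hg1 : x * C1.1 + y * C2.1 + z * C3.1 = 0 := by
      simpa using congrArg (fun v => v.1) hg
    have hz0 : z = 0 := by
      by_contra hz0
      -- then `q (-2) 2` is parallel to `q (-2) (-2)`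
      obtain ⟨κ, hκ⟩ : ∃ κ : ℝ, q (-2) 2 = κ • q (-2) (-2) := by
        have e0 : (z * v - (u - v) * x) * C1.1 + (z * v - (u - v) * y) * C2.1 = 0 := by
          linear_combination z * hB0 - (u - v) * hg1
        have e1 : s * (z * v - (u - v) * y) = (z * v - (u - v) * x) * t := by
          have : C2.1 * (s * (z * v - (u - v) * y) - (z * v - (u - v) * x) * t) = 0 := by
            linear_combination s * e0 - (z * v - (u - v) * x) * hA0
          have := (mul_eq_zero.1 this).resolve_left ha2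
          linarith
        have e2 : (s * z) • q (-2) 2 = (z * v - (u - v) * x) • q (-2) (-2) := by
          have e3 : z • q (-2) 2 = (z * v - (u - v) * x) • C1 + (z * v - (u - v) * y) • C2 := by
            rw [hB]
            linear_combination (norm := module) (u - v) • hg
          rw [hA]
          linear_combination (norm := module) s • e3 + e1 • C2
        refine ⟨(s * z)⁻¹ * (z * v - (u - v) * x), ?_⟩
        rw [mul_smul, ← e2, smul_smul, inv_mul_cancel₀ (mul_ne_zero hs hz0), one_smul]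
      obtain ⟨e, f, he, hf, h⟩ := third' (H (-2) (-2) (-2) 2 (-2) 5 (by unfold Col inR; omega))
      rw [hκ, smul_smul, ← add_smul] at h
      have h1 := (hT (-2) 5 (by unfold inR; omega)).2 rfl
      have h2 := (hT (-2) (-2) (by unfold inR; omega)).not.2 (by norm_num)
      rw [h] at h1
      have h3 : (e + f * κ) * (q (-2) (-2)).2.1 = 0 := by simpa using h1
      have h4 := (mul_eq_zero.1 h3).resolve_right h2
      rw [h4, zero_smul] at h
      have h5 := hpos (-2) 5 (by unfold inR; omega)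
      rw [h] at h5
      simp at h5
    rw [hz0, zero_smul, add_zero] at hg
    rw [hz0, zero_mul, add_zero] at hg1
    have hx0 : x = 0 := by
      by_contra hx0
      apply hAne
      have e1 : s * y = t * x := by
        have : C2.1 * (s * y - t * x) = 0 := by linear_combination s * hg1 - x * hA0
        have := (mul_eq_zero.1 this).resolve_left ha2
        linarith
      have e2 : x • q (-2) (-2) = 0 := by
        rw [hA]
        linear_combination (norm := module) s • hg - e1 • C2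
      exact (smul_eq_zero.1 e2).resolve_left hx0
    have hy0 : y = 0 := by
      rw [hx0, zero_mul, zero_add] at hg1
      exact (mul_eq_zero.1 hg1).resolve_right ha2
    intro i
    fin_cases i
    · exact hx.symm.trans hx0
    · exact hy.symm.trans hy0
    · exact hz.symm.trans hz0
  -- coordinates
  let b := basisOfLinearIndependentOfCardEqFinrank hli (by simp)
  have hb0 : b 0 = C1 := by simp [b]
  have hb1 : b 1 = C2 := by simp [b]
  have hb2 : b 2 = C3 := by simp [b]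
  let u0 := b.coord 0
  let u1 := b.coord 1
  let u2 := b.coord 2
  have c00 : u0 C1 = 1 := by rw [← hb0]; simp [u0]
  have c01 : u0 C2 = 0 := by rw [← hb1]; simp [u0]
  have c02 : u0 C3 = 0 := by rw [← hb2]; simp [u0]
  have c10 : u1 C1 = 0 := by rw [← hb0]; simp [u1]
  have c11 : u1 C2 = 1 := by rw [← hb1]; simp [u1]
  have c12 : u1 C3 = 0 := by rw [← hb2]; simp [u1]
  have c20 : u2 C1 = 0 := by rw [← hb0]; simp [u2]
  have c21 : u2 C2 = 0 := by rw [← hb1]; simp [u2]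
  have c22 : u2 C3 = 1 := by rw [← hb2]; simp [u2]
  let Φ : (ℝ × ℝ × ℝ) →ₗ[ℝ] (ℝ × ℝ × ℝ) :=
    (u0 - u1 + u2).prod ((u0 - u1 - u2).prod (u0 + u1 + u2))
  have hΦ1 : ∀ w, (Φ w).1 = u0 w - u1 w + u2 w := fun w => rfl
  have hΦ2 : ∀ w, (Φ w).2.1 = u0 w - u1 w - u2 w := fun w => rfl
  have hΦ3 : ∀ w, (Φ w).2.2 = u0 w + u1 w + u2 w := fun w => rfl
  refine ⟨Φ, ?_⟩
  have hH : ∀ x1 y1 x2 y2 x3 y3 : ℤ, Col x1 y1 x2 y2 x3 y3 →
      L3 (Φ (q x1 y1)) (Φ (q x2 y2)) (Φ (q x3 y3)) :=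
    fun x1 y1 x2 y2 x3 y3 h => (H x1 y1 x2 y2 x3 y3 h).map Φ
  have scal : ∀ (α : ℝ) (w c : ℝ × ℝ × ℝ), α ≠ 0 → α • w = c → w = α⁻¹ • c := by
    intro α w c hα h
    rw [← h, smul_smul, inv_mul_cancel₀ hα, one_smul]
  have k11 := scal α1 (q 1 1) C1 hα1 hC1.symm
  have kmm := scal α2 (q (-1) (-1)) C2 hα2 hC2.symm
  have k1m := scal α3 (q 1 (-1)) C3 hα3 hC3.symm
  have km1 := scal α4 (q (-1) 1) _ hα4 hC4
  refine core (q := fun x y => Φ (q x y)) hH ?_ ?_ ?_ ?_ ?_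
  · refine ⟨α1⁻¹, inv_ne_zero hα1, ?_, ?_, ?_⟩ <;>
    · simp only [hΦ1, hΦ2, hΦ3]
      simp only [k11, map_smul, smul_eq_mul, c00, c10, c20]
      ring
  · refine ⟨α2⁻¹, inv_ne_zero hα2, ?_, ?_, ?_⟩ <;>
    · simp only [hΦ1, hΦ2, hΦ3]
      simp only [kmm, map_smul, smul_eq_mul, c01, c11, c21]
      ring
  · refine ⟨α3⁻¹, inv_ne_zero hα3, ?_, ?_, ?_⟩ <;>
    · simp only [hΦ1, hΦ2, hΦ3]
      simp only [k1m, map_smul, smul_eq_mul, c02, c12, c22]
      ring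
  · refine ⟨α4⁻¹, inv_ne_zero hα4, ?_, ?_, ?_⟩ <;>
    · simp only [hΦ1, hΦ2, hΦ3]
      simp only [km1, map_smul, map_add, map_sub, smul_eq_mul,
        c00, c10, c20, c01, c11, c21, c02, c12, c22]
      ring
  · refine ⟨2, two_ne_zero, ?_, ?_, ?_⟩ <;>
    · simp only [hΦ1, hΦ2, hΦ3]
      simp only [h12, map_add, c00, c10, c20, c01, c11, c21]
      ring

end Pool.Agent.Helper101_Scrib
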