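import Pool.Agent.Helper101_Scrib.FaceFun2

/-!
# The polytope cone and the dimensions of its edges and facets
-/

namespace Pool.Agent.Helper101_Scrib

open Submodule

variable {d : ℕ}

namespace Frame

variable (F : Frame d)

theorem lf_one_pos {v : Amb d} (hv : v ∈ F.verts) : 0 < F.lf (fun _ => 1) v := by
  rcases (F.mem_verts v).1 hv with ⟨k', l', hkl, rfl⟩ | ⟨i', j', x, y, h1, h2, h3, rfl⟩
  · rw [F.lf_u]
    have := eps_lo k' l'
    linarith
  · obtain ⟨⟨a1, a2⟩, ⟨b1, b2⟩, ⟨c1, c2⟩, ⟨e1, e2⟩, ⟨f1, f2⟩, g1, g2⟩ := coord_bounds h3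
    rw [F.lf_kap]
    linarith

theorem empty_face : IsFace (F.verts : Set (Amb d)) ∅ := by
  refine ⟨F.lf (fun _ => 1), fun v hv => (F.lf_one_pos hv).le, ?_⟩
  ext v
  simp only [Set.mem_empty_iff_false, Set.mem_ofPred_eq, false_iff, not_and]
  intro hv
  exact (F.lf_one_pos hv).ne'

theorem b_mem_span (hd : 1 ≤ d) (k : Fin (d + 1)) :
    F.b k ∈ span ℝ (F.verts : Set (Amb d)) := by
  obtain ⟨l, hl⟩ : ∃ l : Fin (d + 1), l ≠ k := by
    by_cases h : k = 0
    · refine ⟨⟨1, by omega⟩, ?_⟩
      rw [h]
      intro h'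
      have := congrArg Fin.val h'
      simp at this
    · exact ⟨0, fun h' => h h'.symm⟩
  have h1 : F.u k l ∈ span ℝ (F.verts : Set (Amb d)) := Submodule.subset_span (F.u_mem hl.symm)
  have h2 : F.u l k ∈ span ℝ (F.verts : Set (Amb d)) := Submodule.subset_span (F.u_mem hl)
  have h3 : (1 - eps k l * eps l k) ≠ 0 := by
    have e1 := eps_lo k l
    have e2 := eps_hi k l
    have e3 := eps_lo l k
    have e4 := eps_hi l k
    nlinarith
  have h4 : F.b k = (1 - eps k l * eps l k)⁻¹ • (F.u k l - eps k l • F.u l k) := by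
    have : F.u k l - eps k l • F.u l k = (1 - eps k l * eps l k) • F.b k := by
      unfold u
      module
    rw [this, inv_smul_smul₀ h3]
  rw [h4]
  exact Submodule.smul_mem _ _ (Submodule.sub_mem _ h1 (Submodule.smul_mem _ _ h2))

theorem isPolytopeCone (hd : 1 ≤ d) : IsPolytopeCone d (conicHull F.verts) := by
  refine ⟨⟨F.verts, rfl⟩, ?_, ?_⟩
  · intro x hx hx'
    have h1 := conicHull_nonneg (fun v hv => (F.lf_one_pos hv).le) hx
    have h2 := conicHull_nonneg (fun v hv => (F.lf_one_pos hv).le) hx'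
    rw [map_neg] at h2
    obtain ⟨c, _, hc, hxe⟩ := face_repr (fun v hv => (F.lf_one_pos hv).le) hx
      (le_antisymm (by linarith) h1)
    rw [hxe]
    apply Finset.sum_eq_zero
    intro v hv
    rw [hc v hv (F.lf_one_pos hv).ne', zero_smul]
  · rw [span_conicHull, eq_top_iff, ← F.b.span_eq, Submodule.span_le]
    rintro _ ⟨k, rfl⟩
    exact F.b_mem_span hd k

theorem linDim_edge {k l : Fin (d + 1)} (h : k ≠ l) :
    linDim {v | v ∈ F.verts ∧ F.lf (ef k l) v = 0} = 2 := by
  have hset : {v | v ∈ F.verts ∧ F.lf (ef k l) v = 0} = Set.range ![F.u k l, F.u l k] := by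
    ext v
    simp only [Set.mem_ofPred_eq, Matrix.range_cons, Matrix.range_empty, Set.union_empty,
      Set.mem_union, Set.mem_singleton_iff]
    constructor
    · rintro ⟨hv, h0⟩
      exact F.ef_verts_zero hv h0
    · rintro (rfl | rfl)
      · exact ⟨F.u_mem h, F.lf_ef_u k l⟩
      · exact ⟨F.u_mem h.symm, F.lf_ef_u' k l⟩
  have hli : LinearIndependent ℝ ![F.u k l, F.u l k] := by
    rw [LinearIndependent.pair_iff]
    intro s t hst
    have e1 := congrArg (F.lf (ff k)) hst
    have e2 := congrArg (F.lf (ff l)) hst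
    rw [map_add, map_smul, map_smul, map_zero, F.lf_ff_u h.symm, smul_zero, zero_add,
      smul_eq_mul] at e1
    rw [map_add, map_smul, map_smul, map_zero, F.lf_ff_u h, smul_zero, add_zero,
      smul_eq_mul] at e2
    exact ⟨(mul_eq_zero.1 e2).resolve_right (F.lf_ff_u_pos l h).ne',
      (mul_eq_zero.1 e1).resolve_right (F.lf_ff_u_pos k h.symm).ne'⟩
  unfold linDim
  rw [hset, finrank_span_eq_card hli]
  rfl

theorem linDim_facet (k : Fin (d + 1)) :
    linDim {v | v ∈ F.verts ∧ F.lf (ff k) v = 0} = d := by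
  have hset : {v | v ∈ F.verts ∧ F.lf (ff k) v = 0} =
      Set.range (fun m : Fin d => F.u k (k.succAbove m)) := by
    ext v
    simp only [Set.mem_ofPred_eq, Set.mem_range]
    constructor
    · rintro ⟨hv, h0⟩
      obtain ⟨l, hl, rfl⟩ := F.ff_verts_zero hv h0
      obtain ⟨m, rfl⟩ := Fin.exists_succAbove_eq hl
      exact ⟨m, rfl⟩
    · rintro ⟨m, rfl⟩
      exact ⟨F.u_mem (Fin.succAbove_ne k m).symm, F.lf_ff_u (Fin.succAbove_ne k m)⟩
  have hli : LinearIndependent ℝ (fun m : Fin d => F.u k (k.succAbove m)) := by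
    rw [Fintype.linearIndependent_iff]
    intro g hg m
    have e1 := congrArg (F.lf (fun n => if n = k.succAbove m then 1 else 0)) hg
    rw [map_sum, map_zero] at e1
    simp only [map_smul, F.lf_u, smul_eq_mul] at e1
    rw [Finset.sum_eq_single m] at e1
    · have hne : k ≠ k.succAbove m := (Fin.succAbove_ne k m).symm
      rw [if_neg hne, if_pos rfl] at e1
      have := eps_lo k (k.succAbove m)
      rcases mul_eq_zero.1 e1 with h | h
      · exact h
      · linarith
    · intro m' _ hm'
      have hne : k ≠ k.succAbove m := (Fin.succAbove_ne k m).symm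
      have hne' : k.succAbove m' ≠ k.succAbove m := fun h => hm' (Fin.succAbove_right_injective h)
      rw [if_neg hne, if_neg hne']
      ring
    · intro h
      exact absurd (Finset.mem_univ m) h
  unfold linDim
  rw [hset, finrank_span_eq_card hli, Fintype.card_fin]

end Frame

/-- A basis all of whose vectors have first coordinate one. -/
theorem exists_affine_basis (d : ℕ) :
    ∃ b : Module.Basis (Fin (d + 1)) ℝ (Amb d), ∀ k, b k 0 = 1 := by
  classical
  let v : Fin (d + 1) → Amb d := fun k => Pi.single 0 1 + if k = 0 then 0 else Pi.single k 1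
  have hli : LinearIndependent ℝ v := by
    rw [Fintype.linearIndependent_iff]
    intro g hg
    have h1 : ∀ k : Fin (d + 1), k ≠ 0 → g k = 0 := by
      intro k hk
      have e := congrFun hg k
      simp only [Finset.sum_apply, Pi.smul_apply, Pi.zero_apply, smul_eq_mul, v, Pi.add_apply] at e
      rw [Finset.sum_eq_single k] at e
      · simpa [hk] using e
      · intro m _ hm
        rw [Pi.single_eq_of_ne hk, zero_add]
        split_ifs with h
        · simp
        · rw [Pi.single_eq_of_ne hm.symm, mul_zero]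
      · intro h
        exact absurd (Finset.mem_univ k) h
    have h2 : g 0 = 0 := by
      have e := congrFun hg 0
      simp only [Finset.sum_apply, Pi.smul_apply, Pi.zero_apply, smul_eq_mul, v, Pi.add_apply] at e
      rw [Finset.sum_eq_single 0] at e
      · simpa using e
      · intro m _ hm
        rw [h1 m hm, zero_mul]
      · intro h
        exact absurd (Finset.mem_univ _) h
    intro k
    by_cases hk : k = 0
    · rw [hk]; exact h2
    · exact h1 k hk
  refine ⟨basisOfLinearIndependentOfCardEqFinrank hli (by simp), fun k => ?_⟩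
  rw [coe_basisOfLinearIndependentOfCardEqFinrank]
  simp only [v, Pi.add_apply, Pi.single_eq_same]
  split_ifs with h
  · simp
  · rw [Pi.single_eq_of_ne (fun h' => h h'.symm), add_zero]

theorem Frame.first_coord (F : Frame d) (h : ∀ k, F.b k 0 = 1) {x : Amb d}
    (hx : x ∈ conicHull F.verts) (hne : x ≠ 0) : 0 < x 0 := by
  have h1 : ∀ x : Amb d, F.lf (fun _ => 1) x = x 0 := by
    intro x
    have : F.lf (fun _ => 1) = (LinearMap.proj 0 : Amb d →ₗ[ℝ] ℝ) := by
      apply F.b.ext
      intro k
      rw [F.lf_b, LinearMap.proj_apply, h k]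
    rw [this, LinearMap.proj_apply]
  have h2 := conicHull_nonneg (fun v hv => (F.lf_one_pos hv).le) hx
  rw [← h1 x]
  refine lt_of_le_of_ne h2 (fun h0 => hne ?_)
  obtain ⟨c, _, hc, hxe⟩ := face_repr (fun v hv => (F.lf_one_pos hv).le) hx h0.symm
  rw [hxe]
  apply Finset.sum_eq_zero
  intro v hv
  rw [hc v hv (F.lf_one_pos hv).ne', zero_smul]

end Pool.Agent.Helper101_Scrib
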