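import Pool.Agent.Helper101_Scrib.Realize

/-!
# Relations between the vertices of a realization
-/

namespace Pool.Agent.Helper101_Scrib

open Submodule

variable {d : ℕ}

/-- `X` sends the vertices in `s` to the vertices of a realization. -/
def Rz (s : Finset (Amb d)) (X : Amb d → Amb d) : Prop :=
  ∀ φ : Amb d →ₗ[ℝ] ℝ, (∀ v ∈ s, 0 ≤ φ v) →
    ∃ φ' : Amb d →ₗ[ℝ] ℝ, (∀ v ∈ s, 0 ≤ φ' (X v)) ∧ (∀ v ∈ s, φ' (X v) = 0 ↔ φ v = 0) ∧
      linDim (X '' {v | v ∈ s ∧ φ v = 0}) = linDim {v | v ∈ s ∧ φ v = 0}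

/-- A linear relation with all four coefficients nonzero. -/
def L4 {E : Type*} [AddCommGroup E] [Module ℝ E] (a b c e : E) : Prop :=
  ∃ α β γ δ : ℝ, α ≠ 0 ∧ β ≠ 0 ∧ γ ≠ 0 ∧ δ ≠ 0 ∧ α • a + β • b + γ • c + δ • e = 0

theorem Rz.vertex {s : Finset (Amb d)} {X : Amb d → Amb d} (h : Rz s X)
    (hs : ∀ v ∈ s, IsFace (s : Set (Amb d)) {v}) {v : Amb d} (hv : v ∈ s) :
    ∃ l : Amb d →ₗ[ℝ] ℝ, l (X v) = 0 ∧ ∀ w ∈ s, w ≠ v → 0 < l (X w) := by
  obtain ⟨φ, hφ, hφv⟩ := hs v hv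
  obtain ⟨l, hl, hl0, _⟩ := h φ hφ
  have hv0 : φ v = 0 := by
    have : v ∈ ({v} : Set (Amb d)) := rfl
    rw [hφv] at this
    exact this.2
  refine ⟨l, (hl0 v hv).2 hv0, fun w hw hne => ?_⟩
  refine lt_of_le_of_ne (hl w hw) (fun h0 => hne ?_)
  have : w ∈ ({v} : Set (Amb d)) := by
    rw [hφv]
    exact ⟨hw, (hl0 w hw).1 h0.symm⟩
  exact this

theorem Rz.indep3 {s : Finset (Amb d)} {X : Amb d → Amb d} (h : Rz s X)
    (hs : ∀ v ∈ s, IsFace (s : Set (Amb d)) {v}) {u v w : Amb d} (hu : u ∈ s) (hv : v ∈ s)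
    (hw : w ∈ s) (huv : u ≠ v) (huw : u ≠ w) (hvw : v ≠ w) {a b c : ℝ}
    (habc : a • X u + b • X v + c • X w = 0) : a = 0 ∧ b = 0 ∧ c = 0 := by
  obtain ⟨l1, h10, h1⟩ := h.vertex hs hu
  obtain ⟨l2, h20, h2⟩ := h.vertex hs hv
  obtain ⟨l3, h30, h3⟩ := h.vertex hs hw
  have p1 := h1 v hv huv.symm
  have p2 := h1 w hw huw.symm
  have p3 := h2 u hu huv
  have p4 := h2 w hw hvw.symm
  have p5 := h3 u hu huw
  have p6 := h3 v hv hvw
  have e1 : b * l1 (X v) + c * l1 (X w) = 0 := by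
    have := congrArg l1 habc
    simpa [h10] using this
  have e2 : a * l2 (X u) + c * l2 (X w) = 0 := by
    have := congrArg l2 habc
    simpa [h20] using this
  have e3 : a * l3 (X u) + b * l3 (X v) = 0 := by
    have := congrArg l3 habc
    simpa [h30] using this
  have ha : a = 0 := by
    rcases lt_trichotomy a 0 with ha | ha | ha
    · exfalso
      have hb : 0 < b := by
        by_contra hb
        have := mul_neg_of_neg_of_pos ha p5
        have := mul_nonpos_of_nonpos_of_nonneg (not_lt.1 hb) p6.le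
        linarith
      have hc : 0 < c := by
        by_contra hc
        have := mul_neg_of_neg_of_pos ha p3
        have := mul_nonpos_of_nonpos_of_nonneg (not_lt.1 hc) p4.le
        linarith
      have := mul_pos hb p1
      have := mul_pos hc p2
      linarith
    · exact ha
    · exfalso
      have hb : b < 0 := by
        by_contra hb
        have := mul_pos ha p5
        have := mul_nonneg (not_lt.1 hb) p6.le
        linarith
      have hc : c < 0 := by
        by_contra hc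
        have := mul_pos ha p3
        have := mul_nonneg (not_lt.1 hc) p4.le
        linarith
      have := mul_neg_of_neg_of_pos hb p1
      have := mul_neg_of_neg_of_pos hc p2
      linarith
  subst ha
  have hb : b = 0 := by
    have : b * l3 (X v) = 0 := by linarith
    exact (mul_eq_zero.1 this).resolve_right p6.ne'
  have hc : c = 0 := by
    have : c * l2 (X w) = 0 := by linarith
    exact (mul_eq_zero.1 this).resolve_right p4.ne'
  exact ⟨rfl, hb, hc⟩

theorem Rz.rel4 {s : Finset (Amb d)} {X : Amb d → Amb d} (h : Rz s X)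
    (hs : ∀ v ∈ s, IsFace (s : Set (Amb d)) {v}) (φ : Amb d →ₗ[ℝ] ℝ) (hφ : ∀ v ∈ s, 0 ≤ φ v)
    (hdim : linDim {v | v ∈ s ∧ φ v = 0} ≤ 3) {a b c e : Amb d}
    (ha : a ∈ s) (hb : b ∈ s) (hc : c ∈ s) (he : e ∈ s)
    (ha0 : φ a = 0) (hb0 : φ b = 0) (hc0 : φ c = 0) (he0 : φ e = 0)
    (hab : a ≠ b) (hac : a ≠ c) (hae : a ≠ e) (hbc : b ≠ c) (hbe : b ≠ e) (hce : c ≠ e) :
    L4 (X a) (X b) (X c) (X e) := by
  obtain ⟨_, _, _, hd⟩ := h φ hφ
  have hli : ¬ LinearIndependent ℝ ![X a, X b, X c, X e] := by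
    intro hli
    have h1 := finrank_span_eq_card hli
    have h2 : span ℝ (Set.range ![X a, X b, X c, X e]) ≤
        span ℝ (X '' {v | v ∈ s ∧ φ v = 0}) := by
      apply Submodule.span_mono
      rintro _ ⟨i, rfl⟩
      fin_cases i
      · exact ⟨a, ⟨ha, ha0⟩, rfl⟩
      · exact ⟨b, ⟨hb, hb0⟩, rfl⟩
      · exact ⟨c, ⟨hc, hc0⟩, rfl⟩
      · exact ⟨e, ⟨he, he0⟩, rfl⟩
    have h3 := Submodule.finrank_mono h2
    rw [h1, Fintype.card_fin] at h3
    unfold linDim at hd hdim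
    omega
  rw [Fintype.not_linearIndependent_iff] at hli
  obtain ⟨g, hg, i, hi⟩ := hli
  rw [Fin.sum_univ_four] at hg
  simp only [Matrix.cons_val] at hg
  have key : g 0 ≠ 0 ∧ g 1 ≠ 0 ∧ g 2 ≠ 0 ∧ g 3 ≠ 0 := by
    refine ⟨fun h0 => ?_, fun h0 => ?_, fun h0 => ?_, fun h0 => ?_⟩
    · rw [h0, zero_smul, zero_add] at hg
      obtain ⟨h1, h2, h3⟩ := h.indep3 hs hb hc he hbc hbe hce hg
      fin_cases i <;> simp_all
    · rw [h0, zero_smul, add_zero] at hg
      obtain ⟨h1, h2, h3⟩ := h.indep3 hs ha hc he hac hae hce hg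
      fin_cases i <;> simp_all
    · rw [h0, zero_smul, add_zero] at hg
      obtain ⟨h1, h2, h3⟩ := h.indep3 hs ha hb he hab hae hbe hg
      fin_cases i <;> simp_all
    · rw [h0, zero_smul, add_zero] at hg
      obtain ⟨h1, h2, h3⟩ := h.indep3 hs ha hb hc hab hac hbc hg
      fin_cases i <;> simp_all
  exact ⟨g 0, g 1, g 2, g 3, key.1, key.2.1, key.2.2.1, key.2.2.2, hg⟩

end Pool.Agent.Helper101_Scrib
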