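import Pool.Agent.Helper101_Scrib.Norm
import Pool.Agent.Helper101_Scrib.Rel

/-!
# The quadratic part of the rigidity argument
-/

namespace Pool.Agent.Helper101_Scrib

theorem const_of_step {f : ℤ → ℝ} (k : ∀ a b : ℤ, a + 1 = b → -4 ≤ a → a ≤ 3 → f b = f a)
    (y : ℤ) (h1 : -4 ≤ y) (h2 : y ≤ 4) : f y = f 0 := by
  have k1 := k (-4) (-3) (by norm_num) (by norm_num) (by norm_num)
  have k2 := k (-3) (-2) (by norm_num) (by norm_num) (by norm_num)
  have k3 := k (-2) (-1) (by norm_num) (by norm_num) (by norm_num)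
  have k4 := k (-1) 0 (by norm_num) (by norm_num) (by norm_num)
  have k5 := k 0 1 (by norm_num) (by norm_num) (by norm_num)
  have k6 := k 1 2 (by norm_num) (by norm_num) (by norm_num)
  have k7 := k 2 3 (by norm_num) (by norm_num) (by norm_num)
  have k8 := k 3 4 (by norm_num) (by norm_num) (by norm_num)
  have hy : y = -4 ∨ y = -3 ∨ y = -2 ∨ y = -1 ∨ y = 0 ∨ y = 1 ∨ y = 2 ∨ y = 3 ∨ y = 4 := by omega
  rcases hy with rfl | rfl | rfl | rfl | rfl | rfl | rfl | rfl | rfl <;> linarith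

variable {E : Type*} [AddCommGroup E] [Module ℝ E]

theorem second_diff (Φ : E →ₗ[ℝ] (ℝ × ℝ × ℝ)) {X1 X2 X3 σ : E} {t1 t2 t3 x y a b : ℝ}
    (ht1 : t1 ≠ 0) (ht2 : t2 ≠ 0) (ht3 : t3 ≠ 0)
    (h1 : Φ X1 = (t1 * (x - a), t1 * (y - b), t1 * 1)) (h2 : Φ X2 = (t2 * x, t2 * y, t2 * 1))
    (h3 : Φ X3 = (t3 * (x + a), t3 * (y + b), t3 * 1)) (hσ : Φ σ = 0) (hab : a ≠ 0 ∨ b ≠ 0)
    (h : L4 X1 X2 X3 σ) :
    ∃ c : ℝ, c ≠ 0 ∧ t1⁻¹ • X1 - (2 : ℝ) • t2⁻¹ • X2 + t3⁻¹ • X3 = c • σ := by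
  obtain ⟨α, β, γ, δ, hα, hβ, hγ, hδ, e⟩ := h
  have eΦ := congrArg Φ e
  simp only [map_add, map_smul, map_zero, h1, h2, h3, hσ, smul_zero, add_zero] at eΦ
  have e1 : α * (t1 * (x - a)) + β * (t2 * x) + γ * (t3 * (x + a)) = 0 := by
    simpa using congrArg (fun v => v.1) eΦ
  have e2 : α * (t1 * (y - b)) + β * (t2 * y) + γ * (t3 * (y + b)) = 0 := by
    simpa using congrArg (fun v => v.2.1) eΦ
  have e3 : α * (t1 * 1) + β * (t2 * 1) + γ * (t3 * 1) = 0 := by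
    simpa using congrArg (fun v => v.2.2) eΦ
  have e4 : (γ * t3 - α * t1) * a = 0 := by linear_combination e1 - x * e3
  have e5 : (γ * t3 - α * t1) * b = 0 := by linear_combination e2 - y * e3
  have e6 : γ * t3 = α * t1 := by
    rcases hab with h | h
    · have := (mul_eq_zero.1 e4).resolve_right h
      linarith
    · have := (mul_eq_zero.1 e5).resolve_right h
      linarith
  have e7 : β * t2 = -2 * (α * t1) := by linear_combination e3 - e6
  have hk : α * t1 ≠ 0 := mul_ne_zero hα ht1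
  refine ⟨-(δ / (α * t1)), neg_ne_zero.2 (div_ne_zero hδ hk), ?_⟩
  have f1 : (α * t1) • (t1⁻¹ • X1) = α • X1 := by
    rw [smul_smul, mul_assoc, mul_inv_cancel₀ ht1, mul_one]
  have f2 : (β * t2) • (t2⁻¹ • X2) = β • X2 := by
    rw [smul_smul, mul_assoc, mul_inv_cancel₀ ht2, mul_one]
  have f3 : (γ * t3) • (t3⁻¹ • X3) = γ • X3 := by
    rw [smul_smul, mul_assoc, mul_inv_cancel₀ ht3, mul_one]
  have f4 : (α * t1) • (t1⁻¹ • X1 - (2 : ℝ) • t2⁻¹ • X2 + t3⁻¹ • X3) = -(δ • σ) := by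
    rw [e7] at f2
    rw [e6] at f3
    linear_combination (norm := module) f1 + f2 + f3 + e
  have f5 : t1⁻¹ • X1 - (2 : ℝ) • t2⁻¹ • X2 + t3⁻¹ • X3 =
      (α * t1)⁻¹ • ((α * t1) • (t1⁻¹ • X1 - (2 : ℝ) • t2⁻¹ • X2 + t3⁻¹ • X3)) :=
    (inv_smul_smul₀ hk _).symm
  rw [f5, f4, smul_neg, smul_smul, neg_smul, div_eq_inv_mul]

theorem quad (Y : ℤ → ℤ → E) (σ10 σ01 σ11 σ1m σ15 σ23 : E)
    (ind : ∀ a b c : ℝ, a • σ10 + b • σ01 + c • σ11 = 0 → a = 0 ∧ b = 0 ∧ c = 0)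
    (h10 : ∀ b y : ℤ, -1 ≤ b → b ≤ 1 → -5 ≤ y → y ≤ 5 → ∃ c : ℝ, c ≠ 0 ∧
      ∀ a a' : ℤ, a + 1 = b → b + 1 = a' → Y a y - (2 : ℝ) • Y b y + Y a' y = c • σ10)
    (h01 : ∀ x b : ℤ, -2 ≤ x → x ≤ 2 → -4 ≤ b → b ≤ 4 → ∃ c : ℝ, c ≠ 0 ∧
      ∀ a a' : ℤ, a + 1 = b → b + 1 = a' → Y x a - (2 : ℝ) • Y x b + Y x a' = c • σ01)
    (h11 : ∀ x y : ℤ, -1 ≤ x → x ≤ 1 → -4 ≤ y → y ≤ 4 → ∃ c : ℝ, c ≠ 0 ∧
      ∀ a b a' b' : ℤ, a + 1 = x → x + 1 = a' → b + 1 = y → y + 1 = b' →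
        Y a b - (2 : ℝ) • Y x y + Y a' b' = c • σ11)
    (h1m : ∃ c : ℝ, c ≠ 0 ∧ Y (-1) 1 - (2 : ℝ) • Y 0 0 + Y 1 (-1) = c • σ1m)
    (h15 : ∃ c : ℝ, c ≠ 0 ∧ Y (-1) (-5) - (2 : ℝ) • Y 0 0 + Y 1 5 = c • σ15)
    (h23 : ∃ c : ℝ, c ≠ 0 ∧ Y (-2) (-3) - (2 : ℝ) • Y 0 0 + Y 2 3 = c • σ23) :
    ∃ M1 M12 M2 : E, ∃ c1 c2 c3 c4 c5 c6 : ℝ,
      c1 ≠ 0 ∧ c2 ≠ 0 ∧ c3 ≠ 0 ∧ c4 ≠ 0 ∧ c5 ≠ 0 ∧ c6 ≠ 0 ∧
      M1 = c1 • σ10 ∧ M2 = c2 • σ01 ∧ M1 + (2 : ℝ) • M12 + M2 = c3 • σ11 ∧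
      M1 - (2 : ℝ) • M12 + M2 = c4 • σ1m ∧
      M1 + (10 : ℝ) • M12 + (25 : ℝ) • M2 = c5 • σ15 ∧
      (4 : ℝ) • M1 + (12 : ℝ) • M12 + (9 : ℝ) • M2 = c6 • σ23 := by
  choose! c1 hc1 using h10
  choose! c2 hc2 using h01
  choose! c3 hc3 using h11
  have E10 : ∀ a b a' y : ℤ, a + 1 = b → b + 1 = a' → -1 ≤ b → b ≤ 1 → -5 ≤ y → y ≤ 5 →
      Y a y - (2 : ℝ) • Y b y + Y a' y = c1 b y • σ10 :=
    fun a b a' y e1 e2 k1 k2 k3 k4 => (hc1 b y k1 k2 k3 k4).2 a a' e1 e2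
  have E01 : ∀ x a b a' : ℤ, a + 1 = b → b + 1 = a' → -2 ≤ x → x ≤ 2 → -4 ≤ b → b ≤ 4 →
      Y x a - (2 : ℝ) • Y x b + Y x a' = c2 x b • σ01 :=
    fun x a b a' e1 e2 k1 k2 k3 k4 => (hc2 x b k1 k2 k3 k4).2 a a' e1 e2
  have E11 : ∀ a x a' b y b' : ℤ, a + 1 = x → x + 1 = a' → b + 1 = y → y + 1 = b' →
      -1 ≤ x → x ≤ 1 → -4 ≤ y → y ≤ 4 →
      Y a b - (2 : ℝ) • Y x y + Y a' b' = c3 x y • σ11 :=
    fun a x a' b y b' e1 e2 e3 e4 k1 k2 k3 k4 => (hc3 x y k1 k2 k3 k4).2 a b a' b' e1 e2 e3 e4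
  -- first identity
  have F1 : ∀ x x' y : ℤ, x + 1 = x' → -1 ≤ x → x ≤ 0 → -4 ≤ y → y ≤ 4 →
      c2 x' y = c2 x y ∧ c1 x' (y + 1) = c1 x (y - 1) := by
    intro x x' y hx k1 k2 k3 k4
    have r1 := E11 x x' (x' + 1) (y - 1) y (y + 1) hx rfl (by ring) rfl (by omega) (by omega) k3 k4
    have r2 := E11 (x - 1) x x' (y - 1) y (y + 1) (by ring) hx (by ring) rfl k1 (by omega) k3 k4
    have r3 := E01 x' (y - 1) y (y + 1) (by ring) rfl (by omega) (by omega) k3 k4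
    have r4 := E01 x (y - 1) y (y + 1) (by ring) rfl (by omega) (by omega) k3 k4
    have r5 := E10 x x' (x' + 1) (y + 1) hx rfl (by omega) (by omega) (by omega) (by omega)
    have r6 := E10 (x - 1) x x' (y - 1) (by ring) hx (by omega) (by omega) (by omega) (by omega)
    have key := ind (-(c1 x' (y + 1) - c1 x (y - 1))) (-(c2 x' y - c2 x y)) (c3 x' y - c3 x y) (by
      linear_combination (norm := module) -r1 + r2 + r3 - r4 + r5 - r6)
    exact ⟨by linarith [key.2.1], by linarith [key.1]⟩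
  -- second identity
  have F2 : ∀ x y y' : ℤ, y + 1 = y' → -1 ≤ x → x ≤ 1 → -4 ≤ y → y ≤ 3 →
      c1 x y' = c1 x y ∧ c2 (x + 1) y' = c2 (x - 1) y := by
    intro x y y' hy k1 k2 k3 k4
    have r1 := E11 (x - 1) x (x + 1) y y' (y' + 1) (by ring) rfl hy rfl k1 k2 (by omega) (by omega)
    have r2 := E11 (x - 1) x (x + 1) (y - 1) y y' (by ring) rfl (by ring) hy k1 k2 k3 (by omega)
    have r3 := E10 (x - 1) x (x + 1) y' (by ring) rfl k1 k2 (by omega) (by omega)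
    have r4 := E10 (x - 1) x (x + 1) y (by ring) rfl k1 k2 (by omega) (by omega)
    have r5 := E01 (x + 1) y y' (y' + 1) hy rfl (by omega) (by omega) (by omega) (by omega)
    have r6 := E01 (x - 1) (y - 1) y y' (by ring) hy (by omega) (by omega) (by omega) (by omega)
    have key := ind (-(c1 x y' - c1 x y)) (-(c2 (x + 1) y' - c2 (x - 1) y)) (c3 x y' - c3 x y) (by
      linear_combination (norm := module) -r1 + r2 + r3 - r4 + r5 - r6)
    exact ⟨by linarith [key.1], by linarith [key.2.1]⟩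
  -- constancy of `c2`
  have G0 : ∀ y, -4 ≤ y → y ≤ 4 → c2 0 y = c2 0 0 := by
    apply const_of_step
    intro a b hab k1 k2
    have r1 := (F2 0 a b hab (by norm_num) (by norm_num) k1 k2).2
    have r2 := (F1 (-1) 0 a (by norm_num) (by norm_num) (by norm_num) k1 (by omega)).1
    have r3 := (F1 0 1 b (by norm_num) (by norm_num) (by norm_num) (by omega) (by omega)).1
    norm_num at r1
    linarith
  have G1 : ∀ y, -4 ≤ y → y ≤ 4 → c2 1 y = c2 0 0 := by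
    intro y k1 k2
    have r3 := (F1 0 1 y (by norm_num) (by norm_num) (by norm_num) k1 k2).1
    rw [r3, G0 y k1 k2]
  have Gm : ∀ y, -4 ≤ y → y ≤ 4 → c2 (-1) y = c2 0 0 := by
    intro y k1 k2
    have r3 := (F1 (-1) 0 y (by norm_num) (by norm_num) (by norm_num) k1 k2).1
    rw [← r3, G0 y k1 k2]
  -- constancy of `c1`
  have J0 : ∀ y, -4 ≤ y → y ≤ 4 → c1 0 y = c1 0 0 := by
    apply const_of_step
    intro a b hab k1 k2
    exact (F2 0 a b hab (by norm_num) (by norm_num) k1 k2).1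
  have J1 : ∀ y, -4 ≤ y → y ≤ 4 → c1 1 y = c1 0 0 := by
    intro y k1 k2
    have r1 : c1 1 y = c1 1 0 := by
      apply const_of_step (f := fun y => c1 1 y) _ y k1 k2
      intro a b hab k1 k2
      exact (F2 1 a b hab (by norm_num) (by norm_num) k1 k2).1
    have r2 : c1 1 1 = c1 1 0 := (F2 1 0 1 (by norm_num) (by norm_num) (by norm_num) (by norm_num) (by norm_num)).1
    have r3 := (F1 0 1 0 (by norm_num) (by norm_num) (by norm_num) (by norm_num) (by norm_num)).2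
    have r4 := J0 (-1) (by norm_num) (by norm_num)
    norm_num at r3
    linarith
  have Jm : ∀ y, -4 ≤ y → y ≤ 4 → c1 (-1) y = c1 0 0 := by
    intro y k1 k2
    have r1 : c1 (-1) y = c1 (-1) 0 := by
      apply const_of_step (f := fun y => c1 (-1) y) _ y k1 k2
      intro a b hab k1 k2
      exact (F2 (-1) a b hab (by norm_num) (by norm_num) k1 k2).1
    have r2 : c1 (-1) 0 = c1 (-1) (-1) := (F2 (-1) (-1) 0 (by norm_num) (by norm_num) (by norm_num) (by norm_num) (by norm_num)).1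
    have r3 := (F1 (-1) 0 0 (by norm_num) (by norm_num) (by norm_num) (by norm_num) (by norm_num)).2
    have r4 := J0 1 (by norm_num) (by norm_num)
    norm_num at r3
    linarith
  obtain ⟨c4, hc4, e4⟩ := h1m
  obtain ⟨c5, hc5, e5⟩ := h15
  obtain ⟨c6, hc6, e6⟩ := h23
  have K2 : ∀ x a b a' : ℤ, a + 1 = b → b + 1 = a' → (x = -1 ∨ x = 0 ∨ x = 1) → -4 ≤ b → b ≤ 4 →
      Y x a - (2 : ℝ) • Y x b + Y x a' = c2 0 0 • σ01 := by
    intro x a b a' e1 e2 hx k1 k2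
    rw [E01 x a b a' e1 e2 (by omega) (by omega) k1 k2]
    rcases hx with rfl | rfl | rfl
    · rw [Gm b k1 k2]
    · rw [G0 b k1 k2]
    · rw [G1 b k1 k2]
  have K1 : ∀ a b a' y : ℤ, a + 1 = b → b + 1 = a' → (b = -1 ∨ b = 0 ∨ b = 1) → -4 ≤ y → y ≤ 4 →
      Y a y - (2 : ℝ) • Y b y + Y a' y = c1 0 0 • σ10 := by
    intro a b a' y e1 e2 hb k1 k2
    rw [E10 a b a' y e1 e2 (by omega) (by omega) (by omega) (by omega)]
    rcases hb with rfl | rfl | rfl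
    · rw [Jm y k1 k2]
    · rw [J0 y k1 k2]
    · rw [J1 y k1 k2]
  have hc100 := (hc1 0 0 (by norm_num) (by norm_num) (by norm_num) (by norm_num)).1
  have hc200 := (hc2 0 0 (by norm_num) (by norm_num) (by norm_num) (by norm_num)).1
  have hc300 := (hc3 0 0 (by norm_num) (by norm_num) (by norm_num) (by norm_num)).1
  -- the mixed difference
  have hH := K1 (-1) 0 1 1 (by norm_num) (by norm_num) (by norm_num) (by norm_num) (by norm_num)
  have hH' := K1 (-1) 0 1 0 (by norm_num) (by norm_num) (by norm_num) (by norm_num) (by norm_num)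
  refine ⟨c1 0 0 • σ10, Y 1 1 - Y 1 0 - Y 0 1 + Y 0 0, c2 0 0 • σ01, c1 0 0, c2 0 0, c3 0 0,
    c4, c5, c6, hc100, hc200, hc300, hc4, hc5, hc6, rfl, rfl, ?_, ?_, ?_, ?_⟩
  · have r1 := K2 (-1) (-1) 0 1 (by norm_num) (by norm_num) (by norm_num) (by norm_num) (by norm_num)
    have r2 := E11 (-1) 0 1 (-1) 0 1 (by norm_num) (by norm_num) (by norm_num) (by norm_num)
      (by norm_num) (by norm_num) (by norm_num) (by norm_num)
    linear_combination (norm := module) r2 - r1 + hH - (2 : ℝ) • hH'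
  · have r1 := K2 1 (-1) 0 1 (by norm_num) (by norm_num) (by norm_num) (by norm_num) (by norm_num)
    linear_combination (norm := module) e4 - r1 - hH
  · have r1 := K2 1 0 1 2 (by norm_num) (by norm_num) (by norm_num) (by norm_num) (by norm_num)
    have r2 := K2 1 1 2 3 (by norm_num) (by norm_num) (by norm_num) (by norm_num) (by norm_num)
    have r3 := K2 1 2 3 4 (by norm_num) (by norm_num) (by norm_num) (by norm_num) (by norm_num)
    have r4 := K2 1 3 4 5 (by norm_num) (by norm_num) (by norm_num) (by norm_num) (by norm_num)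
    have s0 := K2 (-1) (-1) 0 1 (by norm_num) (by norm_num) (by norm_num) (by norm_num) (by norm_num)
    have s1 := K2 (-1) (-2) (-1) 0 (by norm_num) (by norm_num) (by norm_num) (by norm_num) (by norm_num)
    have s2 := K2 (-1) (-3) (-2) (-1) (by norm_num) (by norm_num) (by norm_num) (by norm_num) (by norm_num)
    have s3 := K2 (-1) (-4) (-3) (-2) (by norm_num) (by norm_num) (by norm_num) (by norm_num) (by norm_num)
    have s4 := K2 (-1) (-5) (-4) (-3) (by norm_num) (by norm_num) (by norm_num) (by norm_num) (by norm_num)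
    linear_combination (norm := module) e5 - (4 : ℝ) • r1 - (3 : ℝ) • r2 - (2 : ℝ) • r3 - r4 -
      (5 : ℝ) • s0 - (4 : ℝ) • s1 - (3 : ℝ) • s2 - (2 : ℝ) • s3 - s4 + (5 : ℝ) • hH - (6 : ℝ) • hH'
  · have a1 := K1 0 1 2 3 (by norm_num) (by norm_num) (by norm_num) (by norm_num) (by norm_num)
    have a2 := K1 (-2) (-1) 0 (-3) (by norm_num) (by norm_num) (by norm_num) (by norm_num) (by norm_num)
    have r1 := K2 1 0 1 2 (by norm_num) (by norm_num) (by norm_num) (by norm_num) (by norm_num)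
    have r2 := K2 1 1 2 3 (by norm_num) (by norm_num) (by norm_num) (by norm_num) (by norm_num)
    have t1 := K2 0 0 1 2 (by norm_num) (by norm_num) (by norm_num) (by norm_num) (by norm_num)
    have t2 := K2 0 1 2 3 (by norm_num) (by norm_num) (by norm_num) (by norm_num) (by norm_num)
    have s0 := K2 (-1) (-1) 0 1 (by norm_num) (by norm_num) (by norm_num) (by norm_num) (by norm_num)
    have s1 := K2 (-1) (-2) (-1) 0 (by norm_num) (by norm_num) (by norm_num) (by norm_num) (by norm_num)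
    have s2 := K2 (-1) (-3) (-2) (-1) (by norm_num) (by norm_num) (by norm_num) (by norm_num) (by norm_num)
    have u0 := K2 0 (-1) 0 1 (by norm_num) (by norm_num) (by norm_num) (by norm_num) (by norm_num)
    have u1 := K2 0 (-2) (-1) 0 (by norm_num) (by norm_num) (by norm_num) (by norm_num) (by norm_num)
    have u2 := K2 0 (-3) (-2) (-1) (by norm_num) (by norm_num) (by norm_num) (by norm_num) (by norm_num)
    linear_combination (norm := module) e6 - a1 - a2 - (2 : ℝ) • ((2 : ℝ) • r1 + r2) +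
      ((2 : ℝ) • t1 + t2) - (2 : ℝ) • ((3 : ℝ) • s0 + (2 : ℝ) • s1 + s2) +
      ((3 : ℝ) • u0 + (2 : ℝ) • u1 + u2) + (6 : ℝ) • hH - (8 : ℝ) • hH'

end Pool.Agent.Helper101_Scrib
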