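import Pool.Agent.Helper101_Scrib.Hull

/-!
# Realizations of a combinatorial type
-/

namespace Pool.Agent.Helper101_Scrib

open Submodule

variable {d : ℕ}

/-- The faces of a finite set. -/
abbrev Faces (s : Finset (Amb d)) : Type := {S : Set (Amb d) // IsFace (s : Set (Amb d)) S}

theorem linDim_empty : linDim (∅ : Set (Amb d)) = 0 := by
  simp [linDim]

theorem linDim_le_of_iso {s s' : Finset (Amb d)} (hb : IsFace (s : Set (Amb d)) ∅)
    (Ψ : Faces s ≃o Faces s') :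
    ∀ n : ℕ, ∀ S : Faces s, linDim S.1 = n → n ≤ linDim (Ψ S).1 := by
  intro n
  induction n with
  | zero => intro S _; exact Nat.zero_le _
  | succ n ih =>
    intro S hS
    have hne : S.1.Nonempty := by
      rw [Set.nonempty_iff_ne_empty]
      intro h
      rw [h, linDim_empty] at hS
      omega
    obtain ⟨T, hT, hTS, hd⟩ := exists_facet s.finite_toSet hb S.2 hne
    have h1 := ih ⟨T, hT⟩ (by simp only; omega)
    have h2 : Ψ ⟨T, hT⟩ < Ψ S := by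
      rw [OrderIso.lt_iff_lt]
      exact hTS
    have h3 : linDim (Ψ ⟨T, hT⟩).1 < linDim (Ψ S).1 :=
      linDim_lt (Ψ ⟨T, hT⟩).2 (Ψ S).2.subset h2
    omega

theorem linDim_eq_of_iso {s s' : Finset (Amb d)} (hb : IsFace (s : Set (Amb d)) ∅)
    (hb' : IsFace (s' : Set (Amb d)) ∅) (Ψ : Faces s ≃o Faces s') (S : Faces s) :
    linDim (Ψ S).1 = linDim S.1 := by
  apply le_antisymm
  · have := linDim_le_of_iso hb' Ψ.symm _ (Ψ S) rfl
    rwa [OrderIso.symm_apply_apply] at this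
  · exact linDim_le_of_iso hb Ψ _ S rfl

theorem singleton_iff {s : Finset (Amb d)} (hb : IsFace (s : Set (Amb d)) ∅)
    (hs : ∀ v ∈ s, IsFace (s : Set (Amb d)) {v}) (S : Faces s) :
    (∃ v ∈ s, S.1 = {v}) ↔
      ((∃ U : Faces s, ¬ S ≤ U) ∧ ∀ T : Faces s, T ≤ S → S ≤ T ∨ ∀ U : Faces s, T ≤ U) := by
  constructor
  · rintro ⟨v, hv, hS⟩
    refine ⟨⟨⟨∅, hb⟩, fun h => ?_⟩, fun T hT => ?_⟩
    · have h' : S.1 ⊆ ∅ := h
      rw [hS] at h'
      exact h' rfl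
    · have hT' : T.1 ⊆ S.1 := hT
      rw [hS, Set.subset_singleton_iff_eq] at hT'
      rcases hT' with h | h
      · right
        intro U
        show T.1 ⊆ U.1
        rw [h]
        exact Set.empty_subset _
      · left
        show S.1 ⊆ T.1
        rw [h, hS]
  · rintro ⟨⟨U, hU⟩, h⟩
    have hne : S.1.Nonempty := by
      rw [Set.nonempty_iff_ne_empty]
      intro h0
      apply hU
      show S.1 ⊆ U.1
      rw [h0]
      exact Set.empty_subset _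
    obtain ⟨v, hv⟩ := hne
    have hvs : v ∈ s := S.2.subset hv
    refine ⟨v, hvs, ?_⟩
    have hle : (⟨{v}, hs v hvs⟩ : Faces s) ≤ S := by
      show ({v} : Set (Amb d)) ⊆ S.1
      rwa [Set.singleton_subset_iff]
    rcases h _ hle with h1 | h1
    · apply Set.Subset.antisymm h1
      rwa [Set.singleton_subset_iff]
    · have h2 : ({v} : Set (Amb d)) ⊆ ∅ := h1 ⟨∅, hb⟩
      exact absurd (h2 rfl) (Set.notMem_empty v)

theorem exists_singleton_of_iso {s s' : Finset (Amb d)} (hb : IsFace (s : Set (Amb d)) ∅)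
    (hb' : IsFace (s' : Set (Amb d)) ∅)
    (hs : ∀ v ∈ s, IsFace (s : Set (Amb d)) {v}) (hs' : ∀ v ∈ s', IsFace (s' : Set (Amb d)) {v})
    (Ψ : Faces s ≃o Faces s') (S : Faces s) (hS : ∃ v ∈ s, S.1 = {v}) :
    ∃ w ∈ s', (Ψ S).1 = {w} := by
  rw [singleton_iff hb' hs']
  rw [singleton_iff hb hs] at hS
  obtain ⟨⟨U, hU⟩, h⟩ := hS
  refine ⟨⟨Ψ U, fun hcon => hU ?_⟩, fun T hT => ?_⟩
  · rwa [OrderIso.le_iff_le] at hcon
  · have h1 : Ψ.symm T ≤ S := by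
      rw [← Ψ.le_iff_le, OrderIso.apply_symm_apply]
      exact hT
    rcases h _ h1 with h2 | h2
    · left
      rwa [← Ψ.le_iff_le, OrderIso.apply_symm_apply] at h2
    · right
      intro V
      have := h2 (Ψ.symm V)
      rwa [← Ψ.le_iff_le, OrderIso.apply_symm_apply, OrderIso.apply_symm_apply] at this

/-- The realization theorem. -/
theorem realization (hd : 1 ≤ d) {s : Finset (Amb d)} (hb : IsFace (s : Set (Amb d)) ∅)
    (hs : ∀ v ∈ s, IsFace (s : Set (Amb d)) {v}) {K' : Set (Amb d)} (hK' : IsPolytopeCone d K')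
    (hT : SameType (conicHull s) K') :
    ∃ X : Amb d → Amb d,
      (∀ v ∈ s, X v ∈ K') ∧
      ∀ φ : Amb d →ₗ[ℝ] ℝ, (∀ v ∈ s, 0 ≤ φ v) →
        ∃ φ' : Amb d →ₗ[ℝ] ℝ, (∀ x ∈ K', 0 ≤ φ' x) ∧ (∀ v ∈ s, φ' (X v) = 0 ↔ φ v = 0) ∧
          linDim (X '' {v | v ∈ s ∧ φ v = 0}) = linDim {v | v ∈ s ∧ φ v = 0} ∧
          linDim {x | x ∈ K' ∧ φ' x = 0} = linDim {v | v ∈ s ∧ φ v = 0} ∧
          ∀ x ∈ K', φ' x = 0 → ∃ c : Amb d → ℝ, (∀ v ∈ s, 0 ≤ c v) ∧
            (∀ v ∈ s, φ v ≠ 0 → c v = 0) ∧ x = ∑ v ∈ s, c v • X v := by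
  classical
  obtain ⟨s', hKs', hs'⟩ := exists_minimal_generators hK'.1 hK'.2.1
  obtain ⟨Φ⟩ := hT
  subst hKs'
  let Ψ : Faces s ≃o Faces s' := (facesIso s).symm.trans (Φ.trans (facesIso s'))
  -- `s'` has at least two elements, so the empty set is a face
  have hb' : IsFace (s' : Set (Amb d)) ∅ := by
    have hcard : 1 < s'.card := by
      have h1 := hK'.2.2
      rw [span_conicHull] at h1
      have h2 := finrank_span_finset_le_card (R := ℝ) s'
      rw [Set.finrank, h1, finrank_top, Module.finrank_fin_fun] at h2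
      omega
    obtain ⟨v, hv, w, hw, hvw⟩ := Finset.one_lt_card.1 hcard
    have := (hs' v hv).inter (hs' w hw)
    rwa [Set.singleton_inter_eq_empty.2 (by simpa using hvw)] at this
  have hX : ∀ v : Amb d, ∃ w : Amb d, ∀ hv : v ∈ s, w ∈ s' ∧ (Ψ ⟨{v}, hs v hv⟩).1 = {w} := by
    intro v
    by_cases hv : v ∈ s
    · obtain ⟨w, hw, h⟩ := exists_singleton_of_iso hb hb' hs hs' Ψ ⟨{v}, hs v hv⟩ ⟨v, hv, rfl⟩
      exact ⟨w, fun _ => ⟨hw, h⟩⟩
    · exact ⟨0, fun h => absurd h hv⟩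
  choose X hX using hX
  have hXmem : ∀ v ∈ s, X v ∈ s' := fun v hv => (hX v hv).1
  -- membership
  have hmem : ∀ v (hv : v ∈ s) (S : Faces s), X v ∈ (Ψ S).1 ↔ v ∈ S.1 := by
    intro v hv S
    have h1 : (⟨{v}, hs v hv⟩ : Faces s) ≤ S ↔ v ∈ S.1 := by
      show ({v} : Set (Amb d)) ⊆ S.1 ↔ _
      rw [Set.singleton_subset_iff]
    rw [← h1, ← Ψ.le_iff_le]
    show _ ↔ (Ψ ⟨{v}, hs v hv⟩).1 ⊆ (Ψ S).1
    rw [(hX v hv).2, Set.singleton_subset_iff]
  have hsurj : ∀ w ∈ s', ∃ v ∈ s, X v = w := by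
    intro w hw
    obtain ⟨v, hv, h⟩ := exists_singleton_of_iso hb' hb hs' hs Ψ.symm ⟨{w}, hs' w hw⟩ ⟨w, hw, rfl⟩
    refine ⟨v, hv, ?_⟩
    have h1 : Ψ.symm ⟨{w}, hs' w hw⟩ = (⟨{v}, hs v hv⟩ : Faces s) := Subtype.ext h
    have h2 : Ψ ⟨{v}, hs v hv⟩ = ⟨{w}, hs' w hw⟩ := by
      rw [← h1, OrderIso.apply_symm_apply]
    have h3 := (hX v hv).2
    rw [h2] at h3
    exact (Set.singleton_eq_singleton_iff.1 h3).symm
  have hinj : ∀ v ∈ s, ∀ w ∈ s, X v = X w → v = w := by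
    intro v hv w hw h
    have h1 : Ψ ⟨{v}, hs v hv⟩ = Ψ ⟨{w}, hs w hw⟩ := by
      apply Subtype.ext
      rw [(hX v hv).2, (hX w hw).2, h]
    have h2 := Ψ.injective h1
    have h3 := congrArg Subtype.val h2
    exact Set.singleton_eq_singleton_iff.1 h3
  have himage : s' = s.image X := by
    ext w
    rw [Finset.mem_image]
    constructor
    · intro hw
      obtain ⟨v, hv, h⟩ := hsurj w hw
      exact ⟨v, hv, h⟩
    · rintro ⟨v, hv, rfl⟩
      exact hXmem v hv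
  refine ⟨X, fun v hv => subset_conicHull s' (hXmem v hv), ?_⟩
  intro φ hφ
  let S : Faces s := ⟨{v | v ∈ s ∧ φ v = 0}, φ, fun v hv => hφ v hv, by ext v; simp⟩
  obtain ⟨φ', hφ', hS'⟩ := (Ψ S).2
  have hXS : X '' {v | v ∈ s ∧ φ v = 0} = (Ψ S).1 := by
    ext w
    constructor
    · rintro ⟨v, hv, rfl⟩
      exact (hmem v hv.1 S).2 hv
    · intro hw
      have hws : w ∈ s' := (Ψ S).2.subset hw
      obtain ⟨v, hv, h⟩ := hsurj w hws
      rw [← h] at hw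
      exact ⟨v, (hmem v hv S).1 hw, h⟩
  have hnn : ∀ x ∈ conicHull s', 0 ≤ φ' x := fun x hx => conicHull_nonneg hφ' hx
  have hiff : ∀ v ∈ s, φ' (X v) = 0 ↔ φ v = 0 := by
    intro v hv
    have h1 : X v ∈ (Ψ S).1 ↔ φ' (X v) = 0 := by
      rw [hS']
      exact ⟨fun h => h.2, fun h => ⟨hXmem v hv, h⟩⟩
    rw [← h1, hmem v hv S]
    exact ⟨fun h => h.2, fun h => ⟨hv, h⟩⟩
  have hdim : linDim (Ψ S).1 = linDim {v | v ∈ s ∧ φ v = 0} := linDim_eq_of_iso hb hb' Ψ S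
  refine ⟨φ', hnn, hiff, ?_, ?_, ?_⟩
  · rw [hXS, hdim]
  · have hface : IsFace (conicHull s') {x | x ∈ conicHull s' ∧ φ' x = 0} := ⟨φ', hnn, rfl⟩
    rw [linDim_face hface]
    have : {x | x ∈ conicHull s' ∧ φ' x = 0} ∩ (s' : Set (Amb d)) = (Ψ S).1 := by
      rw [hS']
      ext x
      constructor
      · rintro ⟨⟨_, h1⟩, h2⟩
        exact ⟨h2, h1⟩
      · rintro ⟨h1, h2⟩
        exact ⟨⟨subset_conicHull s' h1, h2⟩, h1⟩
    rw [this, hdim]
  · intro x hx h0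
    obtain ⟨c, hc0, hc1, hcx⟩ := face_repr hφ' hx h0
    refine ⟨fun v => c (X v), fun v hv => hc0 _ (hXmem v hv), fun v hv hne => ?_, ?_⟩
    · apply hc1 _ (hXmem v hv)
      rwa [Ne, hiff v hv]
    · rw [hcx, himage, Finset.sum_image hinj]

end Pool.Agent.Helper101_Scrib
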