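import Pool.Agent.Helper101_Scrib.Quad

/-!
# The rigidity theorem
-/

namespace Pool.Agent.Helper101_Scrib

variable {E : Type*} [AddCommGroup E] [Module ℝ E]

theorem L4.toL3 (Ψ : E →ₗ[ℝ] (ℝ × ℝ × ℝ)) {a b c σ : E} (h : L4 a b c σ) (hσ : Ψ σ = 0) :
    L3 (Ψ a) (Ψ b) (Ψ c) := by
  obtain ⟨α, β, γ, δ, hα, hβ, hγ, _, e⟩ := h
  rw [L3_iff]
  refine ⟨α, β, γ, hα, hβ, hγ, ?_⟩
  have := congrArg Ψ e
  simpa [hσ] using this

/-- The data of a gadget: points indexed by the lattice rectangle, six points at infinity, with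
all relations coming from the lines. -/
structure Gadget (X : ℤ → ℤ → E) (σ10 σ01 σ11 σ1m σ15 σ23 : E) (gL gT lH : E →ₗ[ℝ] ℝ) : Prop where
  L10 : gL σ10 = 0
  L01 : gL σ01 = 0
  L11 : gL σ11 = 0
  L1m : gL σ1m = 0
  L15 : gL σ15 = 0
  L23 : gL σ23 = 0
  T10 : gT σ10 = 0
  T01 : gT σ01 = 0
  T11 : gT σ11 = 0
  T1m : gT σ1m = 0
  T15 : gT σ15 = 0
  T23 : gT σ23 = 0
  H10 : lH σ10 = 0
  H01 : lH σ01 = 0
  H11 : lH σ11 = 0
  H1m : lH σ1m = 0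
  H15 : lH σ15 = 0
  H23 : lH σ23 = 0
  pos : ∀ x y, inR x y → 0 < lH (X x y)
  left : ∀ x y, inR x y → (gL (X x y) = 0 ↔ x = -2)
  top : ∀ x y, inR x y → (gT (X x y) = 0 ↔ y = 5)
  ind : ∀ a b c : ℝ, a • σ10 + b • σ01 + c • σ11 = 0 → a = 0 ∧ b = 0 ∧ c = 0
  row : ∀ x1 x2 x3 y : ℤ, inR x1 y → inR x2 y → inR x3 y → x1 ≠ x2 → x1 ≠ x3 → x2 ≠ x3 →
    L4 (X x1 y) (X x2 y) (X x3 y) σ10
  col : ∀ x y1 y2 y3 : ℤ, inR x y1 → inR x y2 → inR x y3 → y1 ≠ y2 → y1 ≠ y3 → y2 ≠ y3 →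
    L4 (X x y1) (X x y2) (X x y3) σ01
  diag : ∀ x1 y1 x2 y2 x3 y3 : ℤ, inR x1 y1 → inR x2 y2 → inR x3 y3 →
    y1 - x1 = y2 - x2 → y2 - x2 = y3 - x3 → x1 ≠ x2 → x1 ≠ x3 → x2 ≠ x3 →
    L4 (X x1 y1) (X x2 y2) (X x3 y3) σ11
  anti : ∀ x1 y1 x2 y2 x3 y3 : ℤ, inR x1 y1 → inR x2 y2 → inR x3 y3 →
    x1 + y1 = x2 + y2 → x2 + y2 = x3 + y3 → x1 ≠ x2 → x1 ≠ x3 → x2 ≠ x3 →
    L4 (X x1 y1) (X x2 y2) (X x3 y3) σ1m
  l15 : L4 (X (-1) (-5)) (X 0 0) (X 1 5) σ15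
  l23 : L4 (X (-2) (-3)) (X 0 0) (X 2 3) σ23

theorem Gadget.rigid {X : ℤ → ℤ → E} {σ10 σ01 σ11 σ1m σ15 σ23 : E} {gL gT lH : E →ₗ[ℝ] ℝ}
    (G : Gadget X σ10 σ01 σ11 σ1m σ15 σ23 gL gT lH) :
    ∃ M1 M12 M2 : E, ∃ c1 c2 c3 c4 c5 c6 : ℝ,
      c1 ≠ 0 ∧ c2 ≠ 0 ∧ c3 ≠ 0 ∧ c4 ≠ 0 ∧ c5 ≠ 0 ∧ c6 ≠ 0 ∧
      M1 = c1 • σ10 ∧ M2 = c2 • σ01 ∧ M1 + (2 : ℝ) • M12 + M2 = c3 • σ11 ∧
      M1 - (2 : ℝ) • M12 + M2 = c4 • σ1m ∧
      M1 + (10 : ℝ) • M12 + (25 : ℝ) • M2 = c5 • σ15 ∧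
      (4 : ℝ) • M1 + (12 : ℝ) • M12 + (9 : ℝ) • M2 = c6 • σ23 := by
  let Ψ : E →ₗ[ℝ] (ℝ × ℝ × ℝ) := gL.prod (gT.prod lH)
  have hΨ : ∀ v, Ψ v = (gL v, gT v, lH v) := fun v => rfl
  have s10 : Ψ σ10 = 0 := by rw [hΨ, G.L10, G.T10, G.H10]; rfl
  have s01 : Ψ σ01 = 0 := by rw [hΨ, G.L01, G.T01, G.H01]; rfl
  have s11 : Ψ σ11 = 0 := by rw [hΨ, G.L11, G.T11, G.H11]; rfl
  have s1m : Ψ σ1m = 0 := by rw [hΨ, G.L1m, G.T1m, G.H1m]; rfl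
  have s15 : Ψ σ15 = 0 := by rw [hΨ, G.L15, G.T15, G.H15]; rfl
  have s23 : Ψ σ23 = 0 := by rw [hΨ, G.L23, G.T23, G.H23]; rfl
  have H : ∀ x1 y1 x2 y2 x3 y3 : ℤ, Col x1 y1 x2 y2 x3 y3 →
      L3 (Ψ (X x1 y1)) (Ψ (X x2 y2)) (Ψ (X x3 y3)) := by
    intro x1 y1 x2 y2 x3 y3 h
    obtain ⟨r1, r2, r3, n12, n13, n23, h⟩ := h
    rcases h with ⟨h1, h2⟩ | ⟨h1, h2⟩ | ⟨h1, h2⟩ | ⟨h1, h2⟩
    · subst h1; subst h2
      exact (G.row x1 x2 x3 y1 r1 r2 r3 (by omega) (by omega) (by omega)).toL3 Ψ s10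
    · subst h1; subst h2
      exact (G.col x1 y1 y2 y3 r1 r2 r3 (by omega) (by omega) (by omega)).toL3 Ψ s01
    · exact (G.diag x1 y1 x2 y2 x3 y3 r1 r2 r3 h1 h2 (by omega) (by omega) (by omega)).toL3 Ψ s11
    · exact (G.anti x1 y1 x2 y2 x3 y3 r1 r2 r3 h1 h2 (by omega) (by omega) (by omega)).toL3 Ψ s1m
  obtain ⟨Φ0, hΦ0⟩ := normalize (q := fun x y => Ψ (X x y)) H (fun x y h => G.pos x y h)
    (fun x y h => G.left x y h) (fun x y h => G.top x y h)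
  let Φ : E →ₗ[ℝ] (ℝ × ℝ × ℝ) := Φ0.comp Ψ
  have f10 : Φ σ10 = 0 := by simp [Φ, s10]
  have f01 : Φ σ01 = 0 := by simp [Φ, s01]
  have f11 : Φ σ11 = 0 := by simp [Φ, s11]
  have f1m : Φ σ1m = 0 := by simp [Φ, s1m]
  have f15 : Φ σ15 = 0 := by simp [Φ, s15]
  have f23 : Φ σ23 = 0 := by simp [Φ, s23]
  have hΦ : ∀ x y, inR x y → ∃ t : ℝ, t ≠ 0 ∧ Φ (X x y) = (t * x, t * y, t * 1) := by
    intro x y h
    obtain ⟨t, ht, e1, e2, e3⟩ := hΦ0 x y h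
    exact ⟨t, ht, Prod.ext e1 (Prod.ext e2 e3)⟩
  choose! t ht using hΦ
  have key : ∀ x1 y1 x2 y2 x3 y3 : ℤ, ∀ σ : E, inR x1 y1 → inR x2 y2 → inR x3 y3 →
      x1 + x3 = 2 * x2 → y1 + y3 = 2 * y2 → ¬ (x1 = x2 ∧ y1 = y2) → Φ σ = 0 →
      L4 (X x1 y1) (X x2 y2) (X x3 y3) σ → ∃ c : ℝ, c ≠ 0 ∧
      (t x1 y1)⁻¹ • X x1 y1 - (2 : ℝ) • (t x2 y2)⁻¹ • X x2 y2 + (t x3 y3)⁻¹ • X x3 y3 = c • σ := by
    intro x1 y1 x2 y2 x3 y3 σ r1 r2 r3 hx hy hne hσ h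
    refine second_diff Φ (ht x1 y1 r1).1 (ht x2 y2 r2).1 (ht x3 y3 r3).1
      (x := x2) (y := y2) (a := (x2 : ℝ) - x1) (b := (y2 : ℝ) - y1) ?_ (ht x2 y2 r2).2 ?_ hσ ?_ h
    · rw [(ht x1 y1 r1).2]
      simp
    · rw [(ht x3 y3 r3).2]
      have hx' : (x3 : ℝ) = x2 + (x2 - x1) := by
        have : (x1 : ℝ) + x3 = 2 * x2 := by exact_mod_cast hx
        linarith
      have hy' : (y3 : ℝ) = y2 + (y2 - y1) := by
        have : (y1 : ℝ) + y3 = 2 * y2 := by exact_mod_cast hy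
        linarith
      rw [← hx', ← hy']
    · by_contra hcon
      push Not at hcon
      apply hne
      constructor
      · have := hcon.1
        have h2 : (x1 : ℝ) = x2 := by linarith
        exact_mod_cast h2
      · have := hcon.2
        have h2 : (y1 : ℝ) = y2 := by linarith
        exact_mod_cast h2
  refine quad (fun x y => (t x y)⁻¹ • X x y) σ10 σ01 σ11 σ1m σ15 σ23 G.ind ?_ ?_ ?_ ?_ ?_ ?_
  · intro b y k1 k2 k3 k4
    obtain ⟨c, hc, e⟩ := key (b - 1) y b y (b + 1) y σ10 (by unfold inR; omega) (by unfold inR; omega)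
      (by unfold inR; omega) (by ring) (by ring) (by omega) f10
      (G.row _ _ _ _ (by unfold inR; omega) (by unfold inR; omega)
      (by unfold inR; omega) (by omega) (by omega) (by omega))
    refine ⟨c, hc, ?_⟩
    intro a a' h1 h2
    obtain rfl : a = b - 1 := by omega
    obtain rfl : a' = b + 1 := by omega
    exact e
  · intro x b k1 k2 k3 k4
    obtain ⟨c, hc, e⟩ := key x (b - 1) x b x (b + 1) σ01 (by unfold inR; omega) (by unfold inR; omega)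
      (by unfold inR; omega) (by ring) (by ring) (by omega) f01
      (G.col _ _ _ _ (by unfold inR; omega) (by unfold inR; omega)
      (by unfold inR; omega) (by omega) (by omega) (by omega))
    refine ⟨c, hc, ?_⟩
    intro a a' h1 h2
    obtain rfl : a = b - 1 := by omega
    obtain rfl : a' = b + 1 := by omega
    exact e
  · intro x y k1 k2 k3 k4
    obtain ⟨c, hc, e⟩ := key (x - 1) (y - 1) x y (x + 1) (y + 1) σ11 (by unfold inR; omega)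
      (by unfold inR; omega) (by unfold inR; omega) (by ring) (by ring) (by omega) f11
      (G.diag _ _ _ _ _ _ (by unfold inR; omega) (by unfold inR; omega)
      (by unfold inR; omega) (by omega) (by omega) (by omega) (by omega) (by omega))
    refine ⟨c, hc, ?_⟩
    intro a b a' b' h1 h2 h3 h4
    obtain rfl : a = x - 1 := by omega
    obtain rfl : a' = x + 1 := by omega
    obtain rfl : b = y - 1 := by omega
    obtain rfl : b' = y + 1 := by omega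
    exact e
  · exact key (-1) 1 0 0 1 (-1) σ1m (by unfold inR; omega) (by unfold inR; omega)
      (by unfold inR; omega) (by ring) (by ring) (by omega) f1m
      (G.anti _ _ _ _ _ _ (by unfold inR; omega) (by unfold inR; omega)
      (by unfold inR; omega) (by omega) (by omega) (by omega) (by omega) (by omega))
  · exact key (-1) (-5) 0 0 1 5 σ15 (by unfold inR; omega) (by unfold inR; omega)
      (by unfold inR; omega) (by ring) (by ring) (by omega) f15 G.l15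
  · exact key (-2) (-3) 0 0 2 3 σ23 (by unfold inR; omega) (by unfold inR; omega)
      (by unfold inR; omega) (by ring) (by ring) (by omega) f23 G.l23

end Pool.Agent.Helper101_Scrib
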